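import Pool.Agent.Lib.MP_c50dba_nt.Gen.CoreA

set_option autoImplicit false

/-!
The analytic upper bound in the core theorem.
-/

namespace Pool.Agent.Lib.MP_c50dba_nt.Gen

open Pool.Agent.Lib.MP_c50dba_nt NumberField Module

variable {p : ℕ} [hp : Fact p.Prime] {C : Type} [NormedField C] [CompleteSpace C]
  [IsUltrametricDist C] [NormedAlgebra ℚ_[p] C] {K : Type} [Field K] [NumberField K]
  {n g : ℕ}

/-- The frequency vector of the exponent vector `k`. -/
def kap (x : Fin g → Fin n → 𝓞 K) (k : Fin g → ℕ) (σ : Fin n) : 𝓞 K := ∑ j, (k j : 𝓞 K) * x j σ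

/-- Its pairings with the directions `y j`. -/
noncomputable def ell (φ : K →+* C) (x : Fin g → Fin n → 𝓞 K) (y : Fin n → Fin n → C)
    (k : Fin g → ℕ) (j : Fin n) : C := ∑ σ, y j σ * φ (kap x k σ : K)

/-- Monomials in the algebraic numbers. -/
def apow (A : Fin g → Fin n → K) (k : Fin g → ℕ) (s : Fin n → ℕ) : K :=
  ∏ j, ∏ j', A j j' ^ (k j * s j')

omit [CompleteSpace C] in
lemma norm_phi_le_one' (φ : K →+* C) (b : 𝓞 K) : ‖φ (b : K)‖ ≤ 1 :=
  norm_le_one_of_isIntegral ((b.isIntegral_coe).map (φ : K →+* C).toIntAlgHom)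

omit [CompleteSpace C] [IsUltrametricDist C] [NumberField K] in
lemma ell_eq (φ : K →+* C) (x : Fin g → Fin n → 𝓞 K) (y : Fin n → Fin n → C)
    (k : Fin g → ℕ) (j : Fin n) :
    ell φ x y k j = ∑ i, (k i : C) * ∑ σ, φ (x i σ : K) * y j σ := by
  unfold ell kap
  have h1 : ∀ σ, φ ((∑ i, (k i : 𝓞 K) * x i σ : 𝓞 K) : K) = ∑ i, (k i : C) * φ (x i σ : K) := by
    intro σ
    have h2 : ((∑ i, (k i : 𝓞 K) * x i σ : 𝓞 K) : K) = ∑ i, (k i : K) * (x i σ : K) := by
      have h3 : ∀ z : 𝓞 K, (z : K) = algebraMap (𝓞 K) K z := fun _ => rfl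
      rw [h3, map_sum]
      apply Finset.sum_congr rfl
      intro i _
      rw [map_mul, map_natCast]
    rw [h2, map_sum]
    apply Finset.sum_congr rfl
    intro i _
    rw [map_mul, map_natCast]
  simp only [h1, Finset.mul_sum]
  rw [Finset.sum_comm]
  apply Finset.sum_congr rfl
  intro i _
  apply Finset.sum_congr rfl
  intro σ _
  ring

omit [CompleteSpace C] in
lemma norm_ell_le (φ : K →+* C) (x : Fin g → Fin n → 𝓞 K) (y : Fin n → Fin n → C) {ρ : ℝ}
    (hρ : 0 ≤ ρ) (hy : ∀ j σ, ‖y j σ‖ ≤ ρ) (k : Fin g → ℕ) (j : Fin n) :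
    ‖ell φ x y k j‖ ≤ ρ := by
  apply IsUltrametricDist.norm_sum_le_of_forall_le_of_nonneg hρ
  intro σ _
  rw [norm_mul]
  calc ‖y j σ‖ * ‖φ (kap x k σ : K)‖ ≤ ρ * 1 := by
        gcongr
        · exact hy j σ
        · exact norm_phi_le_one' φ _
    _ = ρ := mul_one _

omit [CompleteSpace C] in
lemma norm_nat_mul_le {a : C} {r : ℝ} (ha : ‖a‖ ≤ r) (m : ℕ) : ‖(m : C) * a‖ ≤ r := by
  rw [norm_mul]
  calc ‖(m : C)‖ * ‖a‖ ≤ 1 * ‖a‖ := by
        gcongr
        exact IsUltrametricDist.norm_natCast_le_one C m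
    _ ≤ r := by rw [one_mul]; exact ha

include hp in
lemma phi_apow (φ : K →+* C) (x : Fin g → Fin n → 𝓞 K) (y : Fin n → Fin n → C)
    (hy : ∀ j σ, ‖y j σ‖ ≤ 1 / 4) (A : Fin g → Fin n → K)
    (hA : ∀ j j', φ (A j j') = ex (∑ σ, φ (x j σ : K) * y j' σ)) (k : Fin g → ℕ) (s : Fin n → ℕ) :
    φ (apow A k s) = ex (∑ j, (s j : C) * ell φ x y k j) := by
  have hν : ∀ i j, ‖∑ σ, φ (x i σ : K) * y j σ‖ ≤ 1 / 4 := by
    intro i j
    apply IsUltrametricDist.norm_sum_le_of_forall_le_of_nonneg (by norm_num)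
    intro σ _
    rw [norm_mul]
    calc ‖φ (x i σ : K)‖ * ‖y j σ‖ ≤ 1 * (1 / 4) := by
          gcongr
          · exact norm_phi_le_one' φ _
          · exact hy j σ
      _ = 1 / 4 := one_mul _
  have h1 : ∑ j, (s j : C) * ell φ x y k j =
      ∑ i, ∑ j, ((k i * s j : ℕ) : C) * ∑ σ, φ (x i σ : K) * y j σ := by
    simp only [ell_eq, Finset.mul_sum]
    rw [Finset.sum_comm]
    apply Finset.sum_congr rfl
    intro i _
    apply Finset.sum_congr rfl
    intro j _
    apply Finset.sum_congr rfl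
    intro σ _
    push_cast
    ring
  rw [h1, ex_sum (p := p)]
  · unfold apow
    rw [map_prod]
    apply Finset.prod_congr rfl
    intro i _
    rw [ex_sum (p := p) _ _ (fun j _ => norm_nat_mul_le (hν i j) _), map_prod]
    apply Finset.prod_congr rfl
    intro j _
    rw [ex_nat_mul (p := p) (hν i j), map_pow, hA]
  · intro i _
    apply IsUltrametricDist.norm_sum_le_of_forall_le_of_nonneg (by norm_num)
    intro j _
    exact norm_nat_mul_le (hν i j) _

lemma exists_large {n : ℕ} (hn : 1 ≤ n) (a : Fin n → ℕ) : ∃ j, ∑ i, a i ≤ n * a j := by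
  by_contra h
  push Not at h
  have h1 : ∑ j : Fin n, n * a j < ∑ _j : Fin n, ∑ i, a i := by
    apply Finset.sum_lt_sum_of_nonempty
    · exact Finset.univ_nonempty_iff.mpr ⟨⟨0, by omega⟩⟩
    · intro j _
      exact h j
  rw [← Finset.mul_sum] at h1
  simp at h1

omit [CompleteSpace C] [NormedAlgebra ℚ_[p] C] [NumberField K] in
lemma ell_sum_zero (φ : K →+* C) (x : Fin g → Fin n → 𝓞 K) (y : Fin n → Fin n → C)
    (hy : ∀ j σ, ‖y j σ‖ ≤ 1) {ι : Type} [Fintype ι] (c : ι → C) (κ : ι → Fin g → ℕ)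
    (a : Fin n → ℕ)
    (hM : ∀ b : Fin n → ℕ, ∑ j, b j = ∑ j, a j → ∑ k, c k * ∏ σ, φ (kap x (κ k) σ : K) ^ b σ = 0) :
    ∑ k, c k * ∏ l, ell φ x y (κ k) l ^ a l = 0 := by
  have h := conv c (fun k σ => φ (kap x (κ k) σ : K)) (fun k l => ell φ x y (κ k) l) y
    (fun k σ => rfl) (B := 1) zero_le_one hy a (M := 0) le_rfl
    (fun b hb => by rw [hM b hb, norm_zero])
  rw [mul_zero, norm_le_zero_iff] at h
  exact h

/-- The analytic upper bound. -/
lemma upper (hS : StSchwarz) (φ : K →+* C) (x : Fin g → Fin n → 𝓞 K) (y : Fin n → Fin n → C)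
    (hn : 1 ≤ n) (hy : ∀ j σ, ‖y j σ‖ ≤ ‖(p : C) ^ 2‖) (A : Fin g → Fin n → K)
    (hA : ∀ j j', φ (A j j') = ex (∑ σ, φ (x j σ : K) * y j' σ))
    {D : ℕ} (ξ : (Fin g → Fin D) → 𝓞 K) (S t : ℕ) (hS2 : 2 ≤ S)
    (hV : ∀ s : Fin n → ℕ, (∀ j, s j < S) → ∀ τ : Fin n → ℕ, ∑ j, τ j < t →
      ∑ k, (φ (ξ k : K) * φ (apow A (fun i => (k i : ℕ)) s)) *
        ∏ σ, φ (kap x (fun i => (k i : ℕ)) σ : K) ^ τ σ = 0)
    (s : Fin n → ℕ) (hs : ∀ j, s j < S) (a : Fin n → ℕ) (ha : ∑ j, a j = t) :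
    ‖∑ k, (φ (ξ k : K) * φ (apow A (fun i => (k i : ℕ)) s)) *
        ∏ j, ell φ x y (fun i => (k i : ℕ)) j ^ a j‖ ^ n ≤ (4 * (1 / 2 : ℝ) ^ S) ^ t := by
  classical
  have hchar : CharZero C := charZero_of_injective_algebraMap (algebraMap ℚ_[p] C).injective
  have hp2 : ‖(p : C) ^ 2‖ ≤ 1 / 4 := by
    have h1 : ‖(p : C)‖ = (p : ℝ)⁻¹ := by
      have h2 : ‖algebraMap ℚ_[p] C (p : ℚ_[p])‖ = ‖(p : ℚ_[p])‖ := norm_algebraMap' C _
      rw [map_natCast] at h2
      rw [h2, Padic.norm_p]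
    rw [norm_pow, h1, inv_pow]
    have h2 : (2 : ℝ) ≤ p := by exact_mod_cast hp.out.two_le
    rw [inv_le_comm₀ (by positivity) (by norm_num)]
    nlinarith
  have hp0 : (p : C) ^ 2 ≠ 0 := pow_ne_zero _ (by exact_mod_cast hp.out.ne_zero)
  set ϖ : C := (p : C) ^ 2 with hϖdef
  have hy4 : ∀ j σ, ‖y j σ‖ ≤ 1 / 4 := fun j σ => (hy j σ).trans hp2
  have hell : ∀ k : Fin g → ℕ, ∀ j, ‖ell φ x y k j‖ ≤ ‖ϖ‖ :=
    fun k j => norm_ell_le φ x y (norm_nonneg _) hy k j
  have hell1 : ∀ k : Fin g → ℕ, ∀ j, ‖ell φ x y k j‖ ≤ 1 := fun k j =>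
    (hell k j).trans (hp2.trans (by norm_num))
  obtain ⟨j, hj⟩ := exists_large hn a
  rw [ha] at hj
  set s₀ : Fin n → ℕ := Function.update s j 0 with hs₀
  let c : (Fin g → Fin D) → C := fun k => φ (ξ k : K) * φ (apow A (fun i => (k i : ℕ)) s₀) *
    ∏ i ∈ Finset.univ.erase j, ell φ x y (fun i => (k i : ℕ)) i ^ a i
  let w : (Fin g → Fin D) → C := fun k => ell φ x y (fun i => (k i : ℕ)) j / ϖ
  have hw : ∀ k, ‖w k‖ ≤ 1 := by
    intro k
    simp only [w]
    rw [norm_div, div_le_one (norm_pos_iff.mpr hp0)]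
    exact hell _ _
  have hφa : ∀ (k : Fin g → ℕ) (s : Fin n → ℕ), ‖φ (apow A k s)‖ ≤ 1 := by
    intro k s
    rw [phi_apow (p := p) φ x y hy4 A hA]
    apply norm_ex_le (p := p)
    apply IsUltrametricDist.norm_sum_le_of_forall_le_of_nonneg (by norm_num)
    intro j _
    exact norm_nat_mul_le ((hell k j).trans hp2) _
  have hc : ∀ k, ‖c k‖ ≤ 1 := by
    intro k
    simp only [c]
    rw [norm_mul, norm_mul, norm_prod]
    have h1 : ∏ i ∈ Finset.univ.erase j, ‖ell φ x y (fun i => (k i : ℕ)) i ^ a i‖ ≤ 1 := by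
      apply Finset.prod_le_one (fun _ _ => norm_nonneg _)
      intro i _
      rw [norm_pow]
      exact pow_le_one₀ (norm_nonneg _) (hell1 _ _)
    calc ‖φ (ξ k : K)‖ * ‖φ (apow A (fun i => (k i : ℕ)) s₀)‖ *
          ∏ i ∈ Finset.univ.erase j, ‖ell φ x y (fun i => (k i : ℕ)) i ^ a i‖ ≤ 1 * 1 * 1 := by
          gcongr
          · exact norm_phi_le_one' φ _
          · exact hφa _ _
      _ = 1 := by norm_num
  -- values on the line
  have hline : ∀ (k : Fin g → ℕ) (i : ℕ), φ (apow A k s₀) * ex (ell φ x y k j / ϖ * ((i : C) * ϖ)) =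
      φ (apow A k (Function.update s j i)) := by
    intro k i
    have h1 : ell φ x y k j / ϖ * ((i : C) * ϖ) = (i : C) * ell φ x y k j := by
      field_simp
    rw [h1, phi_apow (p := p) φ x y hy4 A hA, phi_apow (p := p) φ x y hy4 A hA,
      ← ex_add (p := p)]
    · congr 1
      rw [← Finset.add_sum_erase Finset.univ _ (Finset.mem_univ j),
        ← Finset.add_sum_erase Finset.univ (fun j' => ((Function.update s j i j' : ℕ) : C) *
          ell φ x y k j') (Finset.mem_univ j)]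
      have h2 : ∑ x_1 ∈ Finset.univ.erase j, ((s₀ x_1 : ℕ) : C) * ell φ x y k x_1 =
          ∑ x_1 ∈ Finset.univ.erase j, ((Function.update s j i x_1 : ℕ) : C) * ell φ x y k x_1 := by
        apply Finset.sum_congr rfl
        intro l hl
        rw [hs₀, Function.update_of_ne (Finset.ne_of_mem_erase hl),
          Function.update_of_ne (Finset.ne_of_mem_erase hl)]
      rw [h2, hs₀]
      simp only [Function.update_self, Nat.cast_zero, zero_mul, zero_add]
      ring
    · apply IsUltrametricDist.norm_sum_le_of_forall_le_of_nonneg (by norm_num)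
      intro l _
      exact norm_nat_mul_le ((hell k l).trans hp2) _
    · exact norm_nat_mul_le ((hell k j).trans hp2) _
  have hprodu : ∀ (k : Fin g → ℕ) (b : ℕ), (∏ i ∈ Finset.univ.erase j, ell φ x y k i ^ a i) *
      ell φ x y k j ^ b = ∏ i, ell φ x y k i ^ (Function.update a j b i) := by
    intro k b
    rw [← Finset.mul_prod_erase Finset.univ (fun i => ell φ x y k i ^ (Function.update a j b i))
      (Finset.mem_univ j)]
    have h2 : ∏ i ∈ Finset.univ.erase j, ell φ x y k i ^ (Function.update a j b i) =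
        ∏ i ∈ Finset.univ.erase j, ell φ x y k i ^ a i := by
      apply Finset.prod_congr rfl
      intro l hl
      rw [Function.update_of_ne (Finset.ne_of_mem_erase hl)]
    rw [h2, Function.update_self]
    ring
  have hsum : ∀ (i b : ℕ), ∑ k, c k * (w k) ^ b * ex (w k * ((i : C) * ϖ)) =
      (∑ k : Fin g → Fin D, (φ (ξ k : K) * φ (apow A (fun i => (k i : ℕ)) (Function.update s j i))) *
        ∏ l, ell φ x y (fun i => (k i : ℕ)) l ^ (Function.update a j b l)) / ϖ ^ b := by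
    intro i b
    rw [Finset.sum_div]
    apply Finset.sum_congr rfl
    intro k _
    rw [← hline, ← hprodu]
    simp only [c, w]
    rw [div_pow]
    ring
  -- vanishing
  have hzero : ∀ i < S, ∀ b < a j, ∑ k, c k * (w k) ^ b * ex (w k * ((i : C) * ϖ)) = 0 := by
    intro i hi b hb
    rw [hsum]
    have h1 : ∑ k : Fin g → Fin D, (φ (ξ k : K) * φ (apow A (fun i => (k i : ℕ)) (Function.update s j i))) *
        ∏ l, ell φ x y (fun i => (k i : ℕ)) l ^ (Function.update a j b l) = 0 := by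
      apply ell_sum_zero φ x y (fun j σ => (hy4 j σ).trans (by norm_num))
        (fun k : Fin g → Fin D => φ (ξ k : K) * φ (apow A (fun i => (k i : ℕ)) (Function.update s j i)))
        (fun k i => (k i : ℕ)) (Function.update a j b)
      intro b' hb'
      have h2 : ∑ l, Function.update a j b l < t := by
        have h3 := Finset.add_sum_erase Finset.univ a (Finset.mem_univ j)
        have h4 := Finset.add_sum_erase Finset.univ (Function.update a j b) (Finset.mem_univ j)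
        have h5 : ∑ i ∈ Finset.univ.erase j, Function.update a j b i =
            ∑ i ∈ Finset.univ.erase j, a i := by
          apply Finset.sum_congr rfl
          intro i hi
          rw [Function.update_of_ne (Finset.ne_of_mem_erase hi)]
        rw [h5, Function.update_self] at h4
        omega
      have h6 : ∀ l, Function.update s j i l < S := by
        intro l
        by_cases hl : l = j
        · subst hl
          rwa [Function.update_self]
        · rw [Function.update_of_ne hl]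
          exact hs l
      exact hV _ h6 b' (by omega)
    rw [h1, zero_div]
  have hfin := extrap (p := p) hS c w hc hw hp2 hp0 S (a j) hzero (s j)
  rw [hsum, Function.update_eq_self, Function.update_eq_self, norm_div, norm_pow] at hfin
  have h7 : ‖∑ k, (φ (ξ k : K) * φ (apow A (fun i => (k i : ℕ)) s)) *
        ∏ j, ell φ x y (fun i => (k i : ℕ)) j ^ a j‖ ≤ (4 * (1 / 2 : ℝ) ^ S) ^ (a j) := by
    rw [div_le_iff₀ (pow_pos (norm_pos_iff.mpr hp0) _)] at hfin
    refine hfin.trans ?_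
    have h8 : ‖ϖ‖ ^ (a j) ≤ 1 := pow_le_one₀ (norm_nonneg _) (hp2.trans (by norm_num))
    calc (4 : ℝ) ^ (a j) * (1 / 2) ^ (S * a j) * ‖ϖ‖ ^ (a j) ≤
          (4 : ℝ) ^ (a j) * (1 / 2) ^ (S * a j) * 1 := by gcongr
      _ = (4 * (1 / 2 : ℝ) ^ S) ^ (a j) := by rw [mul_one, mul_pow, ← pow_mul]
  have hq0 : (0 : ℝ) ≤ 4 * (1 / 2 : ℝ) ^ S := by positivity
  have hq1 : 4 * (1 / 2 : ℝ) ^ S ≤ 1 := by
    have h9 : (1 / 2 : ℝ) ^ S ≤ (1 / 2) ^ 2 :=
      pow_le_pow_of_le_one (by norm_num) (by norm_num) hS2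
    nlinarith
  calc ‖∑ k, (φ (ξ k : K) * φ (apow A (fun i => (k i : ℕ)) s)) *
        ∏ j, ell φ x y (fun i => (k i : ℕ)) j ^ a j‖ ^ n ≤ ((4 * (1 / 2 : ℝ) ^ S) ^ (a j)) ^ n := by
        gcongr
    _ = (4 * (1 / 2 : ℝ) ^ S) ^ (n * a j) := by rw [← pow_mul, Nat.mul_comm (a j) n]
    _ ≤ (4 * (1 / 2 : ℝ) ^ S) ^ t := pow_le_pow_of_le_one hq0 hq1 hj

end Pool.Agent.Lib.MP_c50dba_nt.Gen
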