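import Pool.Agent.Lib.MP_c50dba_nt.Gen.Spec
import Pool.Agent.Lib.MP_c50dba_nt.SixExpLog
import Pool.Agent.Lib.MP_c50dba_nt.DetBound

set_option autoImplicit false

/-!
The p-adic theorem of Baker and Brumer from the Schneider-Lang theorem.
-/

namespace Pool.Agent.Lib.MP_c50dba_nt.Gen

open scoped BigOperators
open NumberField Module
open Pool.Agent.Lib.MP_c50dba_nt

variable {p : ℕ} [hp : Fact p.Prime]

lemma ex_int_mul {C : Type*} [NormedField C] [CompleteSpace C] [IsUltrametricDist C]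
    [NormedAlgebra ℚ_[p] C] {a : C} (ha : ‖a‖ ≤ 1 / 4) (t : ℤ) : ex ((t : C) * a) = ex a ^ t := by
  have hnat : ∀ n : ℕ, ‖(n : C) * a‖ ≤ 1 / 4 := by
    intro n
    rw [norm_mul]
    calc ‖(n : C)‖ * ‖a‖ ≤ 1 * (1 / 4) := by
          gcongr
          exact IsUltrametricDist.norm_natCast_le_one _ n
      _ = 1 / 4 := one_mul _
  have hpos : ∀ n : ℕ, ex ((n : C) * a) = ex a ^ n := by
    intro n
    induction n with
    | zero => simp [ex_zero]
    | succ n ih =>
      have h1 : ((n + 1 : ℕ) : C) * a = n * a + a := by push_cast; ring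
      rw [h1, ex_add (p := p) (hnat n) ha, ih, pow_succ]
  cases t with
  | ofNat n => simpa using hpos n
  | negSucc n =>
    rw [zpow_negSucc]
    have h2 : (Int.negSucc n : C) * a = -(((n + 1 : ℕ) : C) * a) := by
      rw [Int.cast_negSucc]
      ring
    have h3 : ex (-(((n + 1 : ℕ) : C) * a)) * ex (((n + 1 : ℕ) : C) * a) = 1 := by
      rw [← ex_add (p := p) (by rw [norm_neg]; exact hnat _) (hnat _), neg_add_cancel, ex_zero]
    rw [h2, eq_inv_of_mul_eq_one_left h3, hpos]

/-- Conjugates of an independent family are independent: some minor does not vanish. -/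
lemma exists_conj_minor (K : Type) [Field K] [NumberField K] {g n : ℕ}
    (ω : Fin g → K) (ωQ : Basis (Fin g) ℚ K) (hω : ∀ j, ωQ j = ω j)
    (s : Fin n → (K ≃ₐ[ℚ] K)) (hs : Function.Injective s) :
    ∃ c : Fin n → Fin g, (Matrix.of fun σ j' : Fin n => s σ (ω (c j'))).det ≠ 0 := by
  classical
  let M : Matrix (Fin n) (Fin g) K := Matrix.of fun σ j => s σ (ω j)
  have hM : LinearIndependent K (fun i => M i) := by
    have hli : LinearIndependent K (fun σ : Fin n => ((s σ : K →ₐ[ℚ] K)).toLinearMap) := by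
      apply (linearIndependent_toLinearMap ℚ K K).comp (fun σ : Fin n => (s σ : K →ₐ[ℚ] K))
      intro a b hab
      apply hs
      ext x
      exact DFunLike.congr_fun hab x
    rw [Fintype.linearIndependent_iff] at hli ⊢
    intro c hc
    apply hli c
    apply ωQ.ext
    intro j
    have h1 := congrFun hc j
    simp only [Finset.sum_apply, Pi.smul_apply, smul_eq_mul, M, Matrix.of_apply,
      Pi.zero_apply] at h1
    rw [hω]
    simpa using h1
  obtain ⟨c, -, hc⟩ := exists_minor_ne_zero M hM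
  exact ⟨c, hc⟩

/-- The theorem over a Galois number field, for small logarithms. -/
theorem baker_galois (h : StCore) (C : Type) [NormedField C] [CompleteSpace C]
    [IsUltrametricDist C] [NormedAlgebra ℚ_[p] C] (K : Type) [Field K] [NumberField K]
    [IsGalois ℚ K] (φ : K →+* C) (m : ℕ) (lam : Fin m → C) (hp4 : ‖(p : C) ^ 2‖ ≤ 1 / 4)
    (hlam : ∀ i, ‖lam i‖ ≤ ‖(p : C) ^ 2‖) (hind : ∀ q : Fin m → ℚ, ∑ i, (q i : C) * lam i = 0 → q = 0)
    (a : Fin m → K) (ha : ∀ i, φ (a i) = ex (lam i)) (β : Fin m → 𝓞 K)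
    (hβ0 : ∑ i, φ (β i : K) * lam i = 0) : β = 0 := by
  classical
  by_contra hβ
  have : CharZero C := charZero_of_injective_algebraMap (algebraMap ℚ_[p] C).injective
  set μ : (K ≃ₐ[ℚ] K) → C := fun σ => ∑ i, φ (σ (β i : K)) * lam i with hμ
  have hμ1 : μ 1 = 0 := by simpa [hμ] using hβ0
  -- integrality of conjugates
  have hconj : ∀ (σ : K ≃ₐ[ℚ] K) (w : 𝓞 K), ∃ w' : 𝓞 K, (w' : K) = σ (w : K) := by
    intro σ w
    exact ⟨⟨σ (w : K), (w.isIntegral_coe).map (σ.toRingEquiv.toRingHom.toIntAlgHom)⟩, rfl⟩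
  have hnorm : ∀ (σ : K ≃ₐ[ℚ] K) (w : 𝓞 K), ‖φ (σ (w : K))‖ ≤ 1 := by
    intro σ w
    obtain ⟨w', hw'⟩ := hconj σ w
    rw [← hw']
    exact norm_phi_le_one φ w'
  have hμn : ∀ σ, ‖μ σ‖ ≤ ‖(p : C) ^ 2‖ := by
    intro σ
    apply IsUltrametricDist.norm_sum_le_of_forall_le_of_nonneg (norm_nonneg _)
    intro i _
    rw [norm_mul]
    calc ‖φ (σ (β i : K))‖ * ‖lam i‖ ≤ 1 * ‖(p : C) ^ 2‖ := by
          gcongr
          · exact hnorm σ (β i)
          · exact hlam i
      _ = _ := one_mul _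
  -- traces
  have htr : ∀ (w : K), ∑ i, φ (algebraMap ℚ K (Algebra.trace ℚ K (w * (β i : K)))) * lam i =
      ∑ σ : K ≃ₐ[ℚ] K, φ (σ w) * μ σ := by
    intro w
    simp only [hμ, Finset.mul_sum]
    rw [Finset.sum_comm]
    apply Finset.sum_congr rfl
    intro i _
    rw [trace_eq_sum_automorphisms, map_sum, Finset.sum_mul]
    apply Finset.sum_congr rfl
    intro σ _
    rw [map_mul, map_mul]
    ring
  let Sg : Finset (K ≃ₐ[ℚ] K) := Finset.univ.filter fun σ => μ σ ≠ 0
  have hne : Sg.Nonempty := by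
    by_contra hemp
    rw [Finset.not_nonempty_iff_eq_empty] at hemp
    have hz : ∀ σ, μ σ = 0 := by
      intro σ
      by_contra hσ
      have : σ ∈ Sg := by simp [Sg, hσ]
      rw [hemp] at this
      simp at this
    apply hβ
    funext i
    have hall : ∀ w : K, Algebra.trace ℚ K (w * (β i : K)) = 0 := by
      intro w
      have h1 := (htr w).trans (Finset.sum_eq_zero fun σ _ => by rw [hz σ, mul_zero])
      have h2 : ∑ i, ((Algebra.trace ℚ K (w * (β i : K)) : ℚ) : C) * lam i = 0 := by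
        rw [← h1]
        apply Finset.sum_congr rfl
        intro i _
        rw [eq_ratCast, map_ratCast]
      exact congrFun (hind _ h2) i
    have h3 := (traceForm_nondegenerate ℚ K).1 (β i : K) (fun w => by
      rw [Algebra.traceForm_apply, mul_comm]
      exact hall w)
    exact RingOfIntegers.ext (by simpa using h3)
  -- numbering of the conjugates
  set n := Sg.card with hn
  have hn1 : 1 ≤ n := Finset.card_pos.2 hne
  let s : Fin n ≃ Sg := (Finset.equivFin Sg).symm
  have hsinj : Function.Injective (fun j : Fin n => (s j : K ≃ₐ[ℚ] K)) :=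
    fun a b hab => s.injective (Subtype.ext hab)
  let g := Fintype.card (Free.ChooseBasisIndex ℤ (𝓞 K))
  let e := Fintype.equivFin (Free.ChooseBasisIndex ℤ (𝓞 K))
  let ωZ : Basis (Fin g) ℤ (𝓞 K) := (RingOfIntegers.basis K).reindex e
  let ωQ : Basis (Fin g) ℚ K := (integralBasis K).reindex e
  have hωQ : ∀ j, ωQ j = (ωZ j : K) := by
    intro j
    simp only [ωQ, ωZ, Basis.reindex_apply, integralBasis_apply]
  have hg : g = Fintype.card (K ≃ₐ[ℚ] K) := by
    rw [← Nat.card_eq_fintype_card, IsGalois.card_aut_eq_finrank, Module.finrank_eq_card_basis ωQ,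
      Fintype.card_fin]
  have hng : n < g := by
    rw [hg]
    apply Finset.card_lt_univ_of_notMem (x := 1)
    simp [Sg, hμ1]
  obtain ⟨c, hc⟩ := exists_conj_minor K (fun j => (ωZ j : K)) ωQ hωQ (fun j => (s j : K ≃ₐ[ℚ] K)) hsinj
  choose cj hcj using hconj
  have hs0 : ∀ σ : Fin n, μ (s σ) ≠ 0 := by
    intro σ
    exact (Finset.mem_filter.1 (s σ).2).2
  refine h p C K φ n g hn1 hng (fun j σ => cj (s σ) (ωZ j)) ?_
    (fun j' σ => φ ((s σ : K ≃ₐ[ℚ] K) (ωZ (c j') : K)) * μ (s σ)) ?_ ?_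
    (fun j j' => ∏ i, a i ^ (Algebra.trace ℤ (𝓞 K) (ωZ j * ωZ (c j') * β i))) ?_
  · intro k k' hkk
    have h1 := hkk ⟨0, hn1⟩
    set σ₀ : K ≃ₐ[ℚ] K := (s ⟨0, hn1⟩).1 with hσ₀
    have h2 : σ₀ (∑ j, (k j : K) * (ωZ j : K)) = σ₀ (∑ j, (k' j : K) * (ωZ j : K)) := by
      have h3 := congrArg (fun w : 𝓞 K => (w : K)) h1
      simp only [map_sum, map_mul, map_natCast, hcj] at h3
      simpa [map_sum, map_mul] using h3
    have h4 := σ₀.injective h2
    have h5 : ∑ j, ((k j : ℤ) - (k' j : ℤ)) • ωZ j = 0 := by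
      apply RingOfIntegers.ext
      simp only [map_sum, zsmul_eq_mul, map_mul, map_intCast, map_zero]
      have h6 : ∑ j, (k j : K) * (ωZ j : K) - ∑ j, (k' j : K) * (ωZ j : K) = 0 := sub_eq_zero.2 h4
      rw [← Finset.sum_sub_distrib] at h6
      rw [← h6]
      apply Finset.sum_congr rfl
      intro j _
      push_cast
      ring
    have h7 := Fintype.linearIndependent_iff.1 ωZ.linearIndependent _ h5
    funext j
    have := h7 j
    omega
  · intro j' σ
    rw [norm_mul]
    calc ‖φ ((s σ : K ≃ₐ[ℚ] K) (ωZ (c j') : K))‖ * ‖μ (s σ)‖ ≤ 1 * ‖(p : C) ^ 2‖ := by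
          gcongr
          · exact hnorm _ _
          · exact hμn _
      _ = _ := one_mul _
  · have h1 : (Matrix.of fun (j' σ : Fin n) => φ ((s σ : K ≃ₐ[ℚ] K) (ωZ (c j') : K)) * μ (s σ)) =
        ((Matrix.of fun σ j' : Fin n => (s σ : K ≃ₐ[ℚ] K) (ωZ (c j') : K)).transpose.map φ) *
          Matrix.diagonal (fun σ : Fin n => μ (s σ)) := by
      ext j' σ
      rw [Matrix.mul_diagonal]
      rfl
    rw [h1, Matrix.det_mul, Matrix.det_diagonal]
    refine mul_ne_zero ?_ (Finset.prod_ne_zero_iff.2 fun σ _ => hs0 σ)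
    have h2 := RingHom.map_det φ (Matrix.of fun σ j' : Fin n => (s σ : K ≃ₐ[ℚ] K) (ωZ (c j') : K)).transpose
    rw [RingHom.mapMatrix_apply] at h2
    rw [← h2, Matrix.det_transpose]
    exact fun h3 => hc (φ.injective (by rw [h3, map_zero]))
  · intro j j'
    have h1 : φ (∏ i, a i ^ (Algebra.trace ℤ (𝓞 K) (ωZ j * ωZ (c j') * β i))) =
        ex (∑ i, ((Algebra.trace ℤ (𝓞 K) (ωZ j * ωZ (c j') * β i) : ℤ) : C) * lam i) := by
      rw [ex_sum (p := p), map_prod]
      · apply Finset.prod_congr rfl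
        intro i _
        rw [map_zpow₀, ha, ex_int_mul (p := p) ((hlam i).trans hp4)]
      · intro i _
        rw [norm_mul]
        calc ‖((Algebra.trace ℤ (𝓞 K) (ωZ j * ωZ (c j') * β i) : ℤ) : C)‖ * ‖lam i‖ ≤ 1 * (1 / 4) := by
              gcongr
              · exact IsUltrametricDist.norm_intCast_le_one _ _
              · exact (hlam i).trans hp4
          _ = 1 / 4 := one_mul _
    rw [h1]
    congr 1
    have h2 := htr ((ωZ j : K) * (ωZ (c j') : K))
    have h3 : ∑ i, ((Algebra.trace ℤ (𝓞 K) (ωZ j * ωZ (c j') * β i) : ℤ) : C) * lam i =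
        ∑ i, φ (algebraMap ℚ K (Algebra.trace ℚ K ((ωZ j : K) * (ωZ (c j') : K) * (β i : K)))) *
          lam i := by
      apply Finset.sum_congr rfl
      intro i _
      have h4 := Algebra.coe_trace_int (K := K) (ωZ j * ωZ (c j') * β i)
      have h5 : ((ωZ j * ωZ (c j') * β i : 𝓞 K) : K) = (ωZ j : K) * (ωZ (c j') : K) * (β i : K) := by
        push_cast
        rfl
      rw [h5] at h4
      rw [← h4, eq_ratCast, map_ratCast]
      push_cast
      rfl
    rw [h3, h2]
    have h6 : ∑ σ : K ≃ₐ[ℚ] K, φ (σ ((ωZ j : K) * (ωZ (c j') : K))) * μ σ =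
        ∑ σ ∈ Sg, φ (σ ((ωZ j : K) * (ωZ (c j') : K))) * μ σ := by
      symm
      apply Finset.sum_subset (Finset.subset_univ _)
      intro σ _ hσ
      have : μ σ = 0 := by
        by_contra h7
        exact hσ (by simp [Sg, h7])
      rw [this, mul_zero]
    rw [h6, ← Finset.sum_coe_sort, ← s.sum_comp]
    apply Finset.sum_congr rfl
    intro σ _
    rw [hcj, map_mul, map_mul]
    ring

/-- Finitely many algebraic numbers belong to a Galois number field. -/
lemma exists_galois_field {ι : Type} [Finite ι] (a : ι → PadicAlgCl p)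
    (ha : ∀ i, IsAlgebraic ℚ (a i)) :
    ∃ K : IntermediateField ℚ (PadicAlgCl p), FiniteDimensional ℚ K ∧ IsGalois ℚ K ∧
      ∀ i, a i ∈ K := by
  classical
  cases nonempty_fintype ι
  let P : Polynomial ℚ := ∏ i, minpoly ℚ (a i)
  have hP0 : P ≠ 0 := Finset.prod_ne_zero_iff.2 fun i _ => minpoly.ne_zero (ha i).isIntegral
  have hsp : P.IsSplittingField ℚ (IntermediateField.adjoin ℚ (P.rootSet (PadicAlgCl p))) :=
    IntermediateField.adjoin_rootSet_isSplittingField (IsAlgClosed.splits _)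
  refine ⟨IntermediateField.adjoin ℚ (P.rootSet (PadicAlgCl p)), ?_, ?_, ?_⟩
  · exact Polynomial.IsSplittingField.finiteDimensional _ P
  · have : FiniteDimensional ℚ (IntermediateField.adjoin ℚ (P.rootSet (PadicAlgCl p))) :=
      Polynomial.IsSplittingField.finiteDimensional _ P
    have hn : Normal ℚ (IntermediateField.adjoin ℚ (P.rootSet (PadicAlgCl p))) :=
      Normal.of_isSplittingField P
    exact isGalois_iff.2 ⟨inferInstance, hn⟩
  · intro i
    apply IntermediateField.subset_adjoin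
    rw [Polynomial.mem_rootSet]
    refine ⟨hP0, ?_⟩
    rw [map_prod]
    exact Finset.prod_eq_zero (Finset.mem_univ i) (minpoly.aeval ℚ (a i))

theorem stBaker (h : StCore) : StBaker := by
  intro p hp L hL m α hα0 hαalg hind β hβalg hβ0
  classical
  obtain ⟨hmul, hLp, hser⟩ := hL
  have hpne : (p : PadicAlgCl p) ≠ 0 := by exact_mod_cast hp.out.ne_zero
  choose k mm hk hkm using fun i : Fin m => exists_pow_mul_near_one (hα0 i)
  set N := ∏ i, k i with hN
  have hN0 : N ≠ 0 := Finset.prod_ne_zero_iff.mpr (fun i _ => by have := hk i; omega)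
  have hdvd : ∀ i, ∃ r, N = k i * r := fun i => Finset.dvd_prod_of_mem k (Finset.mem_univ i)
  choose r hr using hdvd
  obtain ⟨e, he⟩ := exists_p_pow_small (p := p) ‖(p : PadicAlgCl p) ^ 2‖
    (norm_pos_iff.2 (pow_ne_zero _ hpne)) (fun i => L (α i))
  have hp4 : ‖(p : PadicAlgCl p) ^ 2‖ ≤ 1 / 4 := by
    rw [norm_pow, norm_p_eq]
    have h2 : (2 : ℝ) ≤ p := by exact_mod_cast hp.out.two_le
    have h3 : ((p : ℝ)⁻¹) ≤ 2⁻¹ := inv_anti₀ (by norm_num) h2
    calc ((p : ℝ)⁻¹) ^ 2 ≤ (2⁻¹) ^ 2 := by gcongr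
      _ = 1 / 4 := by norm_num
  -- the new algebraic numbers
  let γ : Fin m → PadicAlgCl p := fun i =>
    ((α i ^ (k i) * (p : PadicAlgCl p) ^ (mm i)) ^ (r i)) ^ (p ^ e)
  have hγ1 : ∀ i, ‖γ i - 1‖ ≤ 1 / 4 := fun i =>
    norm_pow_sub_one_le (norm_pow_sub_one_le (hkm i) _) _
  have hγL : ∀ i, L (γ i) = (N : PadicAlgCl p) * ((p : PadicAlgCl p) ^ e * L (α i)) := by
    intro i
    have h1 : α i ^ (k i) ≠ 0 := pow_ne_zero _ (hα0 _)
    have h2 : (p : PadicAlgCl p) ^ (mm i) ≠ 0 := zpow_ne_zero _ hpne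
    simp only [γ]
    rw [L_pow L hmul (pow_ne_zero _ (mul_ne_zero h1 h2)), L_pow L hmul (mul_ne_zero h1 h2),
      hmul _ _ h1 h2, L_pow L hmul (hα0 _), L_zpow L hmul hpne, hLp, hr i]
    push_cast
    ring
  have hγalg : ∀ i, IsAlgebraic ℚ (γ i) := by
    intro i
    have h1 : IsAlgebraic ℚ ((p : PadicAlgCl p) ^ (mm i)) := by
      have h2 : IsAlgebraic ℚ (p : PadicAlgCl p) := isAlgebraic_natCast p
      cases mm i with
      | ofNat n => simpa using h2.pow n
      | negSucc n =>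
        rw [zpow_negSucc]
        exact (h2.pow _).inv
    exact (((hαalg i).pow _).mul h1).pow _ |>.pow _
  -- the number field
  obtain ⟨K, hKfin, hKgal, hKmem⟩ := exists_galois_field (Sum.elim γ β) (by
    rintro (i | i)
    · exact hγalg i
    · exact hβalg i)
  have hKnf : NumberField K := { to_charZero := inferInstance, to_finiteDimensional := hKfin }
  let φ : K →+* PadicComplex p := (emb p).comp K.val.toRingHom
  let a : Fin m → K := fun i => ⟨γ i, hKmem (Sum.inl i)⟩
  let b : Fin m → K := fun i => ⟨β i, hKmem (Sum.inr i)⟩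
  obtain ⟨d, b', -, hd0, hb', -⟩ := exists_denominator K b
  have hlamn : ∀ i, ‖L (γ i)‖ ≤ ‖(p : PadicAlgCl p) ^ 2‖ := by
    intro i
    rw [hγL, norm_mul]
    calc ‖(N : PadicAlgCl p)‖ * ‖(p : PadicAlgCl p) ^ e * L (α i)‖
        ≤ 1 * ‖(p : PadicAlgCl p) ^ 2‖ := by
          gcongr
          · exact IsUltrametricDist.norm_natCast_le_one _ _
          · exact he i
      _ = _ := one_mul _
  have hpC : ‖(p : PadicComplex p) ^ 2‖ = ‖(p : PadicAlgCl p) ^ 2‖ := by
    rw [← emb_norm, map_pow, map_natCast]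
  have hc0 : (N : PadicAlgCl p) * (p : PadicAlgCl p) ^ e ≠ 0 :=
    mul_ne_zero (by exact_mod_cast hN0) (pow_ne_zero _ hpne)
  have key := baker_galois (p := p) h (PadicComplex p) K φ m (fun i => emb p (L (γ i)))
    (by rw [hpC]; exact hp4) (fun i => by rw [emb_norm, hpC]; exact hlamn i) ?_ a ?_ b' ?_
  · funext i
    have h1 : (b' i : K) = 0 := by rw [key]; rfl
    rw [hb'] at h1
    have h2 : b i = 0 := by
      rcases mul_eq_zero.1 h1 with h | h
      · exact absurd h (by exact_mod_cast hd0)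
      · exact h
    exact congrArg (fun w : K => (w : PadicAlgCl p)) h2
  · intro q hq
    have h1 : emb p (∑ i, (q i : PadicAlgCl p) * L (γ i)) = 0 := by
      rw [map_sum, ← hq]
      apply Finset.sum_congr rfl
      intro i _
      rw [map_mul, map_ratCast]
    have h2 : ∑ i, (q i : PadicAlgCl p) * L (γ i) = 0 := (emb p).injective (by rw [h1, map_zero])
    have h3 : ((N : PadicAlgCl p) * (p : PadicAlgCl p) ^ e) * ∑ i, q i • L (α i) = 0 := by
      rw [Finset.mul_sum, ← h2]
      apply Finset.sum_congr rfl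
      intro i _
      rw [hγL, Algebra.smul_def, eq_ratCast]
      ring
    have h4 := (mul_eq_zero.1 h3).resolve_left hc0
    funext i
    exact Fintype.linearIndependent_iff.1 hind q h4 i
  · intro i
    have h1 := ex_L L hmul hser (hγ1 i)
    have h2 : ‖L (γ i)‖ ≤ 1 / 4 := by rw [h1.2]; exact hγ1 _
    have h3 : φ (a i) = emb p (γ i) := rfl
    rw [h3, ← emb_ex h2, h1.1]
  · have h1 : ∀ i, φ (b' i : K) = emb p ((d : PadicAlgCl p) * β i) := by
      intro i
      rw [hb', map_mul, map_natCast, map_mul, map_natCast]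
      rfl
    have h2 : emb p (((d : PadicAlgCl p) * ((N : PadicAlgCl p) * (p : PadicAlgCl p) ^ e)) *
        ∑ i, β i * L (α i)) = ∑ i, φ (b' i : K) * emb p (L (γ i)) := by
      rw [Finset.mul_sum, map_sum]
      apply Finset.sum_congr rfl
      intro i _
      rw [h1, ← map_mul, hγL]
      congr 1
      ring
    rw [← h2, hβ0, mul_zero, map_zero]

end Pool.Agent.Lib.MP_c50dba_nt.Gen
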