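import Pool.Agent.Lib.MP_c50dba_nt.Gen.Spec

set_option autoImplicit false

/-!
The cube theorem.
-/

namespace Pool.Agent.Lib.MP_c50dba_nt.Gen

open MvPolynomial

section

variable {F M : Type} [Field F] [Fintype M] [DecidableEq M]

omit [DecidableEq M] in
theorem span_top_of (X : Set (M → F))
    (h : ∀ b : M → F, (∀ x ∈ X, ∑ m, b m * x m = 0) → b = 0) : Submodule.span F X = ⊤ := by
  classical
  by_contra hne
  obtain ⟨φ, hφ0, hφ⟩ := Submodule.exists_le_ker_of_lt_top _ (lt_top_iff_ne_top.2 hne)
  apply hφ0
  have hrep : ∀ x : M → F, φ x = ∑ m, φ (Pi.single m 1) * x m := by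
    intro x
    conv_lhs => rw [pi_eq_sum_univ' x]
    rw [map_sum]
    apply Finset.sum_congr rfl
    intro m _
    rw [map_smul, smul_eq_mul, mul_comm]
  have hb := h (fun m => φ (Pi.single m 1)) (by
    intro x hx
    rw [← hrep]
    exact LinearMap.mem_ker.1 (hφ (Submodule.subset_span hx)))
  ext x
  have := congrFun hb x
  simpa using this

theorem exists_det_ne_zero (X : Set (M → F)) (hX : Submodule.span F X = ⊤) :
    ∃ x : M → (M → F), (∀ l, x l ∈ X) ∧ (Matrix.of x).det ≠ 0 := by
  obtain ⟨b, hbX, hbs, hbi⟩ := exists_linearIndependent F X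
  have hspan : ⊤ ≤ Submodule.span F (Set.range ((↑) : b → (M → F))) := by
    rw [Subtype.range_coe, hbs, hX]
  let Bs := Module.Basis.mk hbi hspan
  have : Nonempty (b ≃ M) := by
    exact ⟨Bs.indexEquiv (Pi.basisFun F M)⟩
  obtain ⟨eb⟩ := this
  refine ⟨fun l => (eb.symm l : M → F), fun l => hbX (eb.symm l).2, ?_⟩
  have hli : LinearIndependent F (fun l => ((eb.symm l : b) : M → F)) :=
    hbi.comp _ eb.symm.injective
  have hu : IsUnit (Matrix.of fun l => ((eb.symm l : b) : M → F)) := by
    rw [← Matrix.linearIndependent_rows_iff_isUnit]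
    exact hli
  exact ((Matrix.isUnit_iff_isUnit_det _).1 hu).ne_zero

end

section

variable {F Ω : Type} [Field F] [Field Ω] [Algebra F Ω] {M : Type} [Fintype M] [DecidableEq M]

/-- The matrix of the values. -/
def vmat {A : Type} [CommRing A] [Algebra F A] (a : M → M → A) (w : M → (A →ₐ[F] F)) :
    Matrix M M F := Matrix.of fun l m => w l (a l m)

theorem det_update {A : Type} [CommRing A] [Algebra F A] (a : M → M → A) (w : M → (A →ₐ[F] F))
    (l : M) : ∃ c : A, ∀ v : A →ₐ[F] F, (vmat a (Function.update w l v)).det = v c := by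
  refine ⟨∑ j, ((vmat a w).updateRow l (Pi.single j 1)).det • a l j, ?_⟩
  intro v
  rw [Matrix.det_eq_sum_mul_adjugate_row _ l, map_sum]
  apply Finset.sum_congr rfl
  intro j _
  rw [map_smul, smul_eq_mul, mul_comm, Matrix.adjugate_apply]
  congr 1
  · congr 1
    ext r s
    by_cases hr : r = l
    · subst hr
      rw [Matrix.updateRow_self, Matrix.updateRow_self]
    · rw [Matrix.updateRow_ne hr, Matrix.updateRow_ne hr]
      unfold vmat
      rw [Matrix.of_apply, Matrix.of_apply, Function.update_of_ne hr]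
  · unfold vmat
    rw [Matrix.of_apply, Function.update_self]

end

theorem fin_pow_coeff {F : Type} [Field F] [CharZero F] {d : ℕ} (c : Fin (d + 1) → F)
    (h : ∀ y : F, ∑ i, c i * y ^ (i : ℕ) = 0) : c = 0 := by
  have hP : (∑ i : Fin (d + 1), Polynomial.C (c i) * Polynomial.X ^ (i : ℕ)) = 0 := by
    apply Polynomial.funext
    intro y
    rw [Polynomial.eval_finsetSum, Polynomial.eval_zero, ← h y]
    apply Finset.sum_congr rfl
    intro i _
    simp
  ext i
  have := congrArg (fun P => Polynomial.coeff P (i : ℕ)) hP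
  simp only [Polynomial.finsetSum_coeff, Polynomial.coeff_C_mul, Polynomial.coeff_X_pow,
    Polynomial.coeff_zero] at this
  rw [Finset.sum_eq_single i] at this
  · simpa using this
  · intro j _ hj
    have : (i : ℕ) ≠ (j : ℕ) := fun h => hj (Fin.ext h.symm)
    simp [this]
  · intro h
    exact absurd (Finset.mem_univ _) h

theorem stCube (h1 : StPoint) (h2 : StMulti) (h3 : StLin) : StCube := by
  intro F Ω _ _ _ _ _ ι _ _ f hf d B hB e he y₀
  classical
  -- the algebra
  let G : Finset Ω := Finset.univ.image f ∪ Finset.univ.image e ∪ {y₀}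
  let A : Subalgebra F Ω := Algebra.adjoin F (G : Set Ω)
  have : Algebra.FiniteType F A := by
    rw [← Subalgebra.fg_iff_finiteType]
    exact ⟨G, rfl⟩
  have hGA : ∀ x ∈ G, x ∈ A := fun x hx => Algebra.subset_adjoin hx
  let f' : ι → A := fun κ => ⟨f κ, hGA _ (by
    apply Finset.mem_union_left
    apply Finset.mem_union_left
    exact Finset.mem_image_of_mem _ (Finset.mem_univ _))⟩
  let e' : Fin B × (ι × Fin (d + 1)) → A := fun x => ⟨e x, hGA _ (by
    apply Finset.mem_union_left
    apply Finset.mem_union_right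
    exact Finset.mem_image_of_mem _ (Finset.mem_univ _))⟩
  let y' : A := ⟨y₀, hGA _ (by
    apply Finset.mem_union_right
    exact Finset.mem_singleton_self _)⟩
  have hf' : LinearIndependent F f' := by
    have : LinearIndependent F (A.val.toLinearMap ∘ f') := hf
    exact LinearIndependent.of_comp _ this
  have he' : LinearIndependent F e' := by
    have : LinearIndependent F (A.val.toLinearMap ∘ e') := he
    exact LinearIndependent.of_comp _ this
  have hpt : ∀ a : A, (∀ v : A →ₐ[F] F, v a = 0) → a = 0 := by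
    intro a ha
    by_contra hne
    obtain ⟨v, hv⟩ := h1 F A a hne
    exact hv (ha v)
  have hVne : Nonempty (A →ₐ[F] F) := by
    obtain ⟨v, _⟩ := h1 F A 1 one_ne_zero
    exact ⟨v⟩
  let M := ι × Fin (d + 1)
  -- Step 1
  have step1 : ∃ (w : M → (A →ₐ[F] F)) (Y : M → F),
      (Matrix.of fun l m : M => w l (f' m.1) * Y l ^ (m.2 : ℕ)).det ≠ 0 := by
    obtain ⟨x, hx, hdet⟩ := exists_det_ne_zero
      ({x : M → F | ∃ (v : A →ₐ[F] F) (y : F), x = fun m => v (f' m.1) * y ^ (m.2 : ℕ)})
      (span_top_of _ (by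
        intro b hb
        have h4 : ∀ (v : A →ₐ[F] F), (fun c : Fin (d + 1) => ∑ κ, b (κ, c) * v (f' κ)) = 0 := by
          intro v
          apply fin_pow_coeff
          intro y
          have := hb _ ⟨v, y, rfl⟩
          rw [Fintype.sum_prod_type, Finset.sum_comm] at this
          rw [← this]
          apply Finset.sum_congr rfl
          intro c _
          rw [Finset.sum_mul]
          apply Finset.sum_congr rfl
          intro κ _
          ring
        have h5 : ∀ c : Fin (d + 1), ∑ κ, b (κ, c) • f' κ = 0 := by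
          intro c
          apply hpt
          intro v
          have := congrFun (h4 v) c
          simp only [Pi.zero_apply] at this
          rw [map_sum, ← this]
          apply Finset.sum_congr rfl
          intro κ _
          rw [map_smul, smul_eq_mul]
        ext ⟨κ, c⟩
        exact Fintype.linearIndependent_iff.1 hf' (fun κ => b (κ, c)) (h5 c) κ))
    choose v y hvy using hx
    refine ⟨v, y, ?_⟩
    have : (Matrix.of fun l m : M => v l (f' m.1) * y l ^ (m.2 : ℕ)) = Matrix.of x := by
      ext l m
      rw [Matrix.of_apply, Matrix.of_apply, hvy l]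
    rw [this]
    exact hdet
  -- Step 2
  have step2 : ∀ b : Fin B, ∃ w : M → (A →ₐ[F] F),
      (Matrix.of fun l m : M => w l (e' (b, m))).det ≠ 0 := by
    intro b
    obtain ⟨x, hx, hdet⟩ := exists_det_ne_zero
      ({x : M → F | ∃ (v : A →ₐ[F] F), x = fun m => v (e' (b, m))})
      (span_top_of _ (by
        intro b' hb'
        have h5 : ∑ m, b' m • e' (b, m) = 0 := by
          apply hpt
          intro v
          have := hb' _ ⟨v, rfl⟩
          rw [map_sum, ← this]
          apply Finset.sum_congr rfl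
          intro m _
          rw [map_smul, smul_eq_mul]
        ext m
        exact Fintype.linearIndependent_iff.1
          (he'.comp (fun m : M => (b, m)) (fun m m' h => (Prod.mk.inj h).2)) b' h5 m))
    choose v hv using hx
    refine ⟨v, ?_⟩
    have : (Matrix.of fun l m : M => v l (e' (b, m))) = Matrix.of x := by
      ext l m
      rw [Matrix.of_apply, Matrix.of_apply, hv l]
    rw [this]
    exact hdet
  obtain ⟨w0, Y, hw0⟩ := step1
  choose wb hwb using step2
  -- Step 3
  let n := Fintype.card M
  let eM : M ≃ Fin n := Fintype.equivFin M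
  let a : Fin (B + 1) → M → M → A :=
    Fin.cons (fun l m => (Y l ^ (m.2 : ℕ)) • f' m.1) (fun b l m => e' (b, m))
  have ha0 : ∀ w : M → (A →ₐ[F] F), vmat (a 0) w =
      Matrix.of fun l m : M => w l (f' m.1) * Y l ^ (m.2 : ℕ) := by
    intro w
    ext l m
    show w l ((Y l ^ (m.2 : ℕ)) • f' m.1) = w l (f' m.1) * Y l ^ (m.2 : ℕ)
    rw [map_smul, smul_eq_mul, mul_comm]
  have hab : ∀ (b : Fin B) (w : M → (A →ₐ[F] F)), vmat (a b.succ) w =
      Matrix.of fun l m : M => w l (e' (b, m)) := by
    intro b w
    rfl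
  have step3 : ∃ w : Fin n → (A →ₐ[F] F), ∀ j : Fin (B + 1),
      (vmat (a j) (w ∘ eM)).det ≠ 0 := by
    refine h2 F (A →ₐ[F] F) (Set.range fun c : A => fun v : A →ₐ[F] F => v c) ?_ ?_ n (B + 1)
      (fun j w => (vmat (a j) (w ∘ eM)).det) ?_ ?_ hVne
    · rintro _ ⟨c, rfl⟩ _ ⟨c', rfl⟩
      exact ⟨c * c', by ext v; simp⟩
    · rintro _ ⟨c, rfl⟩ _ ⟨c', rfl⟩ hc hc'
      have hc0 : c ≠ 0 := by
        rintro rfl
        apply hc
        ext v
        simp
      have hc0' : c' ≠ 0 := by
        rintro rfl
        apply hc'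
        ext v
        simp
      obtain ⟨v, hv⟩ := h1 F A (c * c') (mul_ne_zero hc0 hc0')
      intro h
      have := congrFun h v
      simp only [Pi.mul_apply, Pi.zero_apply] at this
      rw [map_mul] at hv
      exact hv this
    · intro j w l
      obtain ⟨c, hc⟩ := det_update (a j) (w ∘ eM) (eM.symm l)
      refine ⟨c, ?_⟩
      ext v
      show v c = (vmat (a j) (Function.update w l v ∘ eM)).det
      rw [← hc v]
      congr 2
      ext r
      simp only [Function.comp]
      by_cases hr : r = eM.symm l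
      · subst hr
        simp
      · have hr2 : eM r ≠ l := by
          intro h
          apply hr
          rw [← h, Equiv.symm_apply_apply]
        rw [Function.update_of_ne hr, Function.update_of_ne hr2]
        rfl
    · intro j
      refine Fin.cases ?_ (fun b => ?_) j
      · refine ⟨w0 ∘ eM.symm, ?_⟩
        have : (w0 ∘ eM.symm) ∘ eM = w0 := by
          ext r
          simp
        show (vmat (a 0) ((w0 ∘ eM.symm) ∘ eM)).det ≠ 0
        rw [this, ha0]
        exact hw0
      · refine ⟨wb b ∘ eM.symm, ?_⟩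
        have : (wb b ∘ eM.symm) ∘ eM = wb b := by
          ext r
          simp
        show (vmat (a b.succ) ((wb b ∘ eM.symm) ∘ eM)).det ≠ 0
        rw [this, hab]
        exact hwb b
  obtain ⟨w1, hw1⟩ := step3
  let w : M → (A →ₐ[F] F) := w1 ∘ eM
  have hwY : (Matrix.of fun l m : M => w l (f' m.1) * Y l ^ (m.2 : ℕ)).det ≠ 0 := by
    rw [← ha0]
    exact hw1 0
  have hwE : ∀ b, (Matrix.of fun l m : M => w l (e' (b, m))).det ≠ 0 := by
    intro b
    rw [← hab]
    exact hw1 b.succ
  -- Step 4
  let D : MvPolynomial M F :=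
    (Matrix.of fun l m : M => (C (w l (f' m.1)) * X l ^ (m.2 : ℕ) : MvPolynomial M F)).det
  have hDev : ∀ Z : M → F, eval Z D =
      (Matrix.of fun l m : M => w l (f' m.1) * Z l ^ (m.2 : ℕ)).det := by
    intro Z
    show eval Z (Matrix.det _) = _
    rw [RingHom.map_det]
    congr 1
    ext l m
    simp
  have hD0 : D ≠ 0 := by
    intro h
    apply hwY
    rw [← hDev, h, map_zero]
  have hDdeg : D.totalDegree ≤ B := by
    refine le_trans ?_ hB
    show (Matrix.of fun l m : M =>
      (C (w l (f' m.1)) * X l ^ (m.2 : ℕ) : MvPolynomial M F)).det.totalDegree ≤ _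
    rw [Matrix.det_apply]
    refine totalDegree_finsetSum_le ?_
    intro σ _
    refine le_trans (totalDegree_smul_le _ _) ?_
    refine le_trans (totalDegree_finsetProd _ _) ?_
    have hcard : Fintype.card ι * (d + 1) = Fintype.card M := by
      show _ = Fintype.card (ι × Fin (d + 1))
      rw [Fintype.card_prod, Fintype.card_fin]
    rw [hcard]
    calc ∑ m : M, ((Matrix.of fun l m : M =>
          (C (w l (f' m.1)) * X l ^ (m.2 : ℕ) : MvPolynomial M F)) (σ m) m).totalDegree
        ≤ ∑ _m : M, d := by
          apply Finset.sum_le_sum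
          intro m _
          rw [Matrix.of_apply]
          refine le_trans (totalDegree_mul _ _) ?_
          rw [totalDegree_C, totalDegree_X_pow]
          have := m.2.2
          omega
      _ = d * Fintype.card M := by
          rw [Finset.sum_const, Finset.card_univ, smul_eq_mul, mul_comm]
  -- Step 5
  obtain ⟨i, S0, hS0⟩ := h3 F M M B D hD0 hDdeg (fun b m l => w l (e' (b, m))) (by
    intro b
    have hu : IsUnit (Matrix.of fun l m : M => w l (e' (b, m))) :=
      (Matrix.isUnit_iff_isUnit_det _).2 (isUnit_iff_ne_zero.2 (hwE b))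
    have hli := Matrix.linearIndependent_cols_iff_isUnit.2 hu
    have := hli.span_eq_top_of_card_eq_finrank' (by simp)
    exact this) (fun l => w l y')
  refine ⟨S0.map ⟨fun b => (b, i b), fun b b' h => (Prod.mk.inj h).1⟩, ?_⟩
  rw [Fintype.linearIndependent_iff]
  intro g hg
  -- Step 6
  let yS : A := y' + ∑ b ∈ S0, e' (b, i b)
  have hyS : (yS : Ω) = y₀ + ∑ x ∈ S0.map ⟨fun b => (b, i b), fun b b' h => (Prod.mk.inj h).1⟩, e x := by
    rw [Finset.sum_map]
    show A.val (y' + ∑ b ∈ S0, e' (b, i b)) = _
    rw [map_add, map_sum]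
    rfl
  rw [← hyS] at hg
  have hgA : ∑ m : M, g m • (f' m.1 * yS ^ (m.2 : ℕ)) = 0 := by
    apply Subtype.ext
    show A.val (∑ m : M, g m • (f' m.1 * yS ^ (m.2 : ℕ))) = 0
    rw [map_sum]
    exact hg
  have hmul : (Matrix.of fun l m : M => w l (f' m.1) * (w l yS) ^ (m.2 : ℕ)).mulVec g = 0 := by
    ext l
    rw [Matrix.mulVec, dotProduct]
    have := congrArg (w l) hgA
    rw [map_sum, map_zero] at this
    rw [Pi.zero_apply, ← this]
    apply Finset.sum_congr rfl
    intro m _
    rw [Matrix.of_apply, map_smul, map_mul, map_pow, smul_eq_mul, mul_comm]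
  have hdet : (Matrix.of fun l m : M => w l (f' m.1) * (w l yS) ^ (m.2 : ℕ)).det ≠ 0 := by
    rw [← hDev (fun l => w l yS)]
    have : (fun l => w l yS) = (fun l => w l y') + ∑ b ∈ S0, fun l => w l (e' (b, i b)) := by
      ext l
      show w l (y' + ∑ b ∈ S0, e' (b, i b)) = _
      rw [map_add, map_sum, Pi.add_apply, Finset.sum_apply]
    rw [this]
    exact hS0
  have := Matrix.eq_zero_of_mulVec_eq_zero hdet hmul
  intro m
  rw [this]
  rfl

end Pool.Agent.Lib.MP_c50dba_nt.Gen
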