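import Pool.Agent.Lib.MP_c50dba_nt.Gen.Spec

set_option autoImplicit false

/-!
G2: the bad integers have no multiplicative cubes.
-/

namespace Pool.Agent.Lib.MP_c50dba_nt.Gen

open scoped BigOperators
open Pool.Agent.Lib.MP_c50dba_nt

namespace G2

variable {p : ℕ} [Fact p.Prime] {L : PadicAlgCl p → PadicAlgCl p}

theorem L_one (hL : IsIwasawaLog p L) : L 1 = 0 := by
  have h := hL.1 1 1 one_ne_zero one_ne_zero
  rw [mul_one] at h
  simpa using h

theorem L_prod (hL : IsIwasawaLog p L) {ι : Type} (s : Finset ι) (a : ι → PadicAlgCl p)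
    (ha : ∀ i ∈ s, a i ≠ 0) : L (∏ i ∈ s, a i) = ∑ i ∈ s, L (a i) := by
  classical
  induction s using Finset.induction_on with
  | empty => simpa using L_one hL
  | insert i s hi ih =>
    rw [Finset.prod_insert hi, Finset.sum_insert hi, hL.1 _ _ (ha i (by simp)), ih]
    · intro j hj
      exact ha j (by simp [hj])
    · rw [Finset.prod_ne_zero_iff]
      intro j hj
      exact ha j (by simp [hj])

/-- The field of algebraic numbers. -/
abbrev AN (p : ℕ) [Fact p.Prime] : Type := algebraicClosure ℚ (PadicAlgCl p)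

theorem isAlgClosed_AN (p : ℕ) [Fact p.Prime] : IsAlgClosed (AN p) :=
  (algebraicClosure.isAlgClosure ℚ (PadicAlgCl p)).isAlgClosed

/-- Differences of logarithms of distinct primes are linearly independent. -/
theorem indep_diff (h2 : StBaker) (h3 : StPrimeLogs) (hL : IsIwasawaLog p L) (k : ℕ)
    (q q' : Fin k → ℕ) (hq : ∀ i, (q i).Prime ∧ (q' i).Prime ∧ q i ≠ p ∧ q' i ≠ p)
    (hinj : Function.Injective (Sum.elim q q')) :
    LinearIndependent (AN p)
      (fun i => L (q i : PadicAlgCl p) - L (q' i : PadicAlgCl p)) := by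
  set Q : Fin (k + k) → ℕ := fun j => Sum.elim q q' (finSumFinEquiv.symm j) with hQ
  have hQinj : Function.Injective Q := hinj.comp finSumFinEquiv.symm.injective
  have hQp : ∀ j, (Q j).Prime ∧ Q j ≠ p := by
    intro j
    obtain ⟨x, rfl⟩ := finSumFinEquiv.surjective j
    simp only [hQ, Equiv.symm_apply_apply]
    rcases x with i | i
    · exact ⟨(hq i).1, (hq i).2.2.1⟩
    · exact ⟨(hq i).2.1, (hq i).2.2.2⟩
  have hlin := h3 p L hL (k + k) Q hQp hQinj
  rw [Fintype.linearIndependent_iff]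
  intro g hg
  have hb := h2 p L hL (k + k) (fun j => (Q j : PadicAlgCl p))
    (fun j => Nat.cast_ne_zero.2 (hQp j).1.ne_zero)
    (fun j => isAlgebraic_natCast (Q j)) hlin
    (fun j => Sum.elim (fun i => (g i : PadicAlgCl p)) (fun i => -(g i : PadicAlgCl p))
      (finSumFinEquiv.symm j)) ?_ ?_
  · intro i
    have h := congrFun hb (finSumFinEquiv (Sum.inl i))
    simp only [Equiv.symm_apply_apply, Sum.elim_inl, Pi.zero_apply] at h
    exact_mod_cast h
  · intro j
    obtain ⟨x, rfl⟩ := finSumFinEquiv.surjective j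
    simp only [Equiv.symm_apply_apply]
    rcases x with i | i
    · exact mem_algebraicClosure_iff.1 (g i).2
    · exact (mem_algebraicClosure_iff.1 (g i).2).neg
  · rw [← Equiv.sum_comp finSumFinEquiv, Fintype.sum_sum_type]
    simp only [hQ, Equiv.symm_apply_apply, Sum.elim_inl, Sum.elim_inr]
    rw [← Finset.sum_add_distrib, ← hg]
    refine Finset.sum_congr rfl fun i _ => ?_
    rw [Algebra.smul_def]
    change _ = (g i : PadicAlgCl p) * _
    ring

end G2

open G2

theorem stCubeFree (h1 : StCube) (h2 : StBaker) (h3 : StPrimeLogs) : StCubeFree := by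
  intro p _ L hL d r
  classical
  set B : ℕ := d * (Fintype.card (Fin r → Fin (d + 1)) * (d + 1)) with hB
  set I := Fin B × ((Fin r → Fin (d + 1)) × Fin (d + 1)) with hI
  have en : I ≃ Fin (Fintype.card I) := Fintype.equivFin I
  refine ⟨Fintype.card I, ?_⟩
  intro t ht m q q' hm hq hinj
  have := isAlgClosed_AN p
  have hq0 : ∀ i, (q i : PadicAlgCl p) ≠ 0 := fun i => Nat.cast_ne_zero.2 (hq i).1.ne_zero
  have hq0' : ∀ i, (q' i : PadicAlgCl p) ≠ 0 := fun i => Nat.cast_ne_zero.2 (hq i).2.1.ne_zero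
  have hm0 : (m : PadicAlgCl p) ≠ 0 := Nat.cast_ne_zero.2 (by omega)
  have he : LinearIndependent (AN p)
      (fun x : I => L (q (en x) : PadicAlgCl p) - L (q' (en x) : PadicAlgCl p)) :=
    (indep_diff h2 h3 hL _ q q' hq hinj).comp en en.injective
  obtain ⟨S, hS⟩ := h1 (AN p) (PadicAlgCl p) (Fin r → Fin (d + 1))
    (fun κ => ∏ i, t i ^ (κ i : ℕ)) ht d B le_rfl
    (fun x : I => L (q (en x) : PadicAlgCl p) - L (q' (en x) : PadicAlgCl p)) he
    (L (m : PadicAlgCl p) + ∑ x, L (q' (en x) : PadicAlgCl p))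
  refine ⟨S.map en.toEmbedding, ?_⟩
  rw [Set.mem_ofPred_eq, not_not]
  have hy : L ((m * ∏ i, (if i ∈ S.map en.toEmbedding then q i else q' i) : ℕ) : PadicAlgCl p) =
      L (m : PadicAlgCl p) + ∑ x, L (q' (en x) : PadicAlgCl p) +
        ∑ x ∈ S, (L (q (en x) : PadicAlgCl p) - L (q' (en x) : PadicAlgCl p)) := by
    have hc : ((m * ∏ i, (if i ∈ S.map en.toEmbedding then q i else q' i) : ℕ) :
        PadicAlgCl p) = (m : PadicAlgCl p) *
        ∏ i, (if i ∈ S.map en.toEmbedding then (q i : PadicAlgCl p) else (q' i : PadicAlgCl p)) := by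
      push_cast
      rfl
    have hne : ∀ i ∈ (Finset.univ : Finset (Fin (Fintype.card I))),
        (if i ∈ S.map en.toEmbedding then (q i : PadicAlgCl p) else (q' i : PadicAlgCl p)) ≠ 0 := by
      intro i _
      split_ifs
      · exact hq0 i
      · exact hq0' i
    rw [hc, hL.1 _ _ hm0 (Finset.prod_ne_zero_iff.2 hne), L_prod hL _ _ hne,
      ← Equiv.sum_comp en, add_assoc]
    congr 1
    have h5 : ∀ x : I, L (if en x ∈ S.map en.toEmbedding then (q (en x) : PadicAlgCl p)
        else (q' (en x) : PadicAlgCl p)) =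
        L (q' (en x) : PadicAlgCl p) +
        (if x ∈ S then (L (q (en x) : PadicAlgCl p) - L (q' (en x) : PadicAlgCl p)) else 0) := by
      intro x
      have h6 : en x ∈ S.map en.toEmbedding ↔ x ∈ S := by
        simp
      by_cases hx : x ∈ S
      · rw [if_pos (h6.2 hx), if_pos hx]
        ring
      · rw [if_neg (fun h => hx (h6.1 h)), if_neg hx, add_zero]
    rw [Finset.sum_congr rfl (fun x _ => h5 x), Finset.sum_add_distrib, Finset.sum_ite_mem,
      Finset.univ_inter]
  have hinj2 : Function.Injective (fun κ : Fin (r + 1) → Fin (d + 1) =>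
      ((fun i : Fin r => κ i.castSucc, κ (Fin.last r)) :
        (Fin r → Fin (d + 1)) × Fin (d + 1))) := by
    intro κ κ' h
    have h7 := congrArg Prod.fst h
    have h8 := congrArg Prod.snd h
    funext i
    refine Fin.lastCases h8 (fun j => ?_) i
    exact congrFun h7 j
  have h9 := hS.comp _ hinj2
  have h10 : (fun κ : Fin (r + 1) → Fin (d + 1) =>
      ∏ i, (Fin.snoc t (L ((m * ∏ i, (if i ∈ S.map en.toEmbedding then q i else q' i) : ℕ) :
        PadicAlgCl p)) : Fin (r + 1) → PadicAlgCl p) i ^ (κ i : ℕ)) =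
      ((fun x : (Fin r → Fin (d + 1)) × Fin (d + 1) =>
        (∏ i, t i ^ (x.1 i : ℕ)) * (L (m : PadicAlgCl p) + ∑ x, L (q' (en x) : PadicAlgCl p) +
          ∑ i ∈ S, (L (q (en i) : PadicAlgCl p) - L (q' (en i) : PadicAlgCl p))) ^ (x.2 : ℕ)) ∘
        fun κ : Fin (r + 1) → Fin (d + 1) => (fun i : Fin r => κ i.castSucc, κ (Fin.last r))) := by
    funext κ
    rw [Fin.prod_univ_castSucc]
    simp only [Fin.snoc_castSucc, Fin.snoc_last, Function.comp]
    rw [hy]
  unfold BoxInd
  rw [h10]
  exact h9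

end Pool.Agent.Lib.MP_c50dba_nt.Gen
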