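import Pool.Agent.Lib.MP_c50dba_nt.Gen.Spec

set_option autoImplicit false

/-!
A nonzero polynomial of degree at most `B` does not vanish on all the vertices of all the
`B`-dimensional cubes with edges in spanning families.
-/

namespace Pool.Agent.Lib.MP_c50dba_nt.Gen

open MvPolynomial

section

variable {F σ : Type} [Field F]

/-- Translation of the variables. -/
noncomputable def shift (u : σ → F) : MvPolynomial σ F →ₐ[F] MvPolynomial σ F :=
  aeval (fun l => X l + C (u l))

theorem shift_X (u : σ → F) (l : σ) : shift u (X l) = X l + C (u l) := by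
  unfold shift
  rw [aeval_X]

theorem shift_C (u : σ → F) (c : F) : shift u (C c) = C c := by
  unfold shift
  rw [aeval_C]
  rfl

theorem eval_shift (u Y : σ → F) (D : MvPolynomial σ F) :
    eval Y (shift u D) = eval (Y + u) D := by
  induction D using MvPolynomial.induction_on with
  | C a => rw [shift_C, eval_C, eval_C]
  | add p q hp hq => rw [map_add, map_add, hp, hq, map_add]
  | mul_X p i hp =>
    rw [map_mul, map_mul, hp, shift_X, map_mul, eval_X]
    congr 1
    simp

/-- The good polynomials for the degree lemma. -/
def Good (u : σ → F) (p : MvPolynomial σ F) : Prop :=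
  p = 0 ∨ ((p.totalDegree = 0 → shift u p = p) ∧
    (shift u p - p).totalDegree ≤ p.totalDegree - 1)

theorem good_monomial (u : σ → F) (m : σ →₀ ℕ) (c : F) : Good u (monomial m c) := by
  apply induction_on_monomial (motive := fun p => Good u p)
  · intro a
    right
    rw [shift_C, sub_self]
    exact ⟨fun _ => rfl, by simp⟩
  · intro p l hp
    by_cases h0 : p = 0
    · left
      rw [h0, zero_mul]
    · right
      rcases hp with hp | ⟨hp1, hp2⟩
      · exact absurd hp h0
      · have hX : (p * X l).totalDegree = p.totalDegree + 1 := by
          rw [totalDegree_mul_of_isDomain h0 (X_ne_zero l), totalDegree_X]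
        rw [hX]
        refine ⟨fun h => by omega, ?_⟩
        have e : shift u (p * X l) - p * X l =
            (shift u p - p) * (X l + C (u l)) + p * C (u l) := by
          rw [map_mul, shift_X]
          ring
        rw [e]
        refine le_trans (totalDegree_add _ _) ?_
        apply max_le
        · by_cases hd : p.totalDegree = 0
          · rw [hp1 hd, sub_self, zero_mul]
            simp
          · refine le_trans (totalDegree_mul _ _) ?_
            have h1 : (X l + C (u l) : MvPolynomial σ F).totalDegree ≤ 1 := by
              refine le_trans (totalDegree_add _ _) ?_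
              rw [totalDegree_X, totalDegree_C]
              simp
            omega
        · refine le_trans (totalDegree_mul _ _) ?_
          rw [totalDegree_C]
          omega

theorem totalDegree_shift_sub (u : σ → F) (D : MvPolynomial σ F) (B : ℕ)
    (hD : D.totalDegree ≤ B + 1) : (shift u D - D).totalDegree ≤ B := by
  have e : shift u D - D =
      ∑ m ∈ D.support, (shift u (monomial m (D.coeff m)) - monomial m (D.coeff m)) := by
    rw [Finset.sum_sub_distrib, ← map_sum, support_sum_monomial_coeff]
  rw [e]
  refine totalDegree_finsetSum_le ?_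
  intro m hm
  have hc : D.coeff m ≠ 0 := mem_support_iff.1 hm
  rcases good_monomial u m (D.coeff m) with h | ⟨h1, h2⟩
  · exact absurd (monomial_eq_zero.1 h) hc
  · have h3 : (monomial m (D.coeff m)).totalDegree ≤ B + 1 := by
      rw [totalDegree_monomial _ hc]
      exact le_trans (le_totalDegree hm) hD
    omega

/-- Restriction to a line. -/
theorem eval_line (Y w : σ → F) (D : MvPolynomial σ F) (z : F) :
    (aeval (fun l => Polynomial.C (Y l) + Polynomial.X * Polynomial.C (w l)) D :
      Polynomial F).eval z = eval (Y + z • w) D := by
  induction D using MvPolynomial.induction_on with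
  | C a => simp
  | add p q hp hq => rw [map_add, Polynomial.eval_add, hp, hq, map_add]
  | mul_X p i hp =>
    rw [map_mul, Polynomial.eval_mul, hp, map_mul, aeval_X, eval_X]
    congr 1
    simp only [Polynomial.eval_add, Polynomial.eval_C, Polynomial.eval_mul, Polynomial.eval_X,
      Pi.add_apply, Pi.smul_apply, smul_eq_mul]

/-- The directions of invariance of a polynomial. -/
def inv [CharZero F] (D : MvPolynomial σ F) : Submodule F (σ → F) where
  carrier := {w | ∀ Y, eval (Y + w) D = eval Y D}
  zero_mem' := by
    intro Y
    rw [add_zero]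
  add_mem' := by
    intro a b ha hb Y
    rw [← add_assoc, hb, ha]
  smul_mem' := by
    intro c w hw Y
    -- the polynomial in one variable
    let q : Polynomial F := aeval (fun l => Polynomial.C (Y l) + Polynomial.X * Polynomial.C (w l)) D
    have hq : ∀ z : F, q.eval z = eval (Y + z • w) D := fun z => eval_line Y w D z
    have hnat : ∀ n : ℕ, eval (Y + (n : F) • w) D = eval Y D := by
      intro n
      induction n with
      | zero => simp
      | succ n ih =>
        have : Y + ((n + 1 : ℕ) : F) • w = (Y + (n : F) • w) + w := by
          push_cast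
          rw [add_smul, one_smul, add_assoc]
        rw [this, hw, ih]
    have hq0 : q = Polynomial.C (eval Y D) := by
      apply Polynomial.eq_of_infinite_eval_eq
      refine Set.Infinite.mono ?_ (Set.infinite_range_of_injective
        (Nat.cast_injective : Function.Injective (Nat.cast : ℕ → F)))
      rintro _ ⟨n, rfl⟩
      show q.eval (n : F) = _
      rw [hq, hnat, Polynomial.eval_C]
    rw [← hq c, hq0, Polynomial.eval_C]

end

theorem stLin : StLin := by
  intro F _ _ σ ι _ _ B
  induction B with
  | zero =>
    intro D hD hdeg u _ Y₀
    refine ⟨fun b => b.elim0, ∅, ?_⟩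
    have h0 : D.totalDegree = 0 := by omega
    rw [totalDegree_eq_zero_iff_eq_C] at h0
    rw [h0, eval_C]
    intro hc
    apply hD
    rw [h0, hc, C_0]
  | succ B ih =>
    intro D hD hdeg u hu Y₀
    by_cases hall : ∀ i, shift (u 0 i) D = D
    · -- `D` is constant
      have hinv : (⊤ : Submodule F (σ → F)) ≤ inv D := by
        rw [← hu 0, Submodule.span_le]
        rintro _ ⟨i, rfl⟩ Y
        rw [← eval_shift, hall i]
      have hconst : D = C (eval 0 D) := by
        apply MvPolynomial.funext
        intro Y
        have := hinv (Submodule.mem_top : Y ∈ ⊤) 0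
        rw [zero_add] at this
        rw [this, eval_C]
      refine ⟨fun _ => Classical.arbitrary ι, ∅, ?_⟩
      rw [hconst, eval_C]
      intro hc
      apply hD
      rw [hconst, hc, C_0]
    · rw [not_forall] at hall
      obtain ⟨i₀, hi₀⟩ := hall
      obtain ⟨i', S', h⟩ := ih (shift (u 0 i₀) D - D) (sub_ne_zero.2 hi₀)
        (totalDegree_shift_sub _ _ _ hdeg) (fun b => u b.succ) (fun b => hu b.succ) Y₀
      rw [map_sub, eval_shift] at h
      have hsum : ∑ b ∈ S'.map (Fin.succEmb B), u b ((Fin.cons i₀ i' : Fin (B + 1) → ι) b) =
          ∑ b ∈ S', u b.succ (i' b) := by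
        rw [Finset.sum_map]
        rfl
      by_cases h2 : eval (Y₀ + ∑ b ∈ S', u b.succ (i' b)) D = 0
      · refine ⟨Fin.cons i₀ i', insert 0 (S'.map (Fin.succEmb B)), ?_⟩
        rw [Finset.sum_insert (by simp), hsum]
        rw [h2, sub_zero] at h
        have e : Y₀ + ((u 0 ((Fin.cons i₀ i' : Fin (B + 1) → ι) 0)) + ∑ b ∈ S', u b.succ (i' b)) =
            Y₀ + ∑ b ∈ S', u b.succ (i' b) + u 0 i₀ := by
          rw [Fin.cons_zero]
          abel
        rw [e]
        exact h
      · refine ⟨Fin.cons i₀ i', S'.map (Fin.succEmb B), ?_⟩
        rw [hsum]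
        exact h2

end Pool.Agent.Lib.MP_c50dba_nt.Gen
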