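import Pool.Agent.Lib.MP_c50dba_nt.Gen.Spec

set_option autoImplicit false

/-!
A measure on finitely many points with zero moments is zero.
-/

namespace Pool.Agent.Lib.MP_c50dba_nt.Gen

open MvPolynomial

theorem stMoments : StMoments := by
  intro K _ n ι _ κ hκ ξ h
  classical
  have hQ : ∀ Q : MvPolynomial (Fin n) K, ∑ k, ξ k * eval (κ k) Q = 0 := by
    intro Q
    have e : ∀ k, ξ k * eval (κ k) Q =
        ∑ d ∈ Q.support, Q.coeff d * (ξ k * ∏ σ, κ k σ ^ d σ) := by
      intro k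
      rw [eval_eq', Finset.mul_sum]
      apply Finset.sum_congr rfl
      intro d _
      ring
    rw [Finset.sum_congr rfl (fun k _ => e k), Finset.sum_comm]
    apply Finset.sum_eq_zero
    intro d _
    rw [← Finset.mul_sum, h (fun σ => d σ), mul_zero]
  ext k₀
  have hsep : ∀ k, k ≠ k₀ → ∃ σ, κ k σ ≠ κ k₀ σ := by
    intro k hk
    by_contra hall
    push Not at hall
    exact hk (hκ (funext hall))
  have hsep' : ∀ k, ∃ Q : MvPolynomial (Fin n) K, k ≠ k₀ → eval (κ k) Q = 0 ∧ eval (κ k₀) Q ≠ 0 := by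
    intro k
    by_cases hk : k = k₀
    · exact ⟨0, fun h => absurd hk h⟩
    · obtain ⟨σ, hσ⟩ := hsep k hk
      refine ⟨X σ - C (κ k σ), fun _ => ⟨by simp, ?_⟩⟩
      rw [map_sub, eval_X, eval_C]
      exact sub_ne_zero.2 (Ne.symm hσ)
  choose Q hQQ using hsep'
  have := hQ (∏ k ∈ Finset.univ.erase k₀, Q k)
  rw [Finset.sum_eq_single k₀] at this
  · rcases mul_eq_zero.1 this with h1 | h1
    · exact h1
    · exfalso
      rw [map_prod, Finset.prod_eq_zero_iff] at h1
      obtain ⟨k, hk, hk0⟩ := h1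
      exact (hQQ k (Finset.ne_of_mem_erase hk)).2 hk0
  · intro k _ hk
    rw [map_prod, Finset.prod_eq_zero (i := k) (Finset.mem_erase.2 ⟨hk, Finset.mem_univ _⟩)
      (hQQ k hk).1, mul_zero]
  · intro h
    exact absurd (Finset.mem_univ _) h

end Pool.Agent.Lib.MP_c50dba_nt.Gen
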