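import Pool.Agent.Lib.MP_c50dba_nt.Gen.Spec

set_option autoImplicit false

/-!
Generic points of powers.
-/

namespace Pool.Agent.Lib.MP_c50dba_nt.Gen

theorem common_point {F V : Type} [Field F] (𝒜 : Set (V → F))
    (hmul : ∀ a ∈ 𝒜, ∀ b ∈ 𝒜, a * b ∈ 𝒜)
    (hne : ∀ a ∈ 𝒜, ∀ b ∈ 𝒜, a ≠ 0 → b ≠ 0 → a * b ≠ 0) (hV : Nonempty V) (q : ℕ)
    (a : Fin q → V → F) (ha : ∀ j, a j ∈ 𝒜) (h0 : ∀ j, a j ≠ 0) : ∃ v, ∀ j, a j v ≠ 0 := by
  have key : ∀ q : ℕ, ∀ a : Fin (q + 1) → V → F, (∀ j, a j ∈ 𝒜) → (∀ j, a j ≠ 0) →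
      ∃ b ∈ 𝒜, b ≠ 0 ∧ ∀ v, b v ≠ 0 → ∀ j, a j v ≠ 0 := by
    intro q
    induction q with
    | zero =>
      intro a ha h0
      refine ⟨a 0, ha 0, h0 0, fun v hv j => ?_⟩
      have : j = 0 := Fin.ext (by omega)
      rw [this]
      exact hv
    | succ q ih =>
      intro a ha h0
      obtain ⟨b, hb, hb0, hbv⟩ := ih (fun j => a j.succ) (fun j => ha _) (fun j => h0 _)
      refine ⟨a 0 * b, hmul _ (ha 0) _ hb, hne _ (ha 0) _ hb (h0 0) hb0, fun v hv j => ?_⟩
      rw [Pi.mul_apply] at hv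
      refine Fin.cases ?_ (fun i => ?_) j
      · exact left_ne_zero_of_mul hv
      · exact hbv v (right_ne_zero_of_mul hv) i
  rcases q with _ | q
  · obtain ⟨v⟩ := hV
    exact ⟨v, fun j => j.elim0⟩
  · obtain ⟨b, _, hb0, hbv⟩ := key q a ha h0
    obtain ⟨v, hv⟩ := Function.ne_iff.1 hb0
    exact ⟨v, hbv v hv⟩

theorem stMulti : StMulti := by
  intro F V _ 𝒜 hmul hne n
  induction n with
  | zero =>
    intro q Φ _ h0 _
    refine ⟨Fin.elim0, fun j => ?_⟩
    obtain ⟨w, hw⟩ := h0 j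
    have : w = Fin.elim0 := Subsingleton.elim _ _
    rw [← this]
    exact hw
  | succ n ih =>
    intro q Φ hΦ h0 hV
    choose W hW using h0
    obtain ⟨w', hw'⟩ := ih q (fun j w => Φ j (Fin.cons (W j 0) w : Fin (n + 1) → V)) (by
      intro j w l
      have := hΦ j (Fin.cons (W j 0) w : Fin (n + 1) → V) l.succ
      have e : (fun v => Φ j (Function.update (Fin.cons (W j 0) w : Fin (n + 1) → V) l.succ v)) =
          fun v => Φ j (Fin.cons (W j 0) (Function.update w l v) : Fin (n + 1) → V) := by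
        ext v
        rw [Fin.cons_update]
      rw [e] at this
      exact this) (by
      intro j
      refine ⟨Fin.tail (W j), ?_⟩
      show Φ j (Fin.cons (W j 0) (Fin.tail (W j)) : Fin (n + 1) → V) ≠ 0
      rw [Fin.cons_self_tail]
      exact hW j) hV
    obtain ⟨v₀⟩ := hV
    obtain ⟨v, hv⟩ := common_point 𝒜 hmul hne ⟨v₀⟩ q
      (fun j v => Φ j (Fin.cons v w' : Fin (n + 1) → V)) (by
      intro j
      have := hΦ j (Fin.cons v₀ w' : Fin (n + 1) → V) 0
      have e : (fun v => Φ j (Function.update (Fin.cons v₀ w' : Fin (n + 1) → V) 0 v)) =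
          fun v => Φ j (Fin.cons v w' : Fin (n + 1) → V) := by
        ext v
        rw [Fin.update_cons_zero]
      rw [e] at this
      exact this) (by
      intro j h
      exact hw' j (congrFun h (W j 0)))
    exact ⟨Fin.cons v w', hv⟩

end Pool.Agent.Lib.MP_c50dba_nt.Gen
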