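import Pool.Agent.Lib.MP_c50dba_nt.Gen.Spec

set_option autoImplicit false

/-!
Nonzero elements of affine domains are nonzero at some point.
-/

namespace Pool.Agent.Lib.MP_c50dba_nt.Gen

theorem stPoint : StPoint := by
  intro F A _ _ _ _ _ _ a ha
  let S := Localization.Away a
  have hle : Submonoid.powers a ≤ nonZeroDivisors A := powers_le_nonZeroDivisors_of_noZeroDivisors ha
  have hinj : Function.Injective (algebraMap A S) := IsLocalization.injective S hle
  have : Nontrivial S := hinj.nontrivial
  obtain ⟨m, hm⟩ := Ideal.exists_maximal S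
  let K := S ⧸ m
  letI : Field K := Ideal.Quotient.field m
  have hAS : Algebra.FiniteType A S := IsLocalization.finiteType_of_monoid_fg (Submonoid.powers a) S
  have hFS : Algebra.FiniteType F S := Algebra.FiniteType.trans (S := A) inferInstance hAS
  have hFK : Algebra.FiniteType F K :=
    Algebra.FiniteType.of_surjective (Ideal.Quotient.mkₐ F m) (Ideal.Quotient.mkₐ_surjective F m)
  have hfin : Module.Finite F K := finite_of_finite_type_of_isJacobsonRing F K
  have hbij : Function.Bijective (algebraMap F K) :=
    IsAlgClosed.algebraMap_bijective_of_isIntegral (k := F)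
  let eK : F ≃ₐ[F] K := AlgEquiv.ofBijective (Algebra.ofId F K) hbij
  let v : A →ₐ[F] F := ((eK.symm : K →ₐ[F] F).comp (Ideal.Quotient.mkₐ F m)).comp
    (IsScalarTower.toAlgHom F A S)
  refine ⟨v, ?_⟩
  have hu : IsUnit (algebraMap A S a) := IsLocalization.map_units S
    (⟨a, Submonoid.mem_powers a⟩ : Submonoid.powers a)
  have hu2 : IsUnit (v a) := by
    have := hu.map ((eK.symm : K →ₐ[F] F).comp (Ideal.Quotient.mkₐ F m))
    exact this
  exact hu2.ne_zero

end Pool.Agent.Lib.MP_c50dba_nt.Gen
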