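import Pool.Agent.Lib.MP_c50dba_nt.Gen.Spec

set_option autoImplicit false

/-!
A non-archimedean Schwarz lemma for power series with zeros of given multiplicities.
-/

namespace Pool.Agent.Lib.MP_c50dba_nt.Gen

open scoped BigOperators
open Pool.Agent.Lib.MP_c50dba_nt

variable {C : Type} [NormedField C] [CompleteSpace C] [IsUltrametricDist C]

omit [CompleteSpace C] in
lemma weight_bound {f : ℕ → C} {M : ℝ} (hf : ∀ k, ‖f k‖ ≤ M * 2 ^ k) (w : ℕ → ℕ) (b : ℕ) :
    ∀ m, ‖(w m : C) * f (m + b)‖ ≤ (M * 2 ^ b) * 2 ^ m := by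
  intro m
  rw [norm_mul]
  have h1 := hf (m + b)
  calc ‖(w m : C)‖ * ‖f (m + b)‖ ≤ 1 * (M * 2 ^ (m + b)) := by
        gcongr
        exact IsUltrametricDist.norm_natCast_le_one _ _
    _ = (M * 2 ^ b) * 2 ^ m := by rw [pow_add]; ring

lemma weight_summable {f : ℕ → C} {M : ℝ} (hf : ∀ k, ‖f k‖ ≤ M * 2 ^ k) (w : ℕ → ℕ) (b : ℕ)
    {c : C} (hc : ‖c‖ ≤ 1 / 4) : Summable (fun m => (w m : C) * f (m + b) * c ^ m) :=
  pval_summable (f := fun m => (w m : C) * f (m + b)) (weight_bound hf w b) hc

omit [CompleteSpace C] [IsUltrametricDist C] in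
lemma tc_zero (f : ℕ → C) (a : C) : tc f a 0 = pval f a := by
  unfold tc pval
  simp

/-- Taylor coefficients of a product with `z - a`. -/
lemma tc_succ {f : ℕ → C} {M : ℝ} (hM : 0 ≤ M) (hf : ∀ k, ‖f k‖ ≤ M * 2 ^ k) {a : C}
    (ha : ‖a‖ ≤ 1 / 4) {c : C} (hc : ‖c‖ ≤ 1 / 4) (b : ℕ) :
    tc f c (b + 1) = (c - a) * tc (pdiv f a) c (b + 1) + tc (pdiv f a) c b := by
  have hg := norm_pdiv_le hM hf ha
  set g := pdiv f a with hgdef
  have s1 := weight_summable hg (fun m => (m + b).choose b) b hc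
  have s2 := weight_summable hg (fun m => (m + b).choose (b + 1)) b hc
  have s3 := weight_summable hg (fun m => (m + (b + 1)).choose (b + 1)) (b + 1) hc
  have e1 : ∑' m, ((m + b).choose (b + 1) : C) * g (m + b) * c ^ m = c * tc g c (b + 1) := by
    rw [s2.tsum_eq_zero_add]
    unfold tc
    rw [← tsum_mul_left]
    simp only [Nat.choose_succ_self, Nat.cast_zero, zero_mul, zero_add]
    congr 1
    funext m
    have : m + 1 + b = m + (b + 1) := by ring
    rw [this, pow_succ]
    ring
  have e2 : tc f c (b + 1) = ∑' m, (((m + b).choose b : C) * g (m + b) * c ^ m +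
      ((m + b).choose (b + 1) : C) * g (m + b) * c ^ m -
      a * (((m + (b + 1)).choose (b + 1) : C) * g (m + (b + 1)) * c ^ m)) := by
    unfold tc
    congr 1
    funext m
    have h1 : f (m + (b + 1)) = g (m + b) - a * g (m + (b + 1)) := by
      have := pdiv_rec hf ha (m + b)
      rw [← add_assoc]
      exact this
    have h2 : ((m + (b + 1)).choose (b + 1) : C) =
        ((m + b).choose b : C) + ((m + b).choose (b + 1) : C) := by
      rw [← add_assoc, Nat.choose_succ_succ]
      push_cast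
      ring
    rw [h1]
    linear_combination (g (m + b) * c ^ m) * h2
  rw [e2, (s1.add s2).tsum_sub (s3.mul_left a), s1.tsum_add s2, e1, tsum_mul_left]
  unfold tc
  ring

/-- Coefficients of a power series with many zeros, counted with multiplicities. -/
theorem coeff_bound_mult (n : ℕ) : ∀ (f : ℕ → C) (M : ℝ), 0 ≤ M → (∀ k, ‖f k‖ ≤ M * 2 ^ k) →
    ∀ (s : Finset C) (w : C → ℕ), ∑ a ∈ s, w a = n →
      (∀ a ∈ s, ‖a‖ ≤ 1 / 4 ∧ ∀ b < w a, tc f a b = 0) →
      ∀ k, ‖f k‖ ≤ M * (1 / 2) ^ n * 4 ^ k := by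
  classical
  induction n with
  | zero =>
    intro f M hM hf s w _ _ k
    refine (hf k).trans ?_
    rw [pow_zero, mul_one]
    gcongr
    norm_num
  | succ n ih =>
    intro f M hM hf s w hs hz k
    obtain ⟨a, has, haw⟩ : ∃ a ∈ s, w a ≠ 0 := by
      by_contra hno
      push Not at hno
      rw [Finset.sum_eq_zero hno] at hs
      omega
    obtain ⟨ha4, haz⟩ := hz a has
    have ha0 : pval f a = 0 := by
      rw [← tc_zero]
      exact haz 0 (by omega)
    have hg := norm_pdiv_le hM hf ha4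
    have hsum : ∑ c ∈ s, (Function.update w a (w a - 1)) c = n := by
      rw [Finset.sum_update_of_mem has]
      have h2 := Finset.add_sum_erase s w has
      rw [Finset.sdiff_singleton_eq_erase]
      omega
    have hz' : ∀ c ∈ s, ‖c‖ ≤ 1 / 4 ∧ ∀ b < (Function.update w a (w a - 1)) c,
        tc (pdiv f a) c b = 0 := by
      intro c hc
      obtain ⟨hc4, hcz⟩ := hz c hc
      refine ⟨hc4, ?_⟩
      by_cases hca : c = a
      · subst hca
        intro b hb
        rw [Function.update_self] at hb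
        have h1 := tc_succ hM hf ha4 hc4 b
        rw [hcz (b + 1) (by omega), sub_self, zero_mul, zero_add] at h1
        exact h1.symm
      · have hne : c - a ≠ 0 := sub_ne_zero.2 hca
        intro b
        rw [Function.update_of_ne hca]
        induction b with
        | zero =>
          intro hb
          have h1 := pval_eq_mul hM hf ha4 ha0 hc4
          rw [← tc_zero f c, hcz 0 hb] at h1
          rw [tc_zero]
          exact (mul_eq_zero.1 h1.symm).resolve_left hne
        | succ b ihb =>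
          intro hb
          have h1 := tc_succ hM hf ha4 hc4 b
          rw [hcz (b + 1) hb, ihb (by omega), add_zero] at h1
          exact (mul_eq_zero.1 h1.symm).resolve_left hne
    have hG := ih (pdiv f a) (2 * M) (by positivity) hg s _ hsum hz'
    cases k with
    | zero =>
      rw [pdiv_rec_zero hf ha4 ha0, norm_neg, norm_mul]
      have h1 := hG 0
      calc ‖a‖ * ‖pdiv f a 0‖ ≤ (1 / 4) * (2 * M * (1 / 2) ^ n * 4 ^ 0) := by gcongr
        _ = M * (1 / 2) ^ (n + 1) * 4 ^ 0 := by rw [pow_succ]; ring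
    | succ k =>
      rw [pdiv_rec hf ha4 k, sub_eq_add_neg]
      refine (IsUltrametricDist.norm_add_le_max _ _).trans (max_le ?_ ?_)
      · refine (hG k).trans (le_of_eq ?_)
        rw [pow_succ, pow_succ]; ring
      · rw [norm_neg, norm_mul]
        calc ‖a‖ * ‖pdiv f a (k + 1)‖ ≤ (1 / 4) * (2 * M * (1 / 2) ^ n * 4 ^ (k + 1)) := by
              gcongr
              exact hG (k + 1)
          _ = M * (1 / 2) ^ (n + 1) * 4 ^ (k + 1) := by rw [pow_succ (1 / 2 : ℝ) n]; ring

theorem stSchwarz : StSchwarz := by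
  intro C _ _ _ f M hM hf s m hz z hz4
  have hb := coeff_bound_mult (s.card * m) f M hM hf s (fun _ => m) (by simp) hz
  unfold tc
  apply IsUltrametricDist.norm_tsum_le_of_forall_le_of_nonneg (by positivity)
  intro k
  have h1 := hb (k + m)
  have h2 : ‖z‖ ^ k ≤ (1 / 4) ^ k := pow_le_pow_left₀ (norm_nonneg _) hz4 k
  rw [norm_mul, norm_mul, norm_pow]
  calc ‖((k + m).choose m : C)‖ * ‖f (k + m)‖ * ‖z‖ ^ k
      ≤ 1 * (M * (1 / 2) ^ (s.card * m) * 4 ^ (k + m)) * (1 / 4) ^ k := by
        gcongr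
        exact IsUltrametricDist.norm_natCast_le_one _ _
    _ = M * 4 ^ m * (1 / 2) ^ (s.card * m) * (4 ^ k * (1 / 4) ^ k) := by rw [pow_add]; ring
    _ = M * 4 ^ m * (1 / 2) ^ (s.card * m) := by rw [← mul_pow]; norm_num

end Pool.Agent.Lib.MP_c50dba_nt.Gen
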