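import Pool.Agent.Lib.MP_c50dba_nt.Gen.Spec

set_option autoImplicit false

/-!
# F1: dense subsets of products contain nondegenerate cubes
-/

namespace Pool.Agent.Lib.MP_c50dba_nt.Gen

open scoped BigOperators

theorem stBox : StBox := by
  classical
  intro k
  induction k with
  | zero =>
    intro δ hδ
    refine ⟨0, fun X hX S hS _ hpos => ?_⟩
    have hne : S.Nonempty := Finset.card_pos.1 (by exact_mod_cast hpos)
    obtain ⟨x, hx⟩ := hne
    refine ⟨x, x, hS hx, hS hx, fun i => i.elim0, fun T => ?_⟩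
    have h : (fun i => if i ∈ T then x i else x i) = x := by
      funext i
      exact i.elim0
    rw [h]
    exact hx
  | succ k ih =>
    intro δ hδ
    obtain ⟨R, hR⟩ := ih (δ ^ 2 / 2) (by positivity)
    refine ⟨max R (⌈2 / δ ^ 2⌉₊ + 1), fun X hX S hS hcard hpos => ?_⟩
    have hX0 : ((⌈2 / δ ^ 2⌉₊ : ℝ)) + 1 ≤ ((X 0).card : ℝ) := by
      have h1 := le_trans (le_max_right R _) (hX 0)
      exact_mod_cast h1
    have hc0 : 2 / δ ^ 2 < ((X 0).card : ℝ) := by
      have h1 := Nat.le_ceil (2 / δ ^ 2)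
      linarith
    have hX0pos : (0 : ℝ) < ((X 0).card : ℝ) := lt_trans (by positivity) hc0
    -- the tail sets
    set Y : Finset (Fin k → ℕ) := Fintype.piFinset (fun i => X i.succ) with hY
    have hYcard : (Y.card : ℝ) = ∏ i : Fin k, ((X i.succ).card : ℝ) := by
      rw [hY, Fintype.card_piFinset, Nat.cast_prod]
    set f : ℕ → (Fin k → ℕ) → ℝ := fun a y =>
      if (Fin.cons a y : Fin (k + 1) → ℕ) ∈ S then 1 else 0 with hf
    -- the number of elements of S
    have hScard : (S.card : ℝ) = ∑ y ∈ Y, ∑ a ∈ X 0, f a y := by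
      rw [Finset.sum_comm]
      have h1 : S.card = ∑ a ∈ X 0, (Y.filter fun y =>
          (Fin.cons a y : Fin (k + 1) → ℕ) ∈ S).card := by
        rw [Finset.card_eq_sum_card_fiberwise (f := fun x : Fin (k + 1) → ℕ => x 0) (t := X 0)
          (fun x hx => Fintype.mem_piFinset.1 (hS hx) 0)]
        refine Finset.sum_congr rfl fun a _ => ?_
        refine Finset.card_bij (fun x _ => Fin.tail x) ?_ ?_ ?_
        · intro x hx
          obtain ⟨hx1, hx2⟩ := Finset.mem_filter.1 hx
          refine Finset.mem_filter.2 ⟨?_, ?_⟩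
          · rw [hY, Fintype.mem_piFinset]
            intro i
            exact Fintype.mem_piFinset.1 (hS hx1) i.succ
          · rw [← hx2, Fin.cons_self_tail]
            exact hx1
        · intro x hx x' hx' h
          have h2 : x 0 = x' 0 := by
            rw [(Finset.mem_filter.1 hx).2, (Finset.mem_filter.1 hx').2]
          rw [← Fin.cons_self_tail x, ← Fin.cons_self_tail x', h2, h]
        · intro y hy
          obtain ⟨hy1, hy2⟩ := Finset.mem_filter.1 hy
          exact ⟨Fin.cons a y, Finset.mem_filter.2 ⟨hy2, by simp⟩, by funext i; simp [Fin.tail]⟩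
      rw [h1, Nat.cast_sum]
      refine Finset.sum_congr rfl fun a _ => ?_
      rw [hf, Finset.card_filter, Nat.cast_sum]
      refine Finset.sum_congr rfl fun y _ => ?_
      push_cast
      rfl
    have hSle : δ * (((X 0).card : ℝ) * Y.card) ≤ S.card := by
      rw [hYcard, ← Fin.prod_univ_succ (fun i => ((X i).card : ℝ))]
      exact hcard
    have hYpos : (0 : ℝ) < Y.card := by
      rcases Nat.eq_zero_or_pos Y.card with h0 | h0
      · exfalso
        rw [Finset.card_eq_zero] at h0
        rw [hScard, h0, Finset.sum_empty] at hpos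
        exact lt_irrefl _ hpos
      · exact_mod_cast h0
    -- Cauchy-Schwarz
    have hCS : (S.card : ℝ) ^ 2 ≤ Y.card * ∑ y ∈ Y, (∑ a ∈ X 0, f a y) ^ 2 := by
      rw [hScard]
      exact sq_sum_le_card_mul_sum_sq
    have hex : ∑ y ∈ Y, (∑ a ∈ X 0, f a y) ^ 2 =
        ∑ a ∈ X 0, ∑ a' ∈ X 0, ∑ y ∈ Y, f a y * f a' y := by
      simp_rw [sq, Finset.sum_mul_sum]
      rw [Finset.sum_comm]
      refine Finset.sum_congr rfl fun a _ => ?_
      rw [Finset.sum_comm]
    set T : ℕ → ℕ → Finset (Fin k → ℕ) := fun a a' =>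
      Y.filter (fun y => (Fin.cons a y : Fin (k + 1) → ℕ) ∈ S ∧
        (Fin.cons a' y : Fin (k + 1) → ℕ) ∈ S) with hT
    have hTcard : ∀ a a', ∑ y ∈ Y, f a y * f a' y = ((T a a').card : ℝ) := by
      intro a a'
      rw [hT, Finset.card_filter, Nat.cast_sum]
      refine Finset.sum_congr rfl fun y _ => ?_
      simp only [hf]
      by_cases h1 : (Fin.cons a y : Fin (k + 1) → ℕ) ∈ S <;>
        by_cases h2 : (Fin.cons a' y : Fin (k + 1) → ℕ) ∈ S <;> simp [h1, h2]
    have hTle : ∀ a a', ((T a a').card : ℝ) ≤ Y.card := by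
      intro a a'
      exact_mod_cast Finset.card_filter_le _ _
    have hgood : ∃ a ∈ X 0, ∃ a' ∈ X 0, a ≠ a' ∧ δ ^ 2 / 2 * Y.card ≤ ((T a a').card : ℝ) := by
      by_contra hcon
      push Not at hcon
      have h1 : ∀ a ∈ X 0, ∑ a' ∈ X 0, ((T a a').card : ℝ) ≤
          Y.card + (X 0).card * (δ ^ 2 / 2 * Y.card) := by
        intro a ha
        calc ∑ a' ∈ X 0, ((T a a').card : ℝ)
            ≤ ∑ a' ∈ X 0, ((if a = a' then (Y.card : ℝ) else 0) + δ ^ 2 / 2 * Y.card) := by
              refine Finset.sum_le_sum fun a' ha' => ?_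
              by_cases h : a = a'
              · rw [if_pos h]
                have := hTle a a'
                have h2 : 0 ≤ δ ^ 2 / 2 * (Y.card : ℝ) := by positivity
                linarith
              · rw [if_neg h]
                have := hcon a ha a' ha' h
                linarith
          _ = Y.card + (X 0).card * (δ ^ 2 / 2 * Y.card) := by
              rw [Finset.sum_add_distrib, Finset.sum_ite_eq, if_pos ha, Finset.sum_const,
                nsmul_eq_mul]
      have h2 : ∑ y ∈ Y, (∑ a ∈ X 0, f a y) ^ 2 ≤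
          (X 0).card * (Y.card + (X 0).card * (δ ^ 2 / 2 * Y.card)) := by
        rw [hex]
        calc ∑ a ∈ X 0, ∑ a' ∈ X 0, ∑ y ∈ Y, f a y * f a' y
            = ∑ a ∈ X 0, ∑ a' ∈ X 0, ((T a a').card : ℝ) :=
              Finset.sum_congr rfl fun a _ => Finset.sum_congr rfl fun a' _ => hTcard a a'
          _ ≤ ∑ a ∈ X 0, ((Y.card : ℝ) + (X 0).card * (δ ^ 2 / 2 * Y.card)) :=
              Finset.sum_le_sum h1
          _ = (X 0).card * (Y.card + (X 0).card * (δ ^ 2 / 2 * Y.card)) := by
              rw [Finset.sum_const, nsmul_eq_mul]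
      have h3 : (δ * (((X 0).card : ℝ) * Y.card)) ^ 2 ≤ (S.card : ℝ) ^ 2 :=
        pow_le_pow_left₀ (by positivity) hSle 2
      have h4 : (δ * (((X 0).card : ℝ) * Y.card)) ^ 2 ≤
          Y.card * ((X 0).card * (Y.card + (X 0).card * (δ ^ 2 / 2 * Y.card))) :=
        le_trans h3 (le_trans hCS (mul_le_mul_of_nonneg_left h2 hYpos.le))
      -- divide by |Y|^2 |X_0|
      have h5 : (((X 0).card : ℝ) * (Y.card : ℝ) ^ 2) * (δ ^ 2 * (X 0).card / 2 - 1) ≤ 0 := by
        nlinarith [h4]
      have h6 : 0 < δ ^ 2 * ((X 0).card : ℝ) / 2 - 1 := by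
        rw [div_lt_iff₀ (by positivity)] at hc0
        nlinarith
      have h7 : 0 < (((X 0).card : ℝ) * (Y.card : ℝ) ^ 2) * (δ ^ 2 * (X 0).card / 2 - 1) := by
        positivity
      linarith
    obtain ⟨a, ha, a', ha', hne, hTa⟩ := hgood
    have hTpos : (0 : ℝ) < ((T a a').card : ℝ) := lt_of_lt_of_le (by positivity) hTa
    obtain ⟨y, y', hy, hy', hyne, hcube⟩ := hR (fun i => X i.succ)
      (fun i => le_trans (le_max_left R _) (hX i.succ)) (T a a')
      (Finset.filter_subset _ _) (by
        rw [← hYcard]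
        exact hTa) hTpos
    refine ⟨Fin.cons a y, Fin.cons a' y', ?_, ?_, ?_, ?_⟩
    · rw [Fintype.mem_piFinset]
      intro i
      refine Fin.cases ?_ (fun j => ?_) i
      · exact ha
      · exact Fintype.mem_piFinset.1 hy j
    · rw [Fintype.mem_piFinset]
      intro i
      refine Fin.cases ?_ (fun j => ?_) i
      · exact ha'
      · exact Fintype.mem_piFinset.1 hy' j
    · intro i
      refine Fin.cases ?_ (fun j => ?_) i
      · exact hne
      · exact hyne j
    · intro Q
      obtain ⟨h1, h2⟩ := (Finset.mem_filter.1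
        (hcube (Finset.univ.filter fun i : Fin k => i.succ ∈ Q))).2
      have h3 : (fun i : Fin (k + 1) => if i ∈ Q then (Fin.cons a y : Fin (k + 1) → ℕ) i
          else (Fin.cons a' y' : Fin (k + 1) → ℕ) i) =
          Fin.cons (if (0 : Fin (k + 1)) ∈ Q then a else a')
            (fun i : Fin k => if i ∈ Finset.univ.filter (fun i : Fin k => i.succ ∈ Q) then y i
              else y' i) := by
        funext i
        refine Fin.cases ?_ (fun j => ?_) i
        · simp
        · simp
      rw [h3]
      by_cases hQ : (0 : Fin (k + 1)) ∈ Q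
      · rw [if_pos hQ]
        exact h1
      · rw [if_neg hQ]
        exact h2

end Pool.Agent.Lib.MP_c50dba_nt.Gen
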