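import Pool.Agent.Lib.MP_c50dba_nt.Gen.CoreB
import Pool.Agent.Lib.MP_c50dba_nt.MultiExp

set_option autoImplicit false

/-!
The p-adic Schneider-Lang theorem for `g` exponentials in `n < g` variables.
-/

namespace Pool.Agent.Lib.MP_c50dba_nt.Gen

open Pool.Agent.Lib.MP_c50dba_nt NumberField Module

/-- The numerical inequality. -/
lemma param_ineq (N0 A₀ A₁ A₂ c₀ g n l t D S T M1 M2 : ℕ)
    (hM1 : M1 = 4 * N0 * A₀ * g * n + 1) (hM2 : M2 = 2 * (A₂ * n + 2 + N0 * (4 * g + c₀ + 2 * A₁ + 2)) + 2)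
    (hT : T = M1 * D) (hS : S = M2 * (l + 1)) (ht : T ≤ t) (ht1 : 1 ≤ t) :
    A₂ * t * n + 2 * t + (2 * l * g + c₀ + (g + A₁ + l) * (T + t) + 2 * A₀ * (g * n * D * S)) * N0 <
      S * t := by
  have h1 : 2 * (2 * A₀ * (g * n * D * S) * N0) ≤ t * S := by
    calc 2 * (2 * A₀ * (g * n * D * S) * N0) = (4 * N0 * A₀ * g * n) * D * S := by ring
      _ ≤ M1 * D * S := by
          rw [hM1]
          gcongr
          omega
      _ = T * S := by rw [hT]
      _ ≤ t * S := Nat.mul_le_mul_right _ ht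
  have h2 : 2 * (A₂ * t * n + 2 * t + (2 * l * g + c₀ + (g + A₁ + l) * (T + t)) * N0) < t * S := by
    have h3 : 2 * l * g + c₀ + (g + A₁ + l) * (T + t) ≤ t * (2 * l * g + c₀ + 2 * (g + A₁ + l)) := by
      have h4 : 2 * l * g + c₀ ≤ t * (2 * l * g + c₀) := Nat.le_mul_of_pos_left _ (by omega)
      have h5 : (g + A₁ + l) * (T + t) ≤ (g + A₁ + l) * (t + t) := Nat.mul_le_mul_left _ (by omega)
      calc 2 * l * g + c₀ + (g + A₁ + l) * (T + t) ≤ t * (2 * l * g + c₀) + (g + A₁ + l) * (t + t) := by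
            omega
        _ = t * (2 * l * g + c₀ + 2 * (g + A₁ + l)) := by ring
    calc 2 * (A₂ * t * n + 2 * t + (2 * l * g + c₀ + (g + A₁ + l) * (T + t)) * N0) ≤
          2 * (A₂ * t * n + 2 * t + (t * (2 * l * g + c₀ + 2 * (g + A₁ + l))) * N0) := by
          gcongr
      _ = t * (2 * (A₂ * n + 2 + N0 * (2 * l * g + c₀ + 2 * (g + A₁ + l)))) := by ring
      _ < t * S := by
          apply Nat.mul_lt_mul_of_pos_left _ (by omega)
          rw [hS, hM2]
          have h6 : N0 * (2 * l * g + c₀ + 2 * (g + A₁ + l)) ≤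
              N0 * ((4 * g + c₀ + 2 * A₁ + 2) * (l + 1)) := by
            apply Nat.mul_le_mul_left
            nlinarith [Nat.zero_le (g * l), Nat.zero_le (c₀ * l), Nat.zero_le (A₁ * l)]
          have h7 : A₂ * n ≤ A₂ * n * (l + 1) := Nat.le_mul_of_pos_right _ (by omega)
          nlinarith
  have h8 : 2 * (A₂ * t * n + 2 * t + (2 * l * g + c₀ + (g + A₁ + l) * (T + t) +
      2 * A₀ * (g * n * D * S)) * N0) < 2 * (S * t) := by
    calc 2 * (A₂ * t * n + 2 * t + (2 * l * g + c₀ + (g + A₁ + l) * (T + t) +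
          2 * A₀ * (g * n * D * S)) * N0) =
          2 * (A₂ * t * n + 2 * t + (2 * l * g + c₀ + (g + A₁ + l) * (T + t)) * N0) +
            2 * (2 * A₀ * (g * n * D * S) * N0) := by ring
      _ < t * S + t * S := by omega
      _ = 2 * (S * t) := by ring
  omega

section

variable {K : Type} [Field K] [NumberField K] {n g : ℕ}

lemma house_kap_le (x : Fin g → Fin n → 𝓞 K) {A₁ l : ℕ} (hx : ∀ j σ, house (x j σ : K) ≤ 2 ^ A₁)
    (k : Fin g → Fin (2 ^ l)) (σ : Fin n) :
    house (kap x (fun i => (k i : ℕ)) σ : K) ≤ 2 ^ (g + A₁ + l) := by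
  have h1 : (kap x (fun i => (k i : ℕ)) σ : K) = ∑ j, ((k j : ℕ) : K) * (x j σ : K) := by
    unfold kap
    have h3 : ∀ z : 𝓞 K, (z : K) = algebraMap (𝓞 K) K z := fun _ => rfl
    rw [h3, map_sum]
    apply Finset.sum_congr rfl
    intro i _
    rw [map_mul, map_natCast]
  rw [h1]
  calc house (∑ j, ((k j : ℕ) : K) * (x j σ : K)) ≤ ∑ j, house (((k j : ℕ) : K) * (x j σ : K)) :=
        house_sum_le_sum_house _ _
    _ ≤ ∑ _j : Fin g, (2 : ℝ) ^ l * 2 ^ A₁ := by
        apply Finset.sum_le_sum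
        intro j _
        rw [house_nat_mul]
        refine mul_le_mul ?_ (hx j σ) (house_nonneg _) (by positivity)
        have := (k j).isLt
        exact_mod_cast this.le
    _ = g * (2 ^ l * 2 ^ A₁) := by simp
    _ ≤ 2 ^ g * (2 ^ l * 2 ^ A₁) := by
        gcongr
        exact_mod_cast (Nat.lt_two_pow_self).le
    _ = 2 ^ (g + A₁ + l) := by rw [← pow_add, ← pow_add]; congr 1; ring

/-- Integral version of `apow`. -/
def bint (dd : ℕ) (β : Fin g × Fin n → 𝓞 K) (e : ℕ) (k : Fin g → ℕ) (s : Fin n → ℕ) : 𝓞 K :=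
  (dd : 𝓞 K) ^ (e - ∑ j, ∑ j', k j * s j') * ∏ j, ∏ j', β (j, j') ^ (k j * s j')

omit [NumberField K] in
lemma bint_coe (A : Fin g → Fin n → K) (dd : ℕ) (β : Fin g × Fin n → 𝓞 K)
    (hβ : ∀ i, (β i : K) = dd * A i.1 i.2) (e : ℕ) (k : Fin g → ℕ) (s : Fin n → ℕ)
    (he : ∑ j, ∑ j', k j * s j' ≤ e) : (bint dd β e k s : K) = (dd : K) ^ e * apow A k s := by
  have h3 : ∀ z : 𝓞 K, (z : K) = algebraMap (𝓞 K) K z := fun _ => rfl
  have h4 : ∀ i, algebraMap (𝓞 K) K (β i) = dd * A i.1 i.2 := hβ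
  unfold bint apow
  rw [h3, map_mul, map_pow, map_natCast, map_prod]
  have h5 : ∀ j, algebraMap (𝓞 K) K (∏ j', β (j, j') ^ (k j * s j')) =
      (dd : K) ^ (∑ j', k j * s j') * ∏ j', A j j' ^ (k j * s j') := by
    intro j
    rw [map_prod, ← Finset.prod_pow_eq_pow_sum, ← Finset.prod_mul_distrib]
    apply Finset.prod_congr rfl
    intro j' _
    rw [map_pow, h4, mul_pow]
  rw [Finset.prod_congr rfl (fun j _ => h5 j), Finset.prod_mul_distrib,
    Finset.prod_pow_eq_pow_sum, ← mul_assoc, ← pow_add, Nat.sub_add_cancel he]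

lemma house_bint_le (A : Fin g → Fin n → K) (dd : ℕ) (β : Fin g × Fin n → 𝓞 K) {A₀ : ℕ}
    (hdd : (dd : ℝ) ≤ 2 ^ A₀) (hβ : ∀ i, house (β i : K) ≤ 2 ^ A₀) (e : ℕ) (k : Fin g → ℕ)
    (s : Fin n → ℕ) (he : ∑ j, ∑ j', k j * s j' ≤ e) :
    house (bint dd β e k s : K) ≤ 2 ^ (A₀ * e) := by
  have h3 : ∀ z : 𝓞 K, (z : K) = algebraMap (𝓞 K) K z := fun _ => rfl
  have h6 : (bint dd β e k s : K) = (dd : K) ^ (e - ∑ j, ∑ j', k j * s j') *
      ∏ j, ∏ j', (β (j, j') : K) ^ (k j * s j') := by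
    unfold bint
    rw [h3, map_mul, map_pow, map_natCast, map_prod]
    congr 1
    apply Finset.prod_congr rfl
    intro j _
    rw [map_prod]
    apply Finset.prod_congr rfl
    intro j' _
    rw [map_pow]
  have hd' : house ((dd : K)) ≤ 2 ^ A₀ := by
    have := house_intCast (K := K) (dd : ℤ)
    simp only [Int.cast_natCast] at this
    rw [this]
    simpa using hdd
  rw [h6]
  calc _ ≤ house ((dd : K) ^ (e - ∑ j, ∑ j', k j * s j')) *
        house (∏ j, ∏ j', (β (j, j') : K) ^ (k j * s j')) := house_mul_le _ _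
    _ ≤ (2 ^ A₀) ^ (e - ∑ j, ∑ j', k j * s j') * ∏ j, ∏ j', (2 ^ A₀ : ℝ) ^ (k j * s j') := by
        gcongr
        · exact house_nonneg _
        · exact (house_pow_le _ _).trans (pow_le_pow_left₀ (house_nonneg _) hd' _)
        · refine (house_prod_le' _ _).trans ?_
          apply Finset.prod_le_prod (fun _ _ => house_nonneg _)
          intro i _
          refine (house_prod_le' _ _).trans ?_
          apply Finset.prod_le_prod (fun _ _ => house_nonneg _)
          intro j _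
          exact (house_pow_le _ _).trans (pow_le_pow_left₀ (house_nonneg _) (hβ _) _)
    _ = 2 ^ (A₀ * e) := by
        simp only [Finset.prod_pow_eq_pow_sum]
        rw [← pow_add, ← pow_mul]
        congr 1
        rw [Nat.sub_add_cancel he]

/-- The coefficient of the linear forms. -/
def coeffInt (x : Fin g → Fin n → 𝓞 K) (dd : ℕ) (β : Fin g × Fin n → 𝓞 K) (e : ℕ)
    (τ : Fin n → ℕ) (s : Fin n → ℕ) (k : Fin g → ℕ) : 𝓞 K :=
  (∏ σ, kap x k σ ^ τ σ) * bint dd β e k s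

lemma house_coeffInt_le (x : Fin g → Fin n → 𝓞 K) (A : Fin g → Fin n → K) (dd : ℕ)
    (β : Fin g × Fin n → 𝓞 K) {A₀ A₁ l : ℕ} (hx : ∀ j σ, house (x j σ : K) ≤ 2 ^ A₁)
    (hdd : (dd : ℝ) ≤ 2 ^ A₀) (hβ : ∀ i, house (β i : K) ≤ 2 ^ A₀) (e : ℕ)
    (τ : Fin n → ℕ) (s : Fin n → ℕ) (k : Fin g → Fin (2 ^ l))
    (he : ∑ j, ∑ j', (k j : ℕ) * s j' ≤ e) {t : ℕ} (hτ : ∑ j, τ j ≤ t) :
    house (coeffInt x dd β e τ s (fun i => (k i : ℕ)) : K) ≤ 2 ^ ((g + A₁ + l) * t + A₀ * e) := by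
  have h3 : ∀ z : 𝓞 K, (z : K) = algebraMap (𝓞 K) K z := fun _ => rfl
  have h6 : (coeffInt x dd β e τ s (fun i => (k i : ℕ)) : K) =
      (∏ σ, (kap x (fun i => (k i : ℕ)) σ : K) ^ τ σ) * (bint dd β e (fun i => (k i : ℕ)) s : K) := by
    unfold coeffInt
    rw [h3, map_mul, map_prod]
    simp only [map_pow]
  rw [h6]
  calc _ ≤ house (∏ σ, (kap x (fun i => (k i : ℕ)) σ : K) ^ τ σ) *
        house (bint dd β e (fun i => (k i : ℕ)) s : K) := house_mul_le _ _
    _ ≤ (∏ σ, (2 ^ (g + A₁ + l) : ℝ) ^ τ σ) * 2 ^ (A₀ * e) := by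
        gcongr
        · exact house_nonneg _
        · refine (house_prod_le' _ _).trans ?_
          apply Finset.prod_le_prod (fun _ _ => house_nonneg _)
          intro σ _
          exact (house_pow_le _ _).trans (pow_le_pow_left₀ (house_nonneg _) (house_kap_le x hx k σ) _)
        · exact house_bint_le A dd β hdd hβ e _ s he
    _ ≤ (2 ^ (g + A₁ + l)) ^ t * 2 ^ (A₀ * e) := by
        rw [Finset.prod_pow_eq_pow_sum]
        gcongr
        exact one_le_pow₀ (by norm_num)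
    _ = 2 ^ ((g + A₁ + l) * t + A₀ * e) := by rw [← pow_mul, ← pow_add]

end

theorem stCore (hS : StSchwarz) (hM : StMoments) : StCore := by
  intro p hp C _ _ _ _ K _ _ φ n g hn hng x hx y hy hdet A hA
  classical
  have hchar : CharZero C := charZero_of_injective_algebraMap (algebraMap ℚ_[p] C).injective
  have hp2 : ‖(p : C) ^ 2‖ ≤ 1 / 4 := by
    have h1 : ‖(p : C)‖ = (p : ℝ)⁻¹ := by
      have h2 : ‖algebraMap ℚ_[p] C (p : ℚ_[p])‖ = ‖(p : ℚ_[p])‖ := norm_algebraMap' C _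
      rw [map_natCast] at h2
      rw [h2, Padic.norm_p]
    rw [norm_pow, h1, inv_pow]
    have h2 : (2 : ℝ) ≤ p := by exact_mod_cast hp.out.two_le
    rw [inv_le_comm₀ (by positivity) (by norm_num)]
    nlinarith
  have hy4 : ∀ j σ, ‖y j σ‖ ≤ 1 / 4 := fun j σ => (hy j σ).trans hp2
  obtain ⟨dd, β, A₀, hdd0, hβ, hddA, hβA⟩ := exists_denominator K
    (fun ki : Fin g × Fin n => A ki.1 ki.2)
  obtain ⟨A₁, hA₁⟩ : ∃ A₁ : ℕ, ∀ j σ, house (x j σ : K) ≤ 2 ^ A₁ := by
    obtain ⟨A₁, h⟩ := pow_unbounded_of_one_lt (∑ j, ∑ σ, house (x j σ : K)) one_lt_two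
    refine ⟨A₁, fun j σ => le_trans ?_ h.le⟩
    have h1 := Finset.single_le_sum (f := fun σ => house (x j σ : K))
      (fun j _ => house_nonneg _) (Finset.mem_univ σ)
    have h2 := Finset.single_le_sum (f := fun j => ∑ σ, house (x j σ : K))
      (fun j _ => Finset.sum_nonneg (fun _ _ => house_nonneg _)) (Finset.mem_univ j)
    exact h1.trans h2
  obtain ⟨A₂, hA₂⟩ : ∃ A₂ : ℕ, ∀ σ j, ‖(Matrix.of y)⁻¹ σ j‖ ≤ 2 ^ A₂ := by
    obtain ⟨A₂, h⟩ := pow_unbounded_of_one_lt (∑ σ, ∑ j, ‖(Matrix.of y)⁻¹ σ j‖) one_lt_two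
    refine ⟨A₂, fun j σ => le_trans ?_ h.le⟩
    have h1 := Finset.single_le_sum (f := fun σ => ‖(Matrix.of y)⁻¹ j σ‖)
      (fun j _ => norm_nonneg _) (Finset.mem_univ σ)
    have h2 := Finset.single_le_sum (f := fun j => ∑ σ, ‖(Matrix.of y)⁻¹ j σ‖)
      (fun j _ => Finset.sum_nonneg (fun _ _ => norm_nonneg _)) (Finset.mem_univ j)
    exact h1.trans h2
  obtain ⟨c, hc1, hsiegel⟩ := siegel K
  obtain ⟨c₀, hc₀⟩ := pow_unbounded_of_one_lt c one_lt_two
  set N0 := finrank ℚ K * n with hN0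
  set M1 := 4 * N0 * A₀ * g * n + 1 with hM1
  set M2 := 2 * (A₂ * n + 2 + N0 * (4 * g + c₀ + 2 * A₁ + 2)) + 2 with hM2
  obtain ⟨l, hl⟩ := exists_param (M1 * M2) n
  set D := 2 ^ l with hD
  set T := M1 * D with hT
  set S := M2 * (l + 1) with hSdef
  set e := g * n * D * S with he
  have hDpos : 0 < D := by positivity
  have hT1 : 1 ≤ T := Nat.mul_pos (by omega) hDpos
  have hS2 : 2 ≤ S := by
    calc 2 ≤ M2 := by omega
      _ ≤ M2 * (l + 1) := Nat.le_mul_of_pos_right _ (by omega)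
  have hE : ∀ (k : Fin g → Fin D) (s : Fin n → ℕ), (∀ j, s j < S) →
      ∑ j, ∑ j', (k j : ℕ) * s j' ≤ e := by
    intro k s hs
    calc ∑ j, ∑ j', (k j : ℕ) * s j' ≤ ∑ _j : Fin g, ∑ _j' : Fin n, D * S := by
          apply Finset.sum_le_sum
          intro j _
          apply Finset.sum_le_sum
          intro j' _
          exact Nat.mul_le_mul (k j).isLt.le (hs j').le
      _ = e := by simp [he]; ring
  -- Siegel
  let α := {τ // τ ∈ expSet n T} × (Fin n → Fin S)
  let ι := Fin g → Fin D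
  have hιcard : Fintype.card ι = D ^ g := by simp [ι]
  have hαcard : Fintype.card α ≤ T ^ n * S ^ n := by
    simp only [α, Fintype.card_prod, Fintype.card_coe, Fintype.card_fun, Fintype.card_fin]
    exact Nat.mul_le_mul_right _ (card_expSet_le n T)
  have hα0 : 0 < Fintype.card α := by
    apply Fintype.card_pos_iff.mpr
    refine ⟨⟨⟨fun _ => 0, ?_⟩, fun _ => ⟨0, by omega⟩⟩⟩
    rw [expSet, Finset.mem_biUnion]
    exact ⟨0, Finset.mem_range.mpr hT1, by simp; rfl⟩
  have hαι : 2 * Fintype.card α ≤ Fintype.card ι := by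
    rw [hιcard]
    calc 2 * Fintype.card α ≤ 2 * (T ^ n * S ^ n) := Nat.mul_le_mul_left _ hαcard
      _ = (2 * (M1 * M2 * (l + 1)) ^ n) * D ^ n := by
          rw [hT, hSdef]
          simp only [mul_pow]
          ring
      _ ≤ D * D ^ n := Nat.mul_le_mul_right _ hl
      _ = D ^ (n + 1) := by rw [pow_succ]; ring
      _ ≤ D ^ g := Nat.pow_le_pow_right hDpos hng
  have hsum_expSet : ∀ τ : Fin n → ℕ, τ ∈ expSet n T ↔ ∑ j, τ j < T := by
    intro τ
    rw [expSet, Finset.mem_biUnion]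
    constructor
    · rintro ⟨j, hj, h⟩
      rw [Finset.mem_piAntidiag] at h
      rw [h.1]
      exact Finset.mem_range.mp hj
    · intro h
      exact ⟨_, Finset.mem_range.mpr h, by simp [Finset.mem_piAntidiag]⟩
  obtain ⟨ξ, hξ0, hξ, hξb⟩ := hsiegel α ι
    (fun a k => coeffInt x dd β e a.1.1 (fun j => (a.2 j : ℕ)) (fun i => (k i : ℕ)))
    (2 ^ ((g + A₁ + l) * T + A₀ * e)) (one_le_pow₀ (by norm_num))
    (by
      intro a k
      apply house_coeffInt_le x A dd β hA₁ hddA hβA e _ _ k (hE k _ (fun j => (a.2 j).isLt))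
      exact ((hsum_expSet _).mp a.1.2).le)
    hα0 hαι
  -- the linear forms
  let Λ : (Fin n → ℕ) → (Fin n → ℕ) → 𝓞 K := fun τ s =>
    ∑ k : ι, coeffInt x dd β e τ s (fun i => (k i : ℕ)) * ξ k
  have hΛφ : ∀ (τ s : Fin n → ℕ), (∀ j, s j < S) → φ (Λ τ s : K) = (dd : C) ^ e *
      ∑ k : ι, (φ (ξ k : K) * φ (apow A (fun i => (k i : ℕ)) s)) *
        ∏ σ, φ (kap x (fun i => (k i : ℕ)) σ : K) ^ τ σ := by
    intro τ s hs
    have h3 : ∀ z : 𝓞 K, (z : K) = algebraMap (𝓞 K) K z := fun _ => rfl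
    have h4 : (Λ τ s : K) = ∑ k : ι, ((∏ σ, (kap x (fun i => (k i : ℕ)) σ : K) ^ τ σ) *
        ((dd : K) ^ e * apow A (fun i => (k i : ℕ)) s)) * (ξ k : K) := by
      simp only [Λ]
      rw [h3, map_sum]
      apply Finset.sum_congr rfl
      intro k _
      rw [map_mul]
      congr 1
      unfold coeffInt
      rw [map_mul, map_prod]
      simp only [map_pow]
      congr 1
      exact bint_coe A dd β hβ e _ s (hE k s hs)
    rw [h4, map_sum, Finset.mul_sum]
    apply Finset.sum_congr rfl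
    intro k _
    rw [map_mul, map_mul, map_mul, map_pow, map_natCast, map_prod]
    simp only [map_pow]
    ring
  have hddC : (dd : C) ^ e ≠ 0 := pow_ne_zero _ (by exact_mod_cast hdd0)
  have hΛzero : ∀ (τ s : Fin n → ℕ), (∀ j, s j < S) → (Λ τ s = 0 ↔
      ∑ k : ι, (φ (ξ k : K) * φ (apow A (fun i => (k i : ℕ)) s)) *
        ∏ σ, φ (kap x (fun i => (k i : ℕ)) σ : K) ^ τ σ = 0) := by
    intro τ s hs
    have h3 : Λ τ s = 0 ↔ φ (Λ τ s : K) = 0 := by
      rw [map_eq_zero]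
      exact (RingOfIntegers.coe_eq_zero_iff).symm
    rw [h3, hΛφ τ s hs, mul_eq_zero]
    exact ⟨fun h => h.resolve_left hddC, Or.inr⟩
  -- vanishing at all orders
  have hVall : ∀ t, T ≤ t → ∀ s : Fin n → ℕ, (∀ j, s j < S) → ∀ τ : Fin n → ℕ, ∑ j, τ j < t →
      ∑ k : ι, (φ (ξ k : K) * φ (apow A (fun i => (k i : ℕ)) s)) *
        ∏ σ, φ (kap x (fun i => (k i : ℕ)) σ : K) ^ τ σ = 0 := by
    intro t ht
    induction t, ht using Nat.le_induction with
    | base =>
      intro s hs τ hτ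
      rw [← hΛzero τ s hs]
      exact hξ (⟨τ, (hsum_expSet τ).mpr hτ⟩, fun j => ⟨s j, hs j⟩)
    | succ t ht ih =>
      intro s hs τ hτ
      by_cases hτt : ∑ j, τ j < t
      · exact ih s hs τ hτt
      have hτt' : ∑ j, τ j = t := by omega
      by_contra hne
      have hΛne : Λ τ s ≠ 0 := fun h => hne ((hΛzero τ s hs).mp h)
      -- house
      set h := 2 * l * g + c₀ + (g + A₁ + l) * (T + t) + 2 * A₀ * e with hh
      have hhouse : house (Λ τ s : K) ≤ 2 ^ h := by
        have h3 : ∀ z : 𝓞 K, (z : K) = algebraMap (𝓞 K) K z := fun _ => rfl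
        have h4 : (Λ τ s : K) = ∑ k : ι, (coeffInt x dd β e τ s (fun i => (k i : ℕ)) : K) * (ξ k : K) := by
          simp only [Λ]
          rw [h3, map_sum]
          apply Finset.sum_congr rfl
          intro k _
          rw [map_mul]
        rw [h4]
        have h5 : ((Fintype.card ι : ℕ) : ℝ) = 2 ^ (l * g) := by
          rw [hιcard, hD]
          push_cast
          rw [← pow_mul]
        calc house (∑ k : ι, (coeffInt x dd β e τ s (fun i => (k i : ℕ)) : K) * (ξ k : K)) ≤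
              ∑ k : ι, house ((coeffInt x dd β e τ s (fun i => (k i : ℕ)) : K) * (ξ k : K)) :=
              house_sum_le_sum_house _ _
          _ ≤ ∑ _k : ι, (2 ^ ((g + A₁ + l) * t + A₀ * e) : ℝ) *
              (2 ^ c₀ * (Fintype.card ι : ℝ) * 2 ^ ((g + A₁ + l) * T + A₀ * e)) := by
              apply Finset.sum_le_sum
              intro k _
              refine (house_mul_le _ _).trans ?_
              have h6 := hξb k
              have h7 : c * (Fintype.card ι : ℝ) * 2 ^ ((g + A₁ + l) * T + A₀ * e) ≤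
                  2 ^ c₀ * (Fintype.card ι : ℝ) * 2 ^ ((g + A₁ + l) * T + A₀ * e) := by
                gcongr
              gcongr
              · exact house_nonneg _
              · exact house_coeffInt_le x A dd β hA₁ hddA hβA e τ s k (hE k s hs) hτt'.le
              · exact h6.trans h7
          _ = 2 ^ h := by
              rw [Finset.sum_const, Finset.card_univ, nsmul_eq_mul, h5, hh]
              simp only [← pow_add]
              congr 1
              ring
      have hliou := liouville (p := p) φ (Λ τ s) hΛne hhouse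
      -- upper bound
      set q : ℝ := 4 * (1 / 2 : ℝ) ^ S with hq
      have hq0 : 0 ≤ q := by positivity
      set M : ℝ := (q ^ t) ^ ((n : ℝ)⁻¹) with hMdef
      have hM0 : 0 ≤ M := by positivity
      have hMn : M ^ n = q ^ t := Real.rpow_inv_natCast_pow (by positivity) (by omega)
      have hu : ∀ a : Fin n → ℕ, ∑ j, a j = ∑ j, τ j →
          ‖∑ k : ι, (φ (ξ k : K) * φ (apow A (fun i => (k i : ℕ)) s)) *
            ∏ j, ell φ x y (fun i => (k i : ℕ)) j ^ a j‖ ≤ M := by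
        intro a ha
        have h1 := upper (p := p) hS φ x y hn hy A hA ξ S t hS2 ih s hs a (by omega)
        rw [← hMn] at h1
        exact (pow_le_pow_iff_left₀ (norm_nonneg _) hM0 (by omega)).mp h1
      have hinv : ∀ (k : ι) (σ : Fin n), φ (kap x (fun i => (k i : ℕ)) σ : K) =
          ∑ j, (Matrix.of y)⁻¹ σ j * ell φ x y (fun i => (k i : ℕ)) j := by
        intro k σ
        have h1 : (fun j => ell φ x y (fun i => (k i : ℕ)) j) =
            (Matrix.of y).mulVec (fun σ => φ (kap x (fun i => (k i : ℕ)) σ : K)) := by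
          funext j
          rfl
        have h2 : (Matrix.of y)⁻¹.mulVec (fun j => ell φ x y (fun i => (k i : ℕ)) j) =
            fun σ => φ (kap x (fun i => (k i : ℕ)) σ : K) := by
          rw [h1, Matrix.mulVec_mulVec, Matrix.nonsing_inv_mul _ (isUnit_iff_ne_zero.mpr hdet),
            Matrix.one_mulVec]
        have h3 := congrFun h2 σ
        rw [← h3]
        rfl
      have hU := conv (fun k : ι => φ (ξ k : K) * φ (apow A (fun i => (k i : ℕ)) s))
        (fun k j => ell φ x y (fun i => (k i : ℕ)) j)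
        (fun k σ => φ (kap x (fun i => (k i : ℕ)) σ : K)) (fun σ j => (Matrix.of y)⁻¹ σ j)
        hinv (B := 2 ^ A₂) (by positivity) hA₂ τ hM0 hu
      rw [hτt'] at hU
      have hφΛ : ‖φ (Λ τ s : K)‖ ≤ (2 ^ A₂) ^ t * M := by
        rw [hΛφ τ s hs, norm_mul, norm_pow]
        calc ‖(dd : C)‖ ^ e * _ ≤ 1 * ((2 ^ A₂) ^ t * M) := by
              gcongr
              exact pow_le_one₀ (norm_nonneg _) (IsUltrametricDist.norm_natCast_le_one C dd)
          _ = _ := one_mul _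
      have h10 : (1 : ℝ) ≤ ((2 ^ A₂) ^ t) ^ n * q ^ t * ((2 ^ h) ^ (finrank ℚ K)) ^ n := by
        calc (1 : ℝ) ≤ (‖φ (Λ τ s : K)‖ * (2 ^ h) ^ (finrank ℚ K)) ^ n := one_le_pow₀ hliou
          _ ≤ (((2 ^ A₂) ^ t * M) * (2 ^ h) ^ (finrank ℚ K)) ^ n := by gcongr
          _ = _ := by rw [mul_pow, mul_pow, hMn]
      have h11 := param_ineq N0 A₀ A₁ A₂ c₀ g n l t D S T M1 M2 hM1 hM2 hT hSdef ht (by omega)
      have h12 : ((2 ^ A₂) ^ t) ^ n * q ^ t * ((2 ^ h) ^ (finrank ℚ K)) ^ n =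
          (2 : ℝ) ^ (A₂ * t * n + 2 * t + h * N0) * (1 / 2) ^ (S * t) := by
        rw [hq, mul_pow]
        have h13 : (4 : ℝ) ^ t = 2 ^ (2 * t) := by
          rw [pow_mul]; norm_num
        rw [h13, ← pow_mul, ← pow_mul, ← pow_mul, ← pow_mul, ← pow_mul, hN0, pow_add, pow_add]
        ring
      rw [h12] at h10
      have h15 : (2 : ℝ) ^ (A₂ * t * n + 2 * t + h * N0) * (1 / 2) ^ (S * t) < 1 := by
        calc (2 : ℝ) ^ (A₂ * t * n + 2 * t + h * N0) * (1 / 2) ^ (S * t) <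
              2 ^ (S * t) * (1 / 2) ^ (S * t) := by
              gcongr
              · norm_num
          _ = 1 := by rw [← mul_pow]; norm_num
      linarith
  -- conclusion
  have hzero : ∀ τ : Fin n → ℕ, ∑ k : ι, (ξ k : K) *
      ∏ σ, (kap x (fun i => (k i : ℕ)) σ : K) ^ τ σ = 0 := by
    intro τ
    have h1 := hVall (max T (∑ j, τ j + 1)) (le_max_left _ _) (fun _ => 0) (fun _ => by omega) τ
      (lt_of_lt_of_le (Nat.lt_succ_self _) (le_max_right _ _))
    have h2 : ∀ k : ι, apow A (fun i => (k i : ℕ)) (fun _ => 0) = 1 := by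
      intro k
      simp [apow]
    simp only [h2, map_one, mul_one] at h1
    have h3 : φ (∑ k : ι, (ξ k : K) * ∏ σ, (kap x (fun i => (k i : ℕ)) σ : K) ^ τ σ) = 0 := by
      rw [← h1, map_sum]
      apply Finset.sum_congr rfl
      intro k _
      rw [map_mul, map_prod]
      simp only [map_pow]
    exact (map_eq_zero φ).mp h3
  have hinj : Function.Injective (fun (k : ι) (σ : Fin n) => (kap x (fun i => (k i : ℕ)) σ : K)) := by
    intro k k' h
    have h1 := hx (fun i => (k i : ℕ)) (fun i => (k' i : ℕ)) (fun σ => by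
      have h2 := congrFun h σ
      exact RingOfIntegers.coe_injective h2)
    funext i
    exact Fin.ext (congrFun h1 i)
  have hfin := hM K n ι (fun k σ => (kap x (fun i => (k i : ℕ)) σ : K)) hinj
    (fun k => (ξ k : K)) hzero
  apply hξ0
  funext k
  have h1 := congrFun hfin k
  exact RingOfIntegers.coe_eq_zero_iff.mp h1

end Pool.Agent.Lib.MP_c50dba_nt.Gen
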