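import Pool.Agent.Lib.MP_c50dba_nt.Gen.Spec

set_option autoImplicit false

/-!
Analytic and linear algebra lemmas for the core theorem.
-/

namespace Pool.Agent.Lib.MP_c50dba_nt.Gen

open Pool.Agent.Lib.MP_c50dba_nt

section analytic

variable {p : ℕ} [hp : Fact p.Prime] {C : Type} [NormedField C] [CompleteSpace C]
  [IsUltrametricDist C] [NormedAlgebra ℚ_[p] C]

include hp in
omit [CompleteSpace C] in
lemma norm_ex_le {w : C} (hw : ‖w‖ ≤ 1 / 4) : ‖ex w‖ ≤ 1 := by
  unfold ex
  apply IsUltrametricDist.norm_tsum_le_of_forall_le_of_nonneg (by norm_num)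
  intro k
  refine (norm_div_factorial_le (p := p) w k).trans ?_
  apply pow_le_one₀ (by positivity)
  linarith

omit [CompleteSpace C] [IsUltrametricDist C] in
include hp in
lemma tc_term (w z : C) (b m : ℕ) :
    ((m + b).choose b : C) * ecoef w (m + b) * z ^ m =
      ecoef w b * ((w * z) ^ m / (m.factorial : C)) := by
  have : CharZero C := charZero_of_injective_algebraMap (algebraMap ℚ_[p] C).injective
  have h1 := Nat.add_choose_mul_factorial_mul_factorial m b
  have h2 : ((m + b).choose b : C) * (m.factorial : C) * (b.factorial : C) =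
      ((m + b).factorial : C) := by
    exact_mod_cast h1
  have h4 : (m.factorial : C) ≠ 0 := by exact_mod_cast m.factorial_ne_zero
  have h5 : (b.factorial : C) ≠ 0 := by exact_mod_cast b.factorial_ne_zero
  have h6 : ((m + b).factorial : C) ≠ 0 := by exact_mod_cast (m + b).factorial_ne_zero
  unfold ecoef
  rw [mul_pow]
  field_simp
  rw [← h2, pow_add]
  ring

include hp in
lemma tc_sum {ι : Type} [Fintype ι] (c w : ι → C) {z : C} (hw : ∀ k, ‖w k‖ ≤ 1)
    (hz : ‖z‖ ≤ 1 / 4) (b : ℕ) :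
    tc (fun m => ∑ k, c k * ecoef (w k) m) z b = ∑ k, c k * (ecoef (w k) b * ex (w k * z)) := by
  unfold tc
  have hwz : ∀ k, ‖w k * z‖ ≤ 1 / 4 := by
    intro k
    rw [norm_mul]
    calc ‖w k‖ * ‖z‖ ≤ 1 * (1 / 4) := by
          gcongr
          exact hw k
      _ = 1 / 4 := one_mul _
  have h1 : ∀ m, ((m + b).choose b : C) * (∑ k, c k * ecoef (w k) (m + b)) * z ^ m =
      ∑ k, c k * (ecoef (w k) b * ((w k * z) ^ m / (m.factorial : C))) := by
    intro m
    rw [Finset.mul_sum, Finset.sum_mul]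
    apply Finset.sum_congr rfl
    intro k _
    rw [← tc_term (p := p)]
    ring
  simp only [h1]
  have hs : ∀ k, Summable (fun m : ℕ => (w k * z) ^ m / (m.factorial : C)) :=
    fun k => (summable_norm_ex (p := p) (hwz k)).of_norm
  rw [Summable.tsum_finsetSum (fun k _ => ((hs k).mul_left _).mul_left _)]
  apply Finset.sum_congr rfl
  intro k _
  rw [tsum_mul_left, tsum_mul_left]
  rfl

include hp in
/-- Extrapolation for exponential sums. -/
lemma extrap (hS : StSchwarz) {ι : Type} [Fintype ι] (c w : ι → C) (hc : ∀ k, ‖c k‖ ≤ 1)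
    (hw : ∀ k, ‖w k‖ ≤ 1) {ϖ : C} (hϖ : ‖ϖ‖ ≤ 1 / 4) (hϖ0 : ϖ ≠ 0) (S m : ℕ)
    (hz : ∀ i < S, ∀ b < m, ∑ k, c k * (w k) ^ b * ex (w k * ((i : C) * ϖ)) = 0) (i₀ : ℕ) :
    ‖∑ k, c k * (w k) ^ m * ex (w k * ((i₀ : C) * ϖ))‖ ≤ 4 ^ m * (1 / 2) ^ (S * m) := by
  classical
  have : CharZero C := charZero_of_injective_algebraMap (algebraMap ℚ_[p] C).injective
  set f : ℕ → C := fun m => ∑ k, c k * ecoef (w k) m with hf
  have hfb : ∀ m, ‖f m‖ ≤ 1 * 2 ^ m := by
    intro m
    rw [one_mul]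
    apply IsUltrametricDist.norm_sum_le_of_forall_le_of_nonneg (by positivity)
    intro k _
    rw [norm_mul]
    calc ‖c k‖ * ‖ecoef (w k) m‖ ≤ 1 * 2 ^ m := by
          gcongr
          · exact hc k
          · exact norm_ecoef_le (p := p) (hw k) m
      _ = 2 ^ m := one_mul _
  have hin : ∀ i : ℕ, ‖(i : C) * ϖ‖ ≤ 1 / 4 := by
    intro i
    rw [norm_mul]
    calc ‖(i : C)‖ * ‖ϖ‖ ≤ 1 * (1 / 4) := by
          gcongr
          exact IsUltrametricDist.norm_natCast_le_one C i
      _ = 1 / 4 := one_mul _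
  have hval : ∀ (i b : ℕ), tc f ((i : C) * ϖ) b =
      (∑ k, c k * (w k) ^ b * ex (w k * ((i : C) * ϖ))) / (b.factorial : C) := by
    intro i b
    rw [hf, tc_sum (p := p) c w hw (hin i), Finset.sum_div]
    apply Finset.sum_congr rfl
    intro k _
    unfold ecoef
    ring
  set s : Finset C := (Finset.range S).image (fun i : ℕ => (i : C) * ϖ) with hs
  have hcard : s.card = S := by
    rw [hs, Finset.card_image_of_injective, Finset.card_range]
    intro i j hij
    have h1 := mul_right_cancel₀ hϖ0 hij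
    exact_mod_cast h1
  have hzero : ∀ a ∈ s, ‖a‖ ≤ 1 / 4 ∧ ∀ b < m, tc f a b = 0 := by
    intro a ha
    rw [hs, Finset.mem_image] at ha
    obtain ⟨i, hi, rfl⟩ := ha
    refine ⟨hin i, fun b hb => ?_⟩
    rw [hval, hz i (Finset.mem_range.mp hi) b hb, zero_div]
  have h1 := hS C f 1 zero_le_one hfb s m hzero ((i₀ : C) * ϖ) (hin i₀)
  rw [hcard, one_mul, hval] at h1
  have h2 : (m.factorial : C) ≠ 0 := by exact_mod_cast m.factorial_ne_zero
  have h3 : ∑ k, c k * (w k) ^ m * ex (w k * ((i₀ : C) * ϖ)) = (m.factorial : C) *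
      ((∑ k, c k * (w k) ^ m * ex (w k * ((i₀ : C) * ϖ))) / (m.factorial : C)) :=
    (mul_div_cancel₀ _ h2).symm
  rw [h3, norm_mul]
  calc ‖(m.factorial : C)‖ * ‖(∑ k, c k * (w k) ^ m * ex (w k * ((i₀ : C) * ϖ))) / (m.factorial : C)‖
      ≤ 1 * (4 ^ m * (1 / 2) ^ (S * m)) := by
        gcongr
        exact IsUltrametricDist.norm_natCast_le_one C _
    _ = _ := one_mul _

end analytic

section linear

variable {C : Type} [NormedField C] [IsUltrametricDist C]

/-- Change of coordinates in sums of monomials. -/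
lemma conv_aux {ι : Type} [Fintype ι] {n : ℕ} (c : ι → C) (u v : ι → Fin n → C)
    (Z : Fin n → Fin n → C) (hZ : ∀ k σ, v k σ = ∑ j, Z σ j * u k j) {B : ℝ}
    (hZB : ∀ σ j, ‖Z σ j‖ ≤ B) {N : ℕ} {M : ℝ} (hM0 : 0 ≤ M)
    (hM : ∀ b : Fin n → ℕ, ∑ j, b j = N → ‖∑ k, c k * ∏ j, u k j ^ b j‖ ≤ M) :
    ∀ (m : ℕ) (a b : Fin n → ℕ), ∑ j, a j = m → ∑ j, b j + m = N → 0 ≤ B →
      ‖∑ k, c k * ((∏ σ, v k σ ^ a σ) * ∏ j, u k j ^ b j)‖ ≤ B ^ m * M := by
  intro m
  induction m with
  | zero =>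
    intro a b ha hb _
    have ha0 : ∀ j, a j = 0 := by
      intro j
      exact (Finset.sum_eq_zero_iff.mp ha) j (Finset.mem_univ j)
    simp only [ha0, pow_zero, Finset.prod_const_one, one_mul]
    exact hM b (by omega)
  | succ m ih =>
    intro a b ha hb hB
    obtain ⟨σ, hσ⟩ : ∃ σ, a σ ≠ 0 := by
      by_contra h
      push Not at h
      rw [Finset.sum_eq_zero (fun j _ => h j)] at ha
      omega
    obtain ⟨q, hq⟩ := Nat.exists_eq_succ_of_ne_zero hσ
    set a' := Function.update a σ q with ha'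
    have ha'sum : ∑ j, a' j = m := by
      have h1 := Finset.add_sum_erase Finset.univ a (Finset.mem_univ σ)
      have h2 := Finset.add_sum_erase Finset.univ a' (Finset.mem_univ σ)
      have h3 : ∑ j ∈ Finset.univ.erase σ, a' j = ∑ j ∈ Finset.univ.erase σ, a j := by
        apply Finset.sum_congr rfl
        intro j hj
        rw [ha', Function.update_of_ne (Finset.ne_of_mem_erase hj)]
      have h4 : a' σ = q := by rw [ha', Function.update_self]
      rw [h3, h4] at h2
      omega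
    have hprod : ∀ k, ∏ τ, v k τ ^ a τ = v k σ * ∏ τ, v k τ ^ a' τ := by
      intro k
      rw [← Finset.mul_prod_erase Finset.univ _ (Finset.mem_univ σ),
        ← Finset.mul_prod_erase Finset.univ (fun τ => v k τ ^ a' τ) (Finset.mem_univ σ)]
      have h3 : ∏ τ ∈ Finset.univ.erase σ, v k τ ^ a' τ = ∏ τ ∈ Finset.univ.erase σ, v k τ ^ a τ := by
        apply Finset.prod_congr rfl
        intro j hj
        rw [ha', Function.update_of_ne (Finset.ne_of_mem_erase hj)]
      rw [h3]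
      have h4 : a' σ = q := by rw [ha', Function.update_self]
      rw [h4, hq, pow_succ]
      ring
    have hprodu : ∀ k j, u k j * ∏ i, u k i ^ b i = ∏ i, u k i ^ (Function.update b j (b j + 1) i) := by
      intro k j
      rw [← Finset.mul_prod_erase Finset.univ _ (Finset.mem_univ j),
        ← Finset.mul_prod_erase Finset.univ (fun i => u k i ^ (Function.update b j (b j + 1) i))
          (Finset.mem_univ j)]
      have h3 : ∏ i ∈ Finset.univ.erase j, u k i ^ (Function.update b j (b j + 1) i) =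
          ∏ i ∈ Finset.univ.erase j, u k i ^ b i := by
        apply Finset.prod_congr rfl
        intro i hi
        rw [Function.update_of_ne (Finset.ne_of_mem_erase hi)]
      rw [h3, Function.update_self, pow_succ]
      ring
    have hsum : ∑ k, c k * ((∏ τ, v k τ ^ a τ) * ∏ j, u k j ^ b j) =
        ∑ j, Z σ j * ∑ k, c k * ((∏ τ, v k τ ^ a' τ) *
          ∏ i, u k i ^ (Function.update b j (b j + 1) i)) := by
      simp only [Finset.mul_sum]
      rw [Finset.sum_comm]
      apply Finset.sum_congr rfl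
      intro k _
      rw [hprod, hZ, Finset.sum_mul, Finset.sum_mul, Finset.mul_sum]
      apply Finset.sum_congr rfl
      intro j _
      rw [← hprodu]
      ring
    rw [hsum]
    apply IsUltrametricDist.norm_sum_le_of_forall_le_of_nonneg (by positivity)
    intro j _
    rw [norm_mul]
    have h5 : ∑ i, Function.update b j (b j + 1) i + m = N := by
      have h1 := Finset.add_sum_erase Finset.univ b (Finset.mem_univ j)
      have h2 := Finset.add_sum_erase Finset.univ (Function.update b j (b j + 1)) (Finset.mem_univ j)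
      have h3 : ∑ i ∈ Finset.univ.erase j, Function.update b j (b j + 1) i =
          ∑ i ∈ Finset.univ.erase j, b i := by
        apply Finset.sum_congr rfl
        intro i hi
        rw [Function.update_of_ne (Finset.ne_of_mem_erase hi)]
      rw [h3, Function.update_self] at h2
      omega
    calc ‖Z σ j‖ * ‖∑ k, c k * ((∏ τ, v k τ ^ a' τ) *
          ∏ i, u k i ^ (Function.update b j (b j + 1) i))‖ ≤ B * (B ^ m * M) := by
          gcongr
          · exact hZB σ j
          · exact ih a' _ ha'sum h5 hB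
      _ = B ^ (m + 1) * M := by rw [pow_succ]; ring

lemma conv {ι : Type} [Fintype ι] {n : ℕ} (c : ι → C) (u v : ι → Fin n → C)
    (Z : Fin n → Fin n → C) (hZ : ∀ k σ, v k σ = ∑ j, Z σ j * u k j) {B : ℝ} (hB : 0 ≤ B)
    (hZB : ∀ σ j, ‖Z σ j‖ ≤ B) (a : Fin n → ℕ) {M : ℝ} (hM0 : 0 ≤ M)
    (hM : ∀ b : Fin n → ℕ, ∑ j, b j = ∑ j, a j → ‖∑ k, c k * ∏ j, u k j ^ b j‖ ≤ M) :
    ‖∑ k, c k * ∏ σ, v k σ ^ a σ‖ ≤ B ^ (∑ j, a j) * M := by
  have h := conv_aux c u v Z hZ hZB hM0 hM (∑ j, a j) a 0 rfl (by simp) hB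
  simpa using h

end linear

/-- Parameters. -/
lemma exists_param (M n : ℕ) : ∃ l : ℕ, 2 * (M * (l + 1)) ^ n ≤ 2 ^ l := by
  have h1 : Filter.Tendsto (fun l : ℕ => ((l : ℝ) ^ n / 2 ^ l)) Filter.atTop (nhds 0) :=
    tendsto_pow_const_div_const_pow_of_one_lt n one_lt_two
  have h2 : Filter.Tendsto (fun l : ℕ => (((l + 1 : ℕ) : ℝ) ^ n / 2 ^ (l + 1))) Filter.atTop (nhds 0) :=
    h1.comp (Filter.tendsto_add_atTop_nat 1)
  have hpos : (0 : ℝ) < 1 / (4 * ((M : ℝ) ^ n + 1)) := by positivity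
  obtain ⟨l, hl⟩ := (h2.eventually (gt_mem_nhds hpos)).exists
  refine ⟨l, ?_⟩
  have h3 : ((l + 1 : ℕ) : ℝ) ^ n < 1 / (4 * ((M : ℝ) ^ n + 1)) * 2 ^ (l + 1) := by
    rwa [div_lt_iff₀ (by positivity)] at hl
  have h4 : (2 : ℝ) * ((M : ℝ) * (l + 1)) ^ n ≤ 2 ^ l := by
    have h5 : ((l : ℝ) + 1) ^ n * (4 * ((M : ℝ) ^ n + 1)) < 2 ^ (l + 1) := by
      have h6 : ((l + 1 : ℕ) : ℝ) = (l : ℝ) + 1 := by push_cast; ring
      rw [h6] at h3
      rw [one_div, inv_mul_eq_div, lt_div_iff₀ (by positivity)] at h3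
      exact h3
    rw [pow_succ] at h5
    rw [mul_pow]
    have h7 : (0 : ℝ) ≤ ((l : ℝ) + 1) ^ n := by positivity
    nlinarith [mul_nonneg h7 (pow_nonneg (Nat.cast_nonneg M : (0 : ℝ) ≤ M) n)]
  exact_mod_cast h4

end Pool.Agent.Lib.MP_c50dba_nt.Gen
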