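import Pool.Agent.Lib.MP_c50dba_nt.Gen.Spec

set_option autoImplicit false

/-!
# F4: sets of integers without multiplicative cubes have density zero
-/

namespace Pool.Agent.Lib.MP_c50dba_nt.Gen

open scoped BigOperators

theorem stDensity (h1 : StBox) (h2 : StPrimes) (h3 : StSieve) : StDensity := by
  classical
  intro p k ε hε
  set s : ℝ := max 1 (Real.log (4 * (k + 1) / ε)) with hs
  have hs1 : 1 ≤ s := le_max_left _ _
  have hs0 : 0 < s := by linarith
  have hsexp : (k : ℝ) * Real.exp (-s) ≤ ε / 4 := by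
    have h : Real.exp (-s) ≤ ε / (4 * (k + 1)) := by
      calc Real.exp (-s) ≤ Real.exp (-(Real.log (4 * (k + 1) / ε))) := by
            apply Real.exp_le_exp.2
            have := le_max_right 1 (Real.log (4 * (k + 1) / ε))
            linarith
        _ = ε / (4 * (k + 1)) := by
            rw [Real.exp_neg, Real.exp_log (by positivity), inv_div]
    calc (k : ℝ) * Real.exp (-s) ≤ k * (ε / (4 * (k + 1))) := by gcongr
      _ ≤ ε / 4 := by
        rw [mul_div_assoc', div_le_div_iff₀ (by positivity) (by positivity)]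
        nlinarith
  set δ : ℝ := ε / (4 * (2 * (s + 1)) ^ k) with hδ
  have hδ0 : 0 < δ := by positivity
  obtain ⟨R, hR⟩ := h1 k δ hδ0
  obtain ⟨J, P, X, hP1, hP2, hP3, hP4⟩ := h2 p k R s hs0
  set U : Fin k → Finset ℕ := fun i => Finset.univ.biUnion (P i) with hU
  have hUprime : ∀ i, ∀ q ∈ U i, q.Prime := by
    intro i q hq
    obtain ⟨j, _, hj⟩ := Finset.mem_biUnion.1 hq
    exact (hP2 i j q hj).1
  have hUsum : ∀ i, s ≤ ∑ q ∈ U i, (1 : ℝ) / q := by
    intro i
    rw [hU, Finset.sum_biUnion]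
    · exact (hP4 i).1
    · intro j _ j' _ hjj
      exact hP3 i j i j' (fun h => hjj (Prod.ext_iff.1 h).2)
  set Q : ℝ := ∑ i, ((∏ q ∈ U i, q : ℕ) : ℝ) with hQ
  refine ⟨⌈4 * Q / ε⌉₊, fun N hN 𝔅 hB => ?_⟩
  have hNQ : Q ≤ ε * N / 4 := by
    have h : 4 * Q / ε ≤ N := le_trans (Nat.le_ceil _) (by exact_mod_cast hN)
    rw [div_le_iff₀ hε] at h
    linarith
  -- the sets
  set bad : Fin k → Finset ℕ := fun i =>
    (Finset.Icc 1 N).filter (fun b => ∀ q ∈ U i, ¬ q ∣ b) with hbad
  set Sjm : (Fin k → Fin J) → ℕ → Finset (Fin k → ℕ) := fun j m =>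
    (Fintype.piFinset (fun i => P i (j i))).filter (fun x => m * ∏ i, x i ∈ 𝔅) with hSjm
  set M : (Fin k → Fin J) → ℕ := fun j => N / ∏ i, X i (j i) with hM
  set big : Finset ℕ := (Finset.univ : Finset (Fin k → Fin J)).biUnion fun j =>
    (Finset.Icc 1 (M j)).biUnion fun m => (Sjm j m).image (fun x => m * ∏ i, x i) with hbig
  have hsub : (Finset.Icc 1 N).filter (fun b => b ∈ 𝔅) ⊆ Finset.univ.biUnion bad ∪ big := by
    intro b hb
    obtain ⟨hbN, hb𝔅⟩ := Finset.mem_filter.1 hb
    by_cases hbb : b ∈ Finset.univ.biUnion bad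
    · exact Finset.mem_union_left _ hbb
    · refine Finset.mem_union_right _ ?_
      have h4 : ∀ i, ∃ q ∈ U i, q ∣ b := by
        intro i
        by_contra hc
        push Not at hc
        exact hbb (Finset.mem_biUnion.2 ⟨i, Finset.mem_univ _,
          Finset.mem_filter.2 ⟨hbN, hc⟩⟩)
      choose x hxU hxb using h4
      have h5 : ∀ i, ∃ j, x i ∈ P i j := by
        intro i
        obtain ⟨j, _, hj⟩ := Finset.mem_biUnion.1 (hxU i)
        exact ⟨j, hj⟩
      choose j hj using h5
      have hdvd : ∏ i, x i ∣ b := by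
        refine Fintype.prod_dvd_of_isRelPrime (fun i i' hii => ?_) hxb
        show IsRelPrime (x i) (x i')
        rw [← Nat.coprime_iff_isRelPrime]
        refine (Nat.coprime_primes (hUprime i _ (hxU i)) (hUprime i' _ (hxU i'))).2 fun h => ?_
        have h6 := hP3 i (j i) i' (j i') (fun h => hii (Prod.ext_iff.1 h).1)
        exact Finset.disjoint_left.1 h6 (hj i) (h ▸ hj i')
      obtain ⟨m, hm⟩ := hdvd
      have hb1 : 1 ≤ b := (Finset.mem_Icc.1 hbN).1
      have hbN' : b ≤ N := (Finset.mem_Icc.1 hbN).2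
      have hm1 : 1 ≤ m := by
        rcases Nat.eq_zero_or_pos m with h0 | h0
        · rw [h0, mul_zero] at hm
          omega
        · exact h0
      have hXpos : 0 < ∏ i, X i (j i) := Finset.prod_pos fun i _ => (hP1 i (j i)).2
      have hXx : ∏ i, X i (j i) ≤ ∏ i, x i :=
        Finset.prod_le_prod' fun i _ => (hP2 i (j i) _ (hj i)).2.2.1
      have hmM : m ≤ M j := by
        rw [hM, Nat.le_div_iff_mul_le hXpos]
        calc m * ∏ i, X i (j i) ≤ m * ∏ i, x i := Nat.mul_le_mul_left _ hXx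
          _ = b := by rw [hm, mul_comm]
          _ ≤ N := hbN'
      have hmb : m * ∏ i, x i = b := by rw [hm, mul_comm]
      refine Finset.mem_biUnion.2 ⟨j, Finset.mem_univ _, Finset.mem_biUnion.2 ⟨m,
        Finset.mem_Icc.2 ⟨hm1, hmM⟩, Finset.mem_image.2 ⟨x, Finset.mem_filter.2 ⟨?_, ?_⟩, hmb⟩⟩⟩
      · exact Fintype.mem_piFinset.2 hj
      · rw [hmb]
        exact hb𝔅
  -- the size of the slices
  have hSle : ∀ j m, 1 ≤ m → ((Sjm j m).card : ℝ) ≤ δ * ∏ i, ((P i (j i)).card : ℝ) := by
    intro j m hm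
    by_contra hc
    push Not at hc
    have hpos : 0 < ((Sjm j m).card : ℝ) :=
      lt_of_le_of_lt (mul_nonneg hδ0.le (Finset.prod_nonneg fun i _ => Nat.cast_nonneg _)) hc
    have hne : (Sjm j m).Nonempty := Finset.card_pos.1 (by exact_mod_cast hpos)
    obtain ⟨x₀, hx₀⟩ := hne
    have hcards : ∀ i, R ≤ (P i (j i)).card := by
      intro i
      rcases (hP1 i (j i)).1 with h | h
      · have h6 := Fintype.mem_piFinset.1 (Finset.mem_filter.1 hx₀).1 i
        rw [h] at h6
        exact absurd h6 (Finset.notMem_empty _)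
      · exact h
    obtain ⟨x, x', hx, hx', hxx, hcube⟩ := hR (fun i => P i (j i)) hcards (Sjm j m)
      (Finset.filter_subset _ _) hc.le hpos
    have hxm : ∀ i, x i ∈ P i (j i) := Fintype.mem_piFinset.1 hx
    have hxm' : ∀ i, x' i ∈ P i (j i) := Fintype.mem_piFinset.1 hx'
    have hdis : ∀ i i', i ≠ i' → Disjoint (P i (j i)) (P i' (j i')) := fun i i' hii =>
      hP3 i (j i) i' (j i') (fun h => hii (Prod.ext_iff.1 h).1)
    obtain ⟨S, hS⟩ := hB m x x' hm (fun i => ⟨(hP2 i (j i) _ (hxm i)).1,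
      (hP2 i (j i) _ (hxm' i)).1, (hP2 i (j i) _ (hxm i)).2.1, (hP2 i (j i) _ (hxm' i)).2.1⟩) (by
        rintro (a | a) (b | b) hab
        · change x a = x b at hab
          by_cases h : a = b
          · rw [h]
          · exact absurd (hab ▸ hxm a) (fun h' => Finset.disjoint_left.1 (hdis a b h) (hxm a)
              (by rw [hab]; exact hxm b))
        · change x a = x' b at hab
          by_cases h : a = b
          · subst h
            exact absurd hab (hxx a)
          · exact absurd (hxm' b) (fun _ => Finset.disjoint_left.1 (hdis a b h) (hxm a)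
              (by rw [hab]; exact hxm' b))
        · change x' a = x b at hab
          by_cases h : a = b
          · subst h
            exact absurd hab.symm (hxx a)
          · exact absurd (hxm b) (fun _ => Finset.disjoint_left.1 (hdis a b h) (hxm' a)
              (by rw [hab]; exact hxm b))
        · change x' a = x' b at hab
          by_cases h : a = b
          · rw [h]
          · exact absurd (hxm' a) (fun _ => Finset.disjoint_left.1 (hdis a b h) (hxm' a)
              (by rw [hab]; exact hxm' b)))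
    exact hS (Finset.mem_filter.1 (hcube S)).2
  -- the sum over the blocks
  have hblock : ∀ i, ∑ j, ((P i j).card : ℝ) / X i j ≤ 2 * (s + 1) := by
    intro i
    have h6 : ∀ j, ((P i j).card : ℝ) / X i j ≤ 2 * ∑ q ∈ P i j, (1 : ℝ) / q := by
      intro j
      have hX1 : (0 : ℝ) < X i j := by exact_mod_cast (hP1 i j).2
      have h7 : ∀ q ∈ P i j, (1 : ℝ) / (2 * X i j) ≤ 1 / q := by
        intro q hq
        have hq1 : (0 : ℝ) < q := by exact_mod_cast (hP2 i j q hq).1.pos
        have hq2 : (q : ℝ) ≤ 2 * X i j := by exact_mod_cast (hP2 i j q hq).2.2.2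
        exact one_div_le_one_div_of_le hq1 hq2
      have h8 := Finset.sum_le_sum h7
      rw [Finset.sum_const, nsmul_eq_mul] at h8
      have h9 : ((P i j).card : ℝ) / X i j = 2 * ((P i j).card * (1 / (2 * X i j))) := by
        field_simp
      rw [h9]
      linarith
    calc ∑ j, ((P i j).card : ℝ) / X i j ≤ ∑ j, 2 * ∑ q ∈ P i j, (1 : ℝ) / q :=
          Finset.sum_le_sum fun j _ => h6 j
      _ = 2 * ∑ j, ∑ q ∈ P i j, (1 : ℝ) / q := by rw [Finset.mul_sum]
      _ ≤ 2 * (s + 1) := by
          have := (hP4 i).2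
          linarith
  have hbigcard : (big.card : ℝ) ≤ ε * N / 4 := by
    have h6 : (big.card : ℝ) ≤ ∑ j, ∑ m ∈ Finset.Icc 1 (M j), ((Sjm j m).card : ℝ) := by
      have h7 : big.card ≤ ∑ j, ∑ m ∈ Finset.Icc 1 (M j), (Sjm j m).card := by
        refine le_trans Finset.card_biUnion_le (Finset.sum_le_sum fun j _ => ?_)
        exact le_trans Finset.card_biUnion_le (Finset.sum_le_sum fun m _ => Finset.card_image_le)
      exact_mod_cast h7
    have h8 : ∀ j, ∑ m ∈ Finset.Icc 1 (M j), ((Sjm j m).card : ℝ) ≤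
        δ * N * ∏ i, (((P i (j i)).card : ℝ) / X i (j i)) := by
      intro j
      have hXpos : (0 : ℝ) < ((∏ i, X i (j i) : ℕ) : ℝ) := by
        exact_mod_cast Finset.prod_pos fun i _ => (hP1 i (j i)).2
      calc ∑ m ∈ Finset.Icc 1 (M j), ((Sjm j m).card : ℝ)
          ≤ ∑ m ∈ Finset.Icc 1 (M j), δ * ∏ i, ((P i (j i)).card : ℝ) :=
            Finset.sum_le_sum fun m hm => hSle j m (Finset.mem_Icc.1 hm).1
        _ = (M j : ℝ) * (δ * ∏ i, ((P i (j i)).card : ℝ)) := by
            rw [Finset.sum_const, nsmul_eq_mul, Nat.card_Icc, Nat.add_sub_cancel]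
        _ ≤ ((N : ℝ) / ((∏ i, X i (j i) : ℕ) : ℝ)) * (δ * ∏ i, ((P i (j i)).card : ℝ)) := by
            refine mul_le_mul_of_nonneg_right Nat.cast_div_le ?_
            exact mul_nonneg hδ0.le (Finset.prod_nonneg fun i _ => Nat.cast_nonneg _)
        _ = δ * N * ∏ i, (((P i (j i)).card : ℝ) / X i (j i)) := by
            rw [Finset.prod_div_distrib, Nat.cast_prod]
            ring
    calc (big.card : ℝ) ≤ ∑ j, ∑ m ∈ Finset.Icc 1 (M j), ((Sjm j m).card : ℝ) := h6
      _ ≤ ∑ j : Fin k → Fin J, δ * N * ∏ i, (((P i (j i)).card : ℝ) / X i (j i)) :=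
          Finset.sum_le_sum fun j _ => h8 j
      _ = δ * N * ∏ i, ∑ j, ((P i j).card : ℝ) / X i j := by
          rw [← Finset.mul_sum, Finset.prod_univ_sum, Fintype.piFinset_univ]
      _ ≤ δ * N * ∏ _i : Fin k, (2 * (s + 1)) := by
          refine mul_le_mul_of_nonneg_left ?_ (by positivity)
          exact Finset.prod_le_prod (fun i _ => Finset.sum_nonneg fun j _ => by positivity)
            (fun i _ => hblock i)
      _ = ε * N / 4 := by
          rw [Finset.prod_const, Finset.card_univ, Fintype.card_fin, hδ]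
          field_simp
  have hbadcard : ((Finset.univ.biUnion bad).card : ℝ) ≤ ε * N / 2 := by
    have h6 : ((Finset.univ.biUnion bad).card : ℝ) ≤ ∑ i, ((bad i).card : ℝ) := by
      exact_mod_cast Finset.card_biUnion_le
    have h7 : ∀ i, ((bad i).card : ℝ) ≤ N * Real.exp (-s) + ((∏ q ∈ U i, q : ℕ) : ℝ) := by
      intro i
      refine le_trans (h3 (U i) (hUprime i) N) ?_
      have h8 : Real.exp (-∑ q ∈ U i, (1 : ℝ) / q) ≤ Real.exp (-s) :=
        Real.exp_le_exp.2 (neg_le_neg (hUsum i))
      gcongr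
    calc ((Finset.univ.biUnion bad).card : ℝ) ≤ ∑ i, ((bad i).card : ℝ) := h6
      _ ≤ ∑ i, (N * Real.exp (-s) + ((∏ q ∈ U i, q : ℕ) : ℝ)) := Finset.sum_le_sum fun i _ => h7 i
      _ = N * (k * Real.exp (-s)) + Q := by
          rw [Finset.sum_add_distrib, Finset.sum_const, Finset.card_univ, Fintype.card_fin,
            nsmul_eq_mul]
          ring
      _ ≤ N * (ε / 4) + ε * N / 4 :=
          add_le_add (mul_le_mul_of_nonneg_left hsexp (Nat.cast_nonneg _)) hNQ
      _ = ε * N / 2 := by ring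
  have hfin : (((Finset.Icc 1 N).filter (fun b => b ∈ 𝔅)).card : ℝ) ≤
      ((Finset.univ.biUnion bad).card : ℝ) + (big.card : ℝ) := by
    exact_mod_cast le_trans (Finset.card_le_card hsub) (Finset.card_union_le _ _)
  have hεN : 0 ≤ ε * N := by positivity
  linarith

end Pool.Agent.Lib.MP_c50dba_nt.Gen
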