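import Pool.Agent.Lib.MP_c50dba_nt.Gen.Spec

set_option autoImplicit false

/-!
G3: counting and the final result.
-/

namespace Pool.Agent.Lib.MP_c50dba_nt.Gen

open scoped BigOperators
open Pool.Agent.Lib.MP_c50dba_nt

namespace G3

theorem boxInd_zero (p : ℕ) [Fact p.Prime] (d : ℕ) (t : Fin 0 → PadicAlgCl p) : BoxInd p d t := by
  unfold BoxInd
  rw [Fintype.linearIndependent_iff]
  intro g hg κ
  rw [Fintype.sum_eq_single κ (fun y hy => absurd (Subsingleton.elim y κ) hy)] at hg
  rw [Algebra.smul_def] at hg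
  simp only [Finset.univ_eq_empty, Finset.prod_empty, mul_one] at hg
  change (g κ : PadicAlgCl p) = 0 at hg
  exact_mod_cast hg

theorem not_boxInd_of_poly {p : ℕ} [Fact p.Prime] {d r : ℕ} (t : Fin r → PadicAlgCl p)
    (P : MvPolynomial (Fin r) (PadicAlgCl p)) (hP : P ≠ 0) (hd : ∀ i, P.degreeOf i ≤ d)
    (ha : ∀ m, IsAlgebraic ℚ (P.coeff m)) (h0 : MvPolynomial.eval t P = 0) :
    ¬ BoxInd p d t := by
  intro hB
  unfold BoxInd at hB
  rw [Fintype.linearIndependent_iff] at hB
  let em : (Fin r → Fin (d + 1)) → (Fin r →₀ ℕ) :=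
    fun κ => Finsupp.equivFunOnFinite.symm (fun i => (κ i : ℕ))
  have hemi : ∀ κ i, em κ i = (κ i : ℕ) := fun κ i => rfl
  have hem : Function.Injective em := by
    intro κ κ' h
    funext i
    apply Fin.ext
    rw [← hemi κ i, ← hemi κ' i, h]
  have hg := hB (fun κ => ⟨P.coeff (em κ), mem_algebraicClosure_iff.2 (ha _)⟩) ?_
  · apply hP
    ext m
    rw [MvPolynomial.coeff_zero]
    by_contra hm
    have hmi : ∀ i, m i ≤ d := fun i =>
      le_trans (MvPolynomial.monomial_le_degreeOf i (MvPolynomial.mem_support_iff.2 hm)) (hd i)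
    have h1 := hg (fun i => ⟨m i, Nat.lt_succ_of_le (hmi i)⟩)
    have h2 : em (fun i => ⟨m i, Nat.lt_succ_of_le (hmi i)⟩) = m := by
      ext i
      rfl
    rw [Subtype.ext_iff] at h1
    change P.coeff (em (fun i => ⟨m i, Nat.lt_succ_of_le (hmi i)⟩)) = 0 at h1
    rw [h2] at h1
    exact hm h1
  · have h1 : ∀ κ : Fin r → Fin (d + 1),
        ((⟨P.coeff (em κ), mem_algebraicClosure_iff.2 (ha _)⟩ :
          algebraicClosure ℚ (PadicAlgCl p)) • ∏ i, t i ^ (κ i : ℕ)) =
        P.coeff (em κ) * ∏ i, t i ^ (em κ i) := by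
      intro κ
      rw [Algebra.smul_def]
      rfl
    rw [Finset.sum_congr rfl (fun κ _ => h1 κ)]
    rw [MvPolynomial.eval_eq'] at h0
    have h2 : ∑ m ∈ (Finset.univ : Finset (Fin r → Fin (d + 1))).map ⟨em, hem⟩,
        P.coeff m * ∏ i, t i ^ m i = ∑ κ, P.coeff (em κ) * ∏ i, t i ^ (em κ i) := by
      rw [Finset.sum_map]
      rfl
    rw [← h2, ← h0]
    symm
    apply Finset.sum_subset
    · intro m hm
      have hmi : ∀ i, m i ≤ d := fun i =>
        le_trans (MvPolynomial.monomial_le_degreeOf i hm) (hd i)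
      rw [Finset.mem_map]
      exact ⟨fun i => ⟨m i, Nat.lt_succ_of_le (hmi i)⟩, Finset.mem_univ _, by ext i; rfl⟩
    · intro m _ hm
      rw [MvPolynomial.notMem_support_iff.1 hm, zero_mul]

section count

open Classical in
/-- The bad tuples in the box. -/
noncomputable def bad (p : ℕ) [Fact p.Prime] (L : PadicAlgCl p → PadicAlgCl p) (d r N : ℕ) :
    Finset (Fin r → ℕ) :=
  (Fintype.piFinset (fun _ => Finset.Icc 1 N)).filter
    (fun a => ¬ BoxInd p d (fun i => L (a i : PadicAlgCl p)))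

theorem mem_bad (p : ℕ) [Fact p.Prime] (L : PadicAlgCl p → PadicAlgCl p) (d r N : ℕ)
    (a : Fin r → ℕ) : a ∈ bad p L d r N ↔ (∀ i, a i ∈ Finset.Icc 1 N) ∧
      ¬ BoxInd p d (fun i => L (a i : PadicAlgCl p)) := by
  classical
  unfold bad
  rw [Finset.mem_filter, Fintype.mem_piFinset]

theorem card_box (r N : ℕ) :
    (Fintype.piFinset (fun _ : Fin r => Finset.Icc 1 N)).card = N ^ r := by
  rw [Fintype.card_piFinset]
  simp

theorem bad_bound (h1 : StCubeFree) (h2 : StDensity) (p : ℕ) [Fact p.Prime]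
    (L : PadicAlgCl p → PadicAlgCl p) (hL : IsIwasawaLog p L) (d : ℕ) :
    ∀ (r : ℕ) (ε : ℝ), 0 < ε → ∃ N₀ : ℕ, ∀ N, N₀ ≤ N →
      ((bad p L d r N).card : ℝ) ≤ ε * (N : ℝ) ^ r := by
  classical
  intro r
  induction r with
  | zero =>
    intro ε hε
    refine ⟨0, fun N _ => ?_⟩
    have h : bad p L d 0 N = ∅ := by
      unfold bad
      rw [Finset.filter_eq_empty_iff]
      intro a _
      rw [not_not]
      exact boxInd_zero p d _
    rw [h]
    simp [hε.le]
  | succ r ih =>
    intro ε hε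
    obtain ⟨k, hk⟩ := h1 p L hL d r
    obtain ⟨N₁, hN₁⟩ := ih (ε / 2) (by positivity)
    obtain ⟨N₂, hN₂⟩ := h2 p k (ε / 2) (by positivity)
    refine ⟨max N₁ N₂, fun N hN => ?_⟩
    have hA := hN₁ N (le_trans (le_max_left _ _) hN)
    have hB := hN₂ N (le_trans (le_max_right _ _) hN)
    set box := Fintype.piFinset (fun _ : Fin r => Finset.Icc 1 N) with hbox
    have hmaps : ∀ a ∈ bad p L d (r + 1) N, (fun i : Fin r => a i.castSucc) ∈ box := by
      intro a ha
      unfold bad at ha
      rw [Finset.mem_filter, Fintype.mem_piFinset] at ha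
      rw [hbox, Fintype.mem_piFinset]
      exact fun i => ha.1 _
    have hcard := Finset.card_eq_sum_card_fiberwise (s := bad p L d (r + 1) N) (t := box)
      (f := fun a : Fin (r + 1) → ℕ => fun i : Fin r => a i.castSucc)
      (fun a ha => hmaps a ha)
    have hfib : ∀ a' : Fin r → ℕ,
        ((bad p L d (r + 1) N).filter
          (fun a : Fin (r + 1) → ℕ => (fun i : Fin r => a i.castSucc) = a')).card ≤
        ((Finset.Icc 1 N).filter (fun b => b ∈ {b : ℕ | ¬ BoxInd p d
          (Fin.snoc (fun i => L (a' i : PadicAlgCl p)) (L (b : PadicAlgCl p)) :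
            Fin (r + 1) → PadicAlgCl p)})).card := by
      intro a'
      apply Finset.card_le_card_of_injOn (fun a => a (Fin.last r))
      · intro a ha
        rw [Finset.mem_coe, Finset.mem_filter] at ha
        obtain ⟨ha1, ha2⟩ := ha
        unfold bad at ha1
        rw [Finset.mem_filter, Fintype.mem_piFinset] at ha1
        rw [Finset.mem_coe, Finset.mem_filter]
        refine ⟨ha1.1 _, ?_⟩
        have h5 : (Fin.snoc (fun i => L (a' i : PadicAlgCl p))
            (L (a (Fin.last r) : PadicAlgCl p)) : Fin (r + 1) → PadicAlgCl p) =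
            (fun i => L (a i : PadicAlgCl p)) := by
          funext i
          refine Fin.lastCases ?_ (fun j => ?_) i
          · rw [Fin.snoc_last]
          · rw [Fin.snoc_castSucc, ← ha2]
        rw [Set.mem_ofPred_eq, h5]
        exact ha1.2
      · intro a ha b hb hab
        rw [Finset.mem_coe, Finset.mem_filter] at ha hb
        funext i
        refine Fin.lastCases hab (fun j => ?_) i
        have h6 := ha.2.trans hb.2.symm
        exact congrFun h6 j
    have hfib1 : ∀ a' : Fin r → ℕ,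
        (((bad p L d (r + 1) N).filter
          (fun a : Fin (r + 1) → ℕ => (fun i : Fin r => a i.castSucc) = a')).card : ℝ) ≤ N := by
      intro a'
      have h7 := (hfib a').trans (Finset.card_filter_le _ _)
      rw [Nat.card_Icc, Nat.add_sub_cancel] at h7
      exact_mod_cast h7
    have hfib2 : ∀ a' ∈ box.filter
        (fun a => ¬ ¬ BoxInd p d (fun i => L (a i : PadicAlgCl p))),
        (((bad p L d (r + 1) N).filter
          (fun a : Fin (r + 1) → ℕ => (fun i : Fin r => a i.castSucc) = a')).card : ℝ) ≤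
            ε / 2 * N := by
      intro a' ha'
      rw [Finset.mem_filter, not_not] at ha'
      refine le_trans (Nat.cast_le.2 (hfib a')) ?_
      have h8 := hB _ (hk (fun i => L (a' i : PadicAlgCl p)) ha'.2)
      refine le_trans (le_of_eq ?_) h8
      congr 2
      ext b
      simp only [Finset.mem_filter]
    rw [hcard]
    push_cast
    rw [← Finset.sum_filter_add_sum_filter_not box
      (fun a => ¬ BoxInd p d (fun i => L (a i : PadicAlgCl p)))]
    have hs1 : ∑ a' ∈ box.filter (fun a => ¬ BoxInd p d (fun i => L (a i : PadicAlgCl p))),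
        (((bad p L d (r + 1) N).filter
          (fun a : Fin (r + 1) → ℕ => (fun i : Fin r => a i.castSucc) = a')).card : ℝ) ≤
          (bad p L d r N).card * N := by
      refine (Finset.sum_le_card_nsmul _ _ (N : ℝ) (fun a' _ => hfib1 a')).trans ?_
      rw [nsmul_eq_mul]
      apply le_of_eq
      congr 2
    have hs2 : ∑ a' ∈ box.filter (fun a => ¬ ¬ BoxInd p d (fun i => L (a i : PadicAlgCl p))),
        (((bad p L d (r + 1) N).filter
          (fun a : Fin (r + 1) → ℕ => (fun i : Fin r => a i.castSucc) = a')).card : ℝ) ≤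
          (N : ℝ) ^ r * (ε / 2 * N) := by
      refine (Finset.sum_le_card_nsmul _ _ (ε / 2 * N : ℝ) hfib2).trans ?_
      rw [nsmul_eq_mul]
      apply mul_le_mul_of_nonneg_right _ (by positivity)
      have h9 : (box.filter
          (fun a => ¬ ¬ BoxInd p d (fun i => L (a i : PadicAlgCl p)))).card ≤ N ^ r := by
        refine (Finset.card_filter_le _ _).trans ?_
        rw [hbox, card_box]
      exact_mod_cast h9
    have hN0 : (0 : ℝ) ≤ N := Nat.cast_nonneg N
    calc _ ≤ (bad p L d r N).card * (N : ℝ) + (N : ℝ) ^ r * (ε / 2 * N) := add_le_add hs1 hs2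
      _ ≤ (ε / 2 * (N : ℝ) ^ r) * N + (N : ℝ) ^ r * (ε / 2 * N) := by
        gcongr
      _ = ε * (N : ℝ) ^ (r + 1) := by ring

end count

end G3

open G3

theorem stFinal (h1 : StCubeFree) (h2 : StDensity) : StFinal := by
  intro p _ L hL r d
  rw [Metric.tendsto_atTop]
  intro ε hε
  obtain ⟨N₀, hN₀⟩ := bad_bound h1 h2 p L hL d r (ε / 2) (by positivity)
  refine ⟨max N₀ 1, fun N hN => ?_⟩
  have hb := hN₀ N (le_trans (le_max_left _ _) hN)
  have hN1 : 1 ≤ N := le_trans (le_max_right _ _) hN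
  have hN1' : (0 : ℝ) < (N : ℝ) ^ r := by positivity
  have hsub : {a : Fin r → ℕ | (∀ i, 1 ≤ a i ∧ a i ≤ N) ∧
        ∃ P : MvPolynomial (Fin r) (PadicAlgCl p), P ≠ 0 ∧ (∀ i, P.degreeOf i ≤ d) ∧
          (∀ m, IsAlgebraic ℚ (P.coeff m)) ∧
          MvPolynomial.eval (fun i => L (a i : PadicAlgCl p)) P = 0} ⊆
      (bad p L d r N : Set (Fin r → ℕ)) := by
    rintro a ⟨ha, P, hP, hd, halg, h0⟩
    rw [Finset.mem_coe, mem_bad]
    exact ⟨fun i => Finset.mem_Icc.2 (ha i), not_boxInd_of_poly _ P hP hd halg h0⟩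
  have hcard := Set.ncard_le_ncard hsub (Finset.finite_toSet _)
  rw [Set.ncard_coe_finset] at hcard
  have hcard' : (({a : Fin r → ℕ | (∀ i, 1 ≤ a i ∧ a i ≤ N) ∧
        ∃ P : MvPolynomial (Fin r) (PadicAlgCl p), P ≠ 0 ∧ (∀ i, P.degreeOf i ≤ d) ∧
          (∀ m, IsAlgebraic ℚ (P.coeff m)) ∧
          MvPolynomial.eval (fun i => L (a i : PadicAlgCl p)) P = 0}.ncard : ℕ) : ℝ) ≤
      ε / 2 * (N : ℝ) ^ r := le_trans (by exact_mod_cast hcard) hb
  rw [Real.dist_eq, sub_zero, abs_of_nonneg (by positivity), div_lt_iff₀ hN1']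
  refine lt_of_le_of_lt hcard' ?_
  nlinarith

end Pool.Agent.Lib.MP_c50dba_nt.Gen
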