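import Pool.Agent.Lib.MP_c50dba_nt.Gen.Spec
import Pool.Agent.Lib.MP_c50dba_nt.NearOne

set_option autoImplicit false

/-!
The Iwasawa logarithms of distinct primes different from `p` are linearly independent.
-/

namespace Pool.Agent.Lib.MP_c50dba_nt.Gen

open scoped BigOperators
open Pool.Agent.Lib.MP_c50dba_nt

lemma padic_norm_prime_ne {p q : ℕ} [hp : Fact p.Prime] (hq : q.Prime) (hqp : q ≠ p) :
    ‖(q : ℚ_[p])‖ = 1 := by
  rw [Padic.norm_natCast_eq_one_iff]
  exact (Nat.coprime_primes hp.out hq).2 hqp.symm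

/-- Unique factorisation. -/
lemma exponents_zero {m : ℕ} (q : Fin m → ℕ) (hq : ∀ i, (q i).Prime) (hinj : Function.Injective q)
    (n : Fin m → ℤ) (h : ∏ i, (q i : ℚ) ^ n i = 1) : n = 0 := by
  funext j
  have : Fact (q j).Prime := ⟨hq j⟩
  have h1 : ∏ i, (q i : ℚ_[q j]) ^ n i = 1 := by
    have h2 := congrArg (fun x : ℚ => (x : ℚ_[q j])) h
    simpa using h2
  have h3 := congrArg (fun x : ℚ_[q j] => ‖x‖) h1
  simp only [norm_prod, norm_zpow, norm_one] at h3
  rw [Finset.prod_eq_single j] at h3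
  · rw [Padic.norm_p] at h3
    have h2 : (2 : ℝ) ≤ q j := by exact_mod_cast (hq j).two_le
    rw [inv_zpow, inv_eq_one] at h3
    have := (zpow_eq_one_iff_right₀ (by linarith) (by linarith)).1 h3
    simpa using this
  · intro i _ hij
    rw [padic_norm_prime_ne (hq i) (fun h => hij (hinj h)), one_zpow]
  · intro h
    exact absurd (Finset.mem_univ j) h

theorem stPrimeLogs : StPrimeLogs := by
  intro p hp L hL m q hq hinj
  obtain ⟨hmul, hLp, hser⟩ := hL
  rw [← LinearIndependent.iff_fractionRing ℤ ℚ, Fintype.linearIndependent_iff]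
  intro n hn
  have hq0 : ∀ i, (q i : PadicAlgCl p) ≠ 0 := fun i => by exact_mod_cast (hq i).1.ne_zero
  set x : ℚ := ∏ i, (q i : ℚ) ^ n i with hx
  have hxpos : 0 < x := Finset.prod_pos fun i _ => zpow_pos (by exact_mod_cast (hq i).1.pos) _
  have hxc : (x : PadicAlgCl p) = ∏ i, (q i : PadicAlgCl p) ^ n i := by
    rw [hx]
    push_cast
    rfl
  have hx0 : (x : PadicAlgCl p) ≠ 0 := by exact_mod_cast hxpos.ne'
  have hprod : ∀ s : Finset (Fin m), L (∏ i ∈ s, (q i : PadicAlgCl p) ^ n i) =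
      ∑ i ∈ s, (n i : PadicAlgCl p) * L (q i) := by
    classical
    intro s
    induction s using Finset.induction_on with
    | empty => simp [L_one L hmul]
    | insert a s ha ih =>
      rw [Finset.prod_insert ha, Finset.sum_insert ha, hmul _ _ (zpow_ne_zero _ (hq0 a))
        (Finset.prod_ne_zero_iff.2 fun i _ => zpow_ne_zero _ (hq0 i)), L_zpow L hmul (hq0 a), ih]
  have hLx : L (x : PadicAlgCl p) = 0 := by
    rw [hxc, hprod, ← hn]
    apply Finset.sum_congr rfl
    intro i _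
    rw [zsmul_eq_mul]
  have hnx : ‖(x : PadicAlgCl p)‖ = 1 := by
    rw [hxc, norm_prod]
    apply Finset.prod_eq_one
    intro i _
    have h1 : ‖(q i : PadicAlgCl p)‖ = 1 := by
      have h2 := PadicAlgCl.norm_extends p (q i : ℚ_[p])
      rw [padic_norm_prime_ne (hq i).1 (hq i).2] at h2
      simpa using h2
    rw [norm_zpow, h1, one_zpow]
  obtain ⟨k, hk, hk'⟩ := exists_pow_near_one hnx
  have h1 := (ex_L L hmul hser hk').2
  rw [L_pow L hmul hx0, hLx, mul_zero, norm_zero] at h1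
  have h2 : (x : PadicAlgCl p) ^ k = 1 := sub_eq_zero.1 (norm_eq_zero.1 h1.symm)
  have h3 : x ^ k = 1 := by exact_mod_cast h2
  have h4 : x = 1 := (pow_eq_one_iff_of_nonneg hxpos.le (by omega)).1 h3
  have h5 := exponents_zero q (fun i => (hq i).1) hinj n (by rw [← hx, h4])
  intro i
  rw [h5]
  rfl

end Pool.Agent.Lib.MP_c50dba_nt.Gen
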