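import Pool.Agent.Lib.MP_c50dba_nt.Gen.Spec

set_option autoImplicit false

/-!
# Module F2: disjoint dyadic blocks of primes with prescribed sum of reciprocals
-/

namespace Pool.Agent.Lib.MP_c50dba_nt.Gen

open scoped BigOperators

namespace PrimesMod

open Classical in
/-- The primes different from `p` in `[2^j, 2^(j+1))`. -/
noncomputable def T (p j : ℕ) : Finset ℕ :=
  (Finset.Ico (2 ^ j) (2 ^ (j + 1))).filter (fun q => q.Prime ∧ q ≠ p)

/-- The block `T p j` if it has at least `R` elements. -/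
noncomputable def U (p R j : ℕ) : Finset ℕ := if R ≤ (T p j).card then T p j else ∅

/-- The sum of the reciprocals. -/
noncomputable def rs (P : Finset ℕ) : ℝ := ∑ q ∈ P, (1 : ℝ) / q

theorem rs_nonneg (P : Finset ℕ) : 0 ≤ rs P := Finset.sum_nonneg fun _ _ => by positivity

theorem mem_T {p j q : ℕ} : q ∈ T p j ↔ (2 ^ j ≤ q ∧ q < 2 ^ (j + 1)) ∧ q.Prime ∧ q ≠ p := by
  classical
  rw [T, Finset.mem_filter, Finset.mem_Ico]

theorem T_card_le (p j : ℕ) : (T p j).card ≤ 2 ^ j := by
  classical
  refine (Finset.card_filter_le _ _).trans ?_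
  rw [Nat.card_Ico, pow_succ]
  omega

theorem rs_T_le (p j : ℕ) : rs (T p j) ≤ (T p j).card / 2 ^ j := by
  have h1 : rs (T p j) ≤ ∑ q ∈ T p j, (1 : ℝ) / 2 ^ j := by
    refine Finset.sum_le_sum fun q hq => ?_
    have h2 : (2 : ℝ) ^ j ≤ q := by exact_mod_cast (mem_T.1 hq).1.1
    exact one_div_le_one_div_of_le (by positivity) h2
  rw [Finset.sum_const, nsmul_eq_mul, mul_one_div] at h1
  exact h1

theorem rs_U_le_one (p R j : ℕ) : rs (U p R j) ≤ 1 := by
  rw [U]
  split_ifs with h
  · refine (rs_T_le p j).trans ?_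
    rw [div_le_one (by positivity)]
    exact_mod_cast T_card_le p j
  · simp [rs]

theorem rs_T_le_U (p R j : ℕ) : rs (T p j) ≤ rs (U p R j) + R * (1 / 2) ^ j := by
  rw [U]
  split_ifs with h
  · have : (0 : ℝ) ≤ R * (1 / 2) ^ j := by positivity
    linarith
  · refine (rs_T_le p j).trans ?_
    have h1 : ((T p j).card : ℝ) ≤ R := by
      exact_mod_cast (not_le.1 h).le
    have h2 : rs (∅ : Finset ℕ) = 0 := by simp [rs]
    rw [h2, zero_add, one_div, inv_pow, ← div_eq_mul_inv]
    exact div_le_div_of_nonneg_right h1 (by positivity)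

open Classical in
/-- The reciprocals of the primes different from `p`. -/
noncomputable def fp (p : ℕ) : ℕ → ℝ := fun q => if q.Prime ∧ q ≠ p then 1 / (q : ℝ) else 0

theorem fp_nonneg (p q : ℕ) : 0 ≤ fp p q := by
  rw [fp]
  split_ifs
  · positivity
  · exact le_rfl

theorem sum_fp (p n : ℕ) :
    ∑ q ∈ Finset.range (2 ^ n), fp p q = ∑ j ∈ Finset.range n, rs (T p j) := by
  classical
  induction n with
  | zero => simp [fp, Nat.not_prime_zero]
  | succ n ih =>
    rw [Finset.sum_range_succ, ← ih,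
      ← Finset.sum_range_add_sum_Ico _ (Nat.pow_le_pow_right (by norm_num) (Nat.le_succ n) :
        2 ^ n ≤ 2 ^ (n + 1))]
    congr 1
    rw [rs, T, Finset.sum_filter]
    rfl

theorem not_summable_fp (p : ℕ) : ¬ Summable (fp p) := by
  intro h
  refine not_summable_one_div_on_primes ((summable_congr_cofinite ?_).1 h)
  rw [Filter.eventuallyEq_iff_exists_mem]
  refine ⟨{p}ᶜ, (Set.finite_singleton p).compl_mem_cofinite, fun q hq => ?_⟩
  have hq' : q ≠ p := by simpa using hq
  by_cases h1 : q.Prime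
  · simp [fp, h1, hq']
  · simp [fp, h1]

theorem not_summable_U (p R : ℕ) : ¬ Summable (fun j => rs (U p R j)) := by
  intro h
  have h1 : Summable (fun j : ℕ => rs (U p R j) + R * (1 / 2 : ℝ) ^ j) :=
    h.add ((summable_geometric_of_lt_one (by norm_num) (by norm_num)).mul_left _)
  have h2 : Summable (fun j => rs (T p j)) :=
    Summable.of_nonneg_of_le (fun j => rs_nonneg _) (fun j => rs_T_le_U p R j) h1
  refine not_summable_fp p (summable_of_sum_range_le (c := ∑' j, rs (T p j)) (fp_nonneg p)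
    fun n => ?_)
  calc ∑ q ∈ Finset.range n, fp p q ≤ ∑ q ∈ Finset.range (2 ^ n), fp p q :=
        Finset.sum_le_sum_of_subset_of_nonneg
          (Finset.range_subset_range.2 (Nat.lt_two_pow_self).le) fun q _ _ => fp_nonneg p q
    _ = ∑ j ∈ Finset.range n, rs (T p j) := sum_fp p n
    _ ≤ ∑' j, rs (T p j) := h2.sum_le_tsum _ fun j _ => rs_nonneg _

/-- A block of indices. -/
theorem exists_block (a : ℕ → ℝ) (h0 : ∀ j, 0 ≤ a j) (h1 : ∀ j, a j ≤ 1) (h : ¬ Summable a)
    (s : ℝ) (hs : 0 < s) (n : ℕ) :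
    ∃ m, n ≤ m ∧ s ≤ ∑ j ∈ Finset.Ico n m, a j ∧ ∑ j ∈ Finset.Ico n m, a j ≤ s + 1 := by
  classical
  have hex : ∃ m, n ≤ m ∧ s ≤ ∑ j ∈ Finset.Ico n m, a j := by
    by_contra hcon
    push Not at hcon
    refine h (summable_of_sum_range_le (c := ∑ j ∈ Finset.range n, a j + s) h0 fun m => ?_)
    rcases le_total n m with hm | hm
    · rw [← Finset.sum_range_add_sum_Ico _ hm]
      have := hcon m hm
      linarith
    · have h2 : ∑ j ∈ Finset.range m, a j ≤ ∑ j ∈ Finset.range n, a j :=
        Finset.sum_le_sum_of_subset_of_nonneg (Finset.range_subset_range.2 hm) fun q _ _ => h0 q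
      linarith
  obtain ⟨h2, h3⟩ := Nat.find_spec hex
  refine ⟨Nat.find hex, h2, h3, ?_⟩
  obtain ⟨m, hm⟩ : ∃ m, Nat.find hex = m := ⟨_, rfl⟩
  rw [hm] at h2 h3 ⊢
  have hnm : n < m := by
    rcases h2.lt_or_eq with h4 | h4
    · exact h4
    · rw [h4, Finset.Ico_self, Finset.sum_empty] at h3
      linarith
  obtain ⟨m', rfl⟩ : ∃ m', m = m' + 1 := ⟨m - 1, by omega⟩
  have h4 : ¬ (n ≤ m' ∧ s ≤ ∑ j ∈ Finset.Ico n m', a j) :=
    Nat.find_min hex (by rw [hm]; exact Nat.lt_succ_self m')
  have hnm' : n ≤ m' := Nat.lt_succ_iff.1 hnm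
  have h5 : ∑ j ∈ Finset.Ico n m', a j < s := not_le.1 fun h' => h4 ⟨hnm', h'⟩
  rw [Finset.sum_Ico_succ_top hnm']
  have := h1 m'
  linarith

theorem disjoint_T {p j j' : ℕ} (h : j ≠ j') : Disjoint (T p j) (T p j') := by
  have key : ∀ a b : ℕ, a < b → Disjoint (T p a) (T p b) := by
    intro a b hab
    rw [Finset.disjoint_left]
    intro q hq hq'
    have h1 := (mem_T.1 hq).1.2
    have h2 := (mem_T.1 hq').1.1
    have h3 : 2 ^ (a + 1) ≤ 2 ^ b := Nat.pow_le_pow_right (by norm_num) hab
    omega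
  rcases Nat.lt_or_gt_of_ne h with h' | h'
  · exact key _ _ h'
  · exact (key _ _ h').symm

theorem U_subset (p R j : ℕ) : U p R j ⊆ T p j := by
  rw [U]
  split_ifs
  · exact subset_rfl
  · exact Finset.empty_subset _

end PrimesMod

open PrimesMod in
/-- Module F2. -/
theorem stPrimes : StPrimes := by
  classical
  intro p k R s hs
  choose f hf1 hf2 hf3 using exists_block (fun j => rs (U p R j)) (fun j => rs_nonneg _)
    (fun j => rs_U_le_one p R j) (not_summable_U p R) s hs
  -- the end points of the blocks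
  let e : ℕ → ℕ := fun i => f^[i] 0
  have he : ∀ i, e (i + 1) = f (e i) := fun i => Function.iterate_succ_apply' f i 0
  have hmono : Monotone e := monotone_nat_of_le_succ fun i => by rw [he]; exact hf1 _
  let I : ℕ → Finset ℕ := fun i => Finset.Ico (e i) (e (i + 1))
  refine ⟨e k, fun i j => if (j : ℕ) ∈ I i then U p R j else ∅, fun _ j => 2 ^ (j : ℕ),
    ?_, ?_, ?_, ?_⟩
  · intro i j
    refine ⟨?_, Nat.one_le_two_pow⟩
    beta_reduce
    split_ifs with h
    · by_cases hR : R ≤ (T p j).card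
      · right
        rwa [U, if_pos hR]
      · left
        rw [U, if_neg hR]
    · exact Or.inl rfl
  · intro i j q hq
    beta_reduce at hq ⊢
    split_ifs at hq with h
    · have h1 := mem_T.1 (U_subset p R j hq)
      refine ⟨h1.2.1, h1.2.2, h1.1.1, ?_⟩
      have := h1.1.2
      rw [pow_succ] at this
      omega
    · exact absurd hq (Finset.notMem_empty q)
  · intro i j i' j' hne
    beta_reduce
    by_cases h : (j : ℕ) ∈ I i
    · by_cases h' : (j' : ℕ) ∈ I i'
      · rw [if_pos h, if_pos h']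
        refine Finset.disjoint_of_subset_left (U_subset p R j)
          (Finset.disjoint_of_subset_right (U_subset p R j') ?_)
        by_cases hj : (j : ℕ) = j'
        · exfalso
          have hi : (i : ℕ) ≠ i' := fun h1 => hne (Prod.ext (Fin.ext h1) (Fin.ext hj))
          rw [← hj] at h'
          simp only [I, Finset.mem_Ico] at h h'
          rcases Nat.lt_or_gt_of_ne hi with h1 | h1
          · have := hmono (Nat.succ_le_of_lt h1)
            simp only [Nat.succ_eq_add_one] at this
            omega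
          · have := hmono (Nat.succ_le_of_lt h1)
            simp only [Nat.succ_eq_add_one] at this
            omega
        · exact disjoint_T hj
      · rw [if_neg h']
        exact Finset.disjoint_empty_right _
    · rw [if_neg h]
      exact Finset.disjoint_empty_left _
  · intro i
    have h1 : ∑ j : Fin (e k), ∑ q ∈ (if (j : ℕ) ∈ I i then U p R j else ∅), (1 : ℝ) / q =
        ∑ j ∈ Finset.Ico (e i) (f (e i)), rs (U p R j) := by
      have h2 : ∀ j : ℕ, ∑ q ∈ (if j ∈ I i then U p R j else ∅), (1 : ℝ) / q =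
          if j ∈ I i then rs (U p R j) else 0 := by
        intro j
        split_ifs
        · rfl
        · simp
      rw [Fin.sum_univ_eq_sum_range (fun j => ∑ q ∈ (if j ∈ I i then U p R j else ∅),
        (1 : ℝ) / q) (e k), Finset.sum_congr rfl fun j _ => h2 j, Finset.sum_ite_mem]
      congr 1
      have h3 : I i ⊆ Finset.range (e k) := by
        intro j hj
        simp only [I, Finset.mem_Ico] at hj
        rw [Finset.mem_range]
        exact hj.2.trans_le (hmono (Nat.succ_le_of_lt i.2))
      rw [Finset.inter_eq_right.2 h3]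
      simp only [I, he]
    rw [h1]
    exact ⟨hf2 _, hf3 _⟩

end Pool.Agent.Lib.MP_c50dba_nt.Gen
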