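import Pool.Agent.Lib.MP_c50dba_nt.Gen.Spec

set_option autoImplicit false

namespace Pool.Agent.Lib.MP_c50dba_nt.Gen

lemma totient_prod_primes (P : Finset ℕ) (hP : ∀ q ∈ P, q.Prime) :
    (Nat.totient (∏ q ∈ P, q) : ℝ) = ((∏ q ∈ P, q : ℕ) : ℝ) * ∏ q ∈ P, (1 - 1 / (q : ℝ)) := by
  classical
  induction P using Finset.induction_on with
  | empty => simp
  | insert a s ha ih =>
    rw [Finset.prod_insert ha, Finset.prod_insert ha]
    have hap : a.Prime := hP a (Finset.mem_insert_self _ _)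
    have hcop : Nat.Coprime a (∏ q ∈ s, q) := by
      apply Nat.Coprime.prod_right
      intro q hq
      exact (Nat.coprime_primes hap (hP q (Finset.mem_insert_of_mem hq))).mpr
        (fun h => ha (h ▸ hq))
    rw [Nat.totient_mul hcop, Nat.totient_prime hap]
    push_cast
    rw [ih (fun q hq => hP q (Finset.mem_insert_of_mem hq))]
    have ha0 : (a : ℝ) ≠ 0 := by exact_mod_cast hap.ne_zero
    rw [Nat.cast_sub hap.one_le]
    push_cast
    field_simp

theorem stSieve : StSieve := by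
  classical
  intro P hP N
  set Q := ∏ q ∈ P, q with hQ
  have hQpos : 0 < Q := Finset.prod_pos (fun q hq => (hP q hq).pos)
  have h1 : (Finset.Icc 1 N).filter (fun b => ∀ q ∈ P, ¬ q ∣ b) ⊆
      (Finset.Ico 1 (1 + N)).filter (fun b => Q.Coprime b) := by
    intro b hb
    rw [Finset.mem_filter, Finset.mem_Icc] at hb
    rw [Finset.mem_filter, Finset.mem_Ico]
    refine ⟨⟨hb.1.1, by omega⟩, ?_⟩
    rw [hQ]
    apply Nat.Coprime.prod_left
    intro q hq
    exact ((hP q hq).coprime_iff_not_dvd).mpr (hb.2 q hq)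
  have h2 := (Finset.card_le_card h1).trans (Nat.Ico_filter_coprime_le 1 N hQpos.ne')
  have h3 : (((Finset.Icc 1 N).filter (fun b => ∀ q ∈ P, ¬ q ∣ b)).card : ℝ) ≤
      (Nat.totient Q : ℝ) * ((N : ℝ) / Q + 1) := by
    calc (((Finset.Icc 1 N).filter (fun b => ∀ q ∈ P, ¬ q ∣ b)).card : ℝ) ≤
        ((Nat.totient Q * (N / Q + 1) : ℕ) : ℝ) := by exact_mod_cast h2
      _ ≤ (Nat.totient Q : ℝ) * ((N : ℝ) / Q + 1) := by
        push_cast
        gcongr
        exact Nat.cast_div_le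
  have hQr : (0 : ℝ) < Q := by exact_mod_cast hQpos
  have h4 : (Nat.totient Q : ℝ) = (Q : ℝ) * ∏ q ∈ P, (1 - 1 / (q : ℝ)) := totient_prod_primes P hP
  have h5 : ∏ q ∈ P, (1 - 1 / (q : ℝ)) ≤ Real.exp (-∑ q ∈ P, (1 : ℝ) / q) := by
    rw [← Finset.sum_neg_distrib, Real.exp_sum]
    apply Finset.prod_le_prod
    · intro q hq
      have : (1 : ℝ) ≤ q := by exact_mod_cast (hP q hq).one_le
      have h6 : 1 / (q : ℝ) ≤ 1 := by
        rw [div_le_one (by linarith)]
        exact this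
      linarith
    · intro q _
      have := Real.add_one_le_exp (-(1 / (q : ℝ)))
      linarith
  have h6 : (Nat.totient Q : ℝ) ≤ Q := by exact_mod_cast Nat.totient_le Q
  calc (((Finset.Icc 1 N).filter (fun b => ∀ q ∈ P, ¬ q ∣ b)).card : ℝ) ≤
      (Nat.totient Q : ℝ) * ((N : ℝ) / Q + 1) := h3
    _ = (N : ℝ) * ∏ q ∈ P, (1 - 1 / (q : ℝ)) + (Nat.totient Q : ℝ) := by
      rw [mul_add, mul_one]
      congr 1
      rw [h4]
      field_simp
    _ ≤ N * Real.exp (-∑ q ∈ P, (1 : ℝ) / q) + (Q : ℝ) := by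
      gcongr

end Pool.Agent.Lib.MP_c50dba_nt.Gen
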