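import Pool.Agent.Lib.MP_c50dba_nt.SixExp

set_option autoImplicit false

/-!
Statements of the modules for the theorem: for every prime `p`, `r` and `d`, for 100% of the
`r`-tuples of positive integers the Iwasawa logarithms satisfy no nonzero polynomial with
algebraic coefficients and degree at most `d` in each variable.
Paper proof: /team-store/MP_c50dba_gen_blueprint.md
-/

namespace Pool.Agent.Lib.MP_c50dba_nt.Gen

open scoped BigOperators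
open Pool.Agent.Lib.MP_c50dba_nt

/-! ### Part E: algebra -/

/-- E1. Nonzero elements of affine domains are nonzero at some point. -/
def StPoint : Prop :=
  ∀ (F A : Type) [Field F] [IsAlgClosed F] [CommRing A] [IsDomain A] [Algebra F A]
    [Algebra.FiniteType F A] (a : A), a ≠ 0 → ∃ v : A →ₐ[F] F, v a ≠ 0

/-- A function of `n` points which is in the class `𝒜` in each of its variables. -/
def SepReg {F V : Type} (𝒜 : Set (V → F)) {n : ℕ} (Φ : (Fin n → V) → F) : Prop :=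
  ∀ (w : Fin n → V) (l : Fin n), (fun v => Φ (Function.update w l v)) ∈ 𝒜

/-- E2. Generic points. -/
def StMulti : Prop :=
  ∀ (F V : Type) [Field F] (𝒜 : Set (V → F)),
    (∀ a ∈ 𝒜, ∀ b ∈ 𝒜, a * b ∈ 𝒜) → (∀ a ∈ 𝒜, ∀ b ∈ 𝒜, a ≠ 0 → b ≠ 0 → a * b ≠ 0) →
    ∀ (n q : ℕ) (Φ : Fin q → (Fin n → V) → F), (∀ j, SepReg 𝒜 (Φ j)) →
      (∀ j, ∃ w, Φ j w ≠ 0) → Nonempty V → ∃ w, ∀ j, Φ j w ≠ 0

/-- E3. A nonzero polynomial of degree at most `B` does not vanish on all the vertices of all the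
`B`-dimensional cubes with base point `Y₀` and edges taken in `B` given spanning families. -/
def StLin : Prop :=
  ∀ (F : Type) [Field F] [CharZero F] (σ ι : Type) [Fintype σ] [Nonempty ι] (B : ℕ)
    (D : MvPolynomial σ F), D ≠ 0 → D.totalDegree ≤ B →
    ∀ u : Fin B → ι → σ → F, (∀ b, Submodule.span F (Set.range (u b)) = ⊤) →
    ∀ Y₀ : σ → F, ∃ (i : Fin B → ι) (S : Finset (Fin B)),
      MvPolynomial.eval (Y₀ + ∑ b ∈ S, u b (i b)) D ≠ 0

/-- E4. The cube theorem. -/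
def StCube : Prop :=
  ∀ (F Ω : Type) [Field F] [IsAlgClosed F] [CharZero F] [Field Ω] [Algebra F Ω]
    (ι : Type) [Fintype ι] [Nonempty ι] (f : ι → Ω), LinearIndependent F f →
    ∀ (d B : ℕ), d * (Fintype.card ι * (d + 1)) ≤ B →
    ∀ (e : Fin B × (ι × Fin (d + 1)) → Ω), LinearIndependent F e →
    ∀ y₀ : Ω, ∃ S : Finset (Fin B × (ι × Fin (d + 1))),
      LinearIndependent F (fun x : ι × Fin (d + 1) => f x.1 * (y₀ + ∑ i ∈ S, e i) ^ (x.2 : ℕ))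

/-! ### Part F: combinatorics of the integers -/

/-- F1. Dense subsets of products contain nondegenerate cubes. -/
def StBox : Prop :=
  ∀ (k : ℕ) (δ : ℝ), 0 < δ → ∃ R : ℕ, ∀ X : Fin k → Finset ℕ, (∀ i, R ≤ (X i).card) →
    ∀ 𝒮 : Finset (Fin k → ℕ), 𝒮 ⊆ Fintype.piFinset X →
      δ * ∏ i, ((X i).card : ℝ) ≤ (𝒮.card : ℝ) → 0 < (𝒮.card : ℝ) →
      ∃ x x' : Fin k → ℕ, x ∈ Fintype.piFinset X ∧ x' ∈ Fintype.piFinset X ∧
        (∀ i, x i ≠ x' i) ∧ ∀ S : Finset (Fin k), (fun i => if i ∈ S then x i else x' i) ∈ 𝒮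

/-- F2. Blocks of primes: `P i j` (`j < J`) are pairwise disjoint sets of primes different from
`p`, empty or with at least `R` elements, contained in `[X i j, 2 X i j]`, and the sum of the
reciprocals of the elements of all `P i j`, `i` fixed, is between `s` and `s + 1`. -/
def StPrimes : Prop :=
  ∀ (p k R : ℕ) (s : ℝ), 0 < s → ∃ (J : ℕ) (P : Fin k → Fin J → Finset ℕ) (X : Fin k → Fin J → ℕ),
    (∀ i j, (P i j = ∅ ∨ R ≤ (P i j).card) ∧ 1 ≤ X i j) ∧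
    (∀ i j, ∀ q ∈ P i j, q.Prime ∧ q ≠ p ∧ X i j ≤ q ∧ q ≤ 2 * X i j) ∧
    (∀ i j i' j', (i, j) ≠ (i', j') → Disjoint (P i j) (P i' j')) ∧
    (∀ i, s ≤ ∑ j, ∑ q ∈ P i j, (1 : ℝ) / q ∧ ∑ j, ∑ q ∈ P i j, (1 : ℝ) / q ≤ s + 1)

/-- F3. Sieve upper bound. -/
def StSieve : Prop :=
  ∀ (P : Finset ℕ), (∀ q ∈ P, q.Prime) → ∀ N : ℕ,
    (((Finset.Icc 1 N).filter (fun b => ∀ q ∈ P, ¬ q ∣ b)).card : ℝ) ≤
      N * Real.exp (-∑ q ∈ P, (1 : ℝ) / q) + ((∏ q ∈ P, q : ℕ) : ℝ)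

/-- Sets of integers without multiplicative cubes of dimension `k`. -/
def CubeFree (p k : ℕ) (𝔅 : Set ℕ) : Prop :=
  ∀ (m : ℕ) (q q' : Fin k → ℕ), 1 ≤ m → (∀ i, (q i).Prime ∧ (q' i).Prime ∧ q i ≠ p ∧ q' i ≠ p) →
    Function.Injective (Sum.elim q q') →
    ∃ S : Finset (Fin k), m * ∏ i, (if i ∈ S then q i else q' i) ∉ 𝔅

open Classical in
/-- F4. Sets without multiplicative cubes have density zero, uniformly. -/
def StDensity : Prop :=
  ∀ (p k : ℕ) (ε : ℝ), 0 < ε → ∃ N₀ : ℕ, ∀ N, N₀ ≤ N → ∀ 𝔅 : Set ℕ, CubeFree p k 𝔅 →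
    (((Finset.Icc 1 N).filter (fun b => b ∈ 𝔅)).card : ℝ) ≤ ε * N

/-! ### Part A, B, C: the p-adic Baker theorem (homogeneous form) -/

/-- Taylor coefficients of the power series `∑ f k z^k` at `a`. -/
noncomputable def tc {C : Type} [NormedField C] (f : ℕ → C) (a : C) (b : ℕ) : C :=
  ∑' m, ((m + b).choose b : C) * f (m + b) * a ^ m

/-- A1. Schwarz lemma with multiplicities. -/
def StSchwarz : Prop :=
  ∀ (C : Type) [NormedField C] [CompleteSpace C] [IsUltrametricDist C] (f : ℕ → C) (M : ℝ),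
    0 ≤ M → (∀ k, ‖f k‖ ≤ M * 2 ^ k) → ∀ (s : Finset C) (m : ℕ),
    (∀ a ∈ s, ‖a‖ ≤ 1 / 4 ∧ ∀ b < m, tc f a b = 0) → ∀ z : C, ‖z‖ ≤ 1 / 4 →
      ‖tc f z m‖ ≤ M * 4 ^ m * (1 / 2) ^ (s.card * m)

/-- B2. A measure on finitely many points with zero moments is zero. -/
def StMoments : Prop :=
  ∀ (K : Type) [Field K] (n : ℕ) (ι : Type) [Fintype ι] (κ : ι → Fin n → K),
    Function.Injective κ → ∀ ξ : ι → K,
      (∀ τ : Fin n → ℕ, ∑ k, ξ k * ∏ σ, κ k σ ^ τ σ = 0) → ξ = 0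

open NumberField in
/-- B3. p-adic Schneider-Lang theorem for `g` exponentials in `n < g` variables. -/
def StCore : Prop :=
  ∀ (p : ℕ) [Fact p.Prime] (C : Type) [NormedField C] [CompleteSpace C] [IsUltrametricDist C]
    [NormedAlgebra ℚ_[p] C] (K : Type) [Field K] [NumberField K] (φ : K →+* C) (n g : ℕ),
    1 ≤ n → n < g → ∀ (x : Fin g → Fin n → 𝓞 K),
    (∀ k k' : Fin g → ℕ, (∀ σ, ∑ j, (k j : 𝓞 K) * x j σ = ∑ j, (k' j : 𝓞 K) * x j σ) → k = k') →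
    ∀ y : Fin n → Fin n → C, (∀ j σ, ‖y j σ‖ ≤ ‖(p : C) ^ 2‖) → (Matrix.of y).det ≠ 0 →
    ∀ A : Fin g → Fin n → K, (∀ j j', φ (A j j') = ex (∑ σ, φ (x j σ : K) * y j' σ)) → False

/-- The Iwasawa logarithm. -/
def IsIwasawaLog (p : ℕ) [Fact p.Prime] (L : PadicAlgCl p → PadicAlgCl p) : Prop :=
  (∀ x y : PadicAlgCl p, x ≠ 0 → y ≠ 0 → L (x * y) = L x + L y) ∧
  L (p : PadicAlgCl p) = 0 ∧
  (∀ x : PadicAlgCl p, ‖x‖ < 1 →
    L (1 + x) = ∑' n : ℕ, (-1 : PadicAlgCl p) ^ n * x ^ (n + 1) / ((n : PadicAlgCl p) + 1))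

/-- C1. The theorem of Baker and Brumer. -/
def StBaker : Prop :=
  ∀ (p : ℕ) [Fact p.Prime] (L : PadicAlgCl p → PadicAlgCl p), IsIwasawaLog p L →
    ∀ (m : ℕ) (α : Fin m → PadicAlgCl p), (∀ i, α i ≠ 0) → (∀ i, IsAlgebraic ℚ (α i)) →
      LinearIndependent ℚ (fun i => L (α i)) →
      ∀ β : Fin m → PadicAlgCl p, (∀ i, IsAlgebraic ℚ (β i)) → ∑ i, β i * L (α i) = 0 → β = 0

/-! ### Part G: assembly -/

/-- G1. Logarithms of distinct primes different from `p`. -/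
def StPrimeLogs : Prop :=
  ∀ (p : ℕ) [Fact p.Prime] (L : PadicAlgCl p → PadicAlgCl p), IsIwasawaLog p L →
    ∀ (m : ℕ) (q : Fin m → ℕ), (∀ i, (q i).Prime ∧ q i ≠ p) → Function.Injective q →
      LinearIndependent ℚ (fun i => L (q i : PadicAlgCl p))

/-- The products of powers `0, ..., d` of the `t i` are linearly independent over the algebraic
numbers. -/
def BoxInd (p : ℕ) [Fact p.Prime] (d : ℕ) {r : ℕ} (t : Fin r → PadicAlgCl p) : Prop :=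
  LinearIndependent (algebraicClosure ℚ (PadicAlgCl p))
    (fun κ : Fin r → Fin (d + 1) => ∏ i, t i ^ (κ i : ℕ))

/-- G2. For a good tuple `t`, the integers `b` such that `(t, L b)` is bad have no cubes. -/
def StCubeFree : Prop :=
  ∀ (p : ℕ) [Fact p.Prime] (L : PadicAlgCl p → PadicAlgCl p), IsIwasawaLog p L →
    ∀ (d r : ℕ), ∃ k : ℕ, ∀ t : Fin r → PadicAlgCl p, BoxInd p d t →
      CubeFree p k {b : ℕ | ¬ BoxInd p d (Fin.snoc t (L (b : PadicAlgCl p)) : Fin (r + 1) → PadicAlgCl p)}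

/-- G3. The final result. -/
def StFinal : Prop :=
  ∀ (p : ℕ) [Fact p.Prime] (L : PadicAlgCl p → PadicAlgCl p), IsIwasawaLog p L →
    ∀ (r d : ℕ), Filter.Tendsto (fun N : ℕ =>
      (({a : Fin r → ℕ | (∀ i, 1 ≤ a i ∧ a i ≤ N) ∧
        ∃ P : MvPolynomial (Fin r) (PadicAlgCl p), P ≠ 0 ∧ (∀ i, P.degreeOf i ≤ d) ∧
          (∀ m, IsAlgebraic ℚ (P.coeff m)) ∧
          MvPolynomial.eval (fun i => L (a i : PadicAlgCl p)) P = 0}.ncard : ℕ) : ℝ) / (N : ℝ) ^ r)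
      Filter.atTop (nhds 0)

end Pool.Agent.Lib.MP_c50dba_nt.Gen
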