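import Pool.Agent.Lib.MP_c50dba_nt.Gen.CubeFree
import Pool.Agent.Lib.MP_c50dba_nt.Gen.Final

set_option autoImplicit false

/-!
Uniform version of the final theorem: uniform in the prime `p`, in an arbitrary start tuple `t`
without relations of degree at most `d`, and in arbitrary shifts `y` and multipliers `u`.
-/

namespace Pool.Agent.Lib.MP_c50dba_nt.Gen.U

open scoped BigOperators
open Pool.Agent.Lib.MP_c50dba_nt Pool.Agent.Lib.MP_c50dba_nt.Gen

/-- The products of powers `0, ..., d` of the `t i` are linearly independent over `F`. -/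
def BoxIndF (F : Type) {Ω : Type} [Field F] [Field Ω] [Algebra F Ω] (d : ℕ) {r : ℕ}
    (t : Fin r → Ω) : Prop :=
  LinearIndependent F (fun κ : Fin r → Fin (d + 1) => ∏ i, t i ^ (κ i : ℕ))

lemma cubeFree_zero {p k : ℕ} {𝔅 : Set ℕ} (h : CubeFree p k 𝔅) : CubeFree 0 (k + 1) 𝔅 := by
  classical
  intro m q q' hm hq hinj
  obtain ⟨i₀, hi₀⟩ : ∃ i₀ : Fin (k + 1), ∀ i, i ≠ i₀ → q i ≠ p ∧ q' i ≠ p := by
    by_cases h1 : ∃ i, q i = p ∨ q' i = p
    · obtain ⟨i₀, h2⟩ := h1
      refine ⟨i₀, fun i hi => ⟨fun h3 => ?_, fun h3 => ?_⟩⟩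
      · rcases h2 with h2 | h2
        · have := @hinj (Sum.inl i) (Sum.inl i₀) (by simp [h2, h3])
          exact hi (Sum.inl.inj this)
        · have := @hinj (Sum.inl i) (Sum.inr i₀) (by simp [h2, h3])
          simp at this
      · rcases h2 with h2 | h2
        · have := @hinj (Sum.inr i) (Sum.inl i₀) (by simp [h2, h3])
          simp at this
        · have := @hinj (Sum.inr i) (Sum.inr i₀) (by simp [h2, h3])
          exact hi (Sum.inr.inj this)
    · push Not at h1
      exact ⟨0, fun i _ => h1 i⟩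
  obtain ⟨S, hS⟩ := h (m * q i₀) (fun i => q (i₀.succAbove i)) (fun i => q' (i₀.succAbove i))
    (Nat.mul_pos hm (hq i₀).1.pos)
    (fun i => ⟨(hq _).1, (hq _).2.1, hi₀ _ (Fin.succAbove_ne i₀ i)⟩) (by
      have h5 : Sum.elim (fun i => q (i₀.succAbove i)) (fun i => q' (i₀.succAbove i)) =
          Sum.elim q q' ∘ Sum.map i₀.succAbove i₀.succAbove := by
        funext x
        rcases x with x | x <;> rfl
      rw [h5]
      exact hinj.comp (Function.Injective.sumMap Fin.succAbove_right_injective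
        Fin.succAbove_right_injective))
  refine ⟨insert i₀ (S.map i₀.succAboveEmb), ?_⟩
  have h6 : (∏ i, if i ∈ insert i₀ (S.map i₀.succAboveEmb) then q i else q' i) =
      q i₀ * ∏ i, (if i ∈ S then q (i₀.succAbove i) else q' (i₀.succAbove i)) := by
    rw [Fin.prod_univ_succAbove _ i₀]
    congr 1
    · simp
    · apply Finset.prod_congr rfl
      intro i _
      have h7 : i₀.succAbove i ∈ insert i₀ (S.map i₀.succAboveEmb) ↔ i ∈ S := by
        simp
      simp only [h7]
  rw [h6, ← mul_assoc]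
  exact hS

section abstract

variable {F Ω : Type} [Field F] [IsAlgClosed F] [CharZero F] [Field Ω] [Algebra F Ω]

/-- Completely additive functions whose values at the primes different from `p` are linearly
independent over `F` (in the form of differences). -/
def Good (F : Type) {Ω : Type} [Field F] [Field Ω] [Algebra F Ω] (p : ℕ) (ℓ : ℕ → Ω) : Prop :=
  (∀ a b, 1 ≤ a → 1 ≤ b → ℓ (a * b) = ℓ a + ℓ b) ∧
  ∀ (k : ℕ) (q q' : Fin k → ℕ), (∀ i, (q i).Prime ∧ (q' i).Prime ∧ q i ≠ p ∧ q' i ≠ p) →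
    Function.Injective (Sum.elim q q') → LinearIndependent F (fun i => ℓ (q i) - ℓ (q' i))

omit [IsAlgClosed F] [CharZero F] in
lemma good_one {p : ℕ} {ℓ : ℕ → Ω} (h : Good F p ℓ) : ℓ 1 = 0 := by
  have h1 := h.1 1 1 le_rfl le_rfl
  rw [mul_one] at h1
  simpa using h1

omit [IsAlgClosed F] [CharZero F] in
lemma good_prod {p : ℕ} {ℓ : ℕ → Ω} (h : Good F p ℓ) {ι : Type} (s : Finset ι) (a : ι → ℕ)
    (ha : ∀ i ∈ s, 1 ≤ a i) : ℓ (∏ i ∈ s, a i) = ∑ i ∈ s, ℓ (a i) := by
  classical
  induction s using Finset.induction_on with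
  | empty => simpa using good_one h
  | insert i s hi ih =>
    have hpos : 0 < ∏ j ∈ s, a j := Finset.prod_pos fun j hj =>
      ha j (Finset.mem_insert_of_mem hj)
    rw [Finset.prod_insert hi, Finset.sum_insert hi,
      h.1 _ _ (ha i (Finset.mem_insert_self _ _)) hpos, ih]
    intro j hj
    exact ha j (Finset.mem_insert_of_mem hj)

/-- The dimension of the cubes. -/
def dimK (d r : ℕ) : ℕ :=
  Fintype.card (Fin (d * (Fintype.card (Fin r → Fin (d + 1)) * (d + 1))) ×
    ((Fin r → Fin (d + 1)) × Fin (d + 1)))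

theorem cubeFree_gen (h1 : StCube) (d r p : ℕ) {ℓ : ℕ → Ω} (hℓ : Good F p ℓ) (t : Fin r → Ω)
    (ht : BoxIndF F d t) (y u : Ω) (hu : u ≠ 0) :
    CubeFree p (dimK d r)
      {b : ℕ | ¬ BoxIndF F d (Fin.snoc t (y + u * ℓ b) : Fin (r + 1) → Ω)} := by
  classical
  unfold dimK
  set B : ℕ := d * (Fintype.card (Fin r → Fin (d + 1)) * (d + 1)) with hB
  set I := Fin B × ((Fin r → Fin (d + 1)) × Fin (d + 1)) with hI
  have en : I ≃ Fin (Fintype.card I) := Fintype.equivFin I
  intro m q q' hm hq hinj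
  have he0 : LinearIndependent F (fun x : I => ℓ (q (en x)) - ℓ (q' (en x))) :=
    (hℓ.2 _ q q' hq hinj).comp en en.injective
  have he : LinearIndependent F (fun x : I => u * (ℓ (q (en x)) - ℓ (q' (en x)))) := by
    have h2 := he0.map' (LinearMap.mulLeft F u) (by
      rw [LinearMap.ker_eq_bot]
      intro a b hab
      exact mul_left_cancel₀ hu hab)
    exact h2
  obtain ⟨S, hS⟩ := h1 F Ω (Fin r → Fin (d + 1))
    (fun κ => ∏ i, t i ^ (κ i : ℕ)) ht d B le_rfl
    (fun x : I => u * (ℓ (q (en x)) - ℓ (q' (en x)))) he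
    (y + u * (ℓ m + ∑ x, ℓ (q' (en x))))
  refine ⟨S.map en.toEmbedding, ?_⟩
  rw [Set.mem_ofPred_eq, not_not]
  have hy : y + u * ℓ (m * ∏ i, (if i ∈ S.map en.toEmbedding then q i else q' i)) =
      y + u * (ℓ m + ∑ x, ℓ (q' (en x))) +
        ∑ x ∈ S, u * (ℓ (q (en x)) - ℓ (q' (en x))) := by
    have hne : ∀ i ∈ (Finset.univ : Finset (Fin (Fintype.card I))),
        1 ≤ (if i ∈ S.map en.toEmbedding then q i else q' i) := by
      intro i _
      split_ifs
      · exact (hq i).1.pos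
      · exact (hq i).2.1.pos
    have hpos : 0 < ∏ i, (if i ∈ S.map en.toEmbedding then q i else q' i) :=
      Finset.prod_pos hne
    rw [hℓ.1 _ _ hm hpos, good_prod hℓ _ _ hne, ← Equiv.sum_comp en,
      ← Finset.mul_sum, add_assoc, ← mul_add, add_assoc]
    congr 3
    have h5 : ∀ x : I, ℓ (if en x ∈ S.map en.toEmbedding then q (en x) else q' (en x)) =
        ℓ (q' (en x)) + (if x ∈ S then (ℓ (q (en x)) - ℓ (q' (en x))) else 0) := by
      intro x
      have h6 : en x ∈ S.map en.toEmbedding ↔ x ∈ S := by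
        simp
      by_cases hx : x ∈ S
      · rw [if_pos (h6.2 hx), if_pos hx]
        ring
      · rw [if_neg (fun h => hx (h6.1 h)), if_neg hx, add_zero]
    rw [Finset.sum_congr rfl (fun x _ => h5 x), Finset.sum_add_distrib, Finset.sum_ite_mem,
      Finset.univ_inter]
  have hinj2 : Function.Injective (fun κ : Fin (r + 1) → Fin (d + 1) =>
      ((fun i : Fin r => κ i.castSucc, κ (Fin.last r)) :
        (Fin r → Fin (d + 1)) × Fin (d + 1))) := by
    intro κ κ' h
    have h7 := congrArg Prod.fst h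
    have h8 := congrArg Prod.snd h
    funext i
    refine Fin.lastCases h8 (fun j => ?_) i
    exact congrFun h7 j
  have h9 := hS.comp _ hinj2
  have h10 : (fun κ : Fin (r + 1) → Fin (d + 1) =>
      ∏ i, (Fin.snoc t (y + u * ℓ (m * ∏ i, (if i ∈ S.map en.toEmbedding then q i else q' i))) :
        Fin (r + 1) → Ω) i ^ (κ i : ℕ)) =
      ((fun x : (Fin r → Fin (d + 1)) × Fin (d + 1) =>
        (∏ i, t i ^ (x.1 i : ℕ)) * (y + u * (ℓ m + ∑ x, ℓ (q' (en x))) +
          ∑ i ∈ S, u * (ℓ (q (en i)) - ℓ (q' (en i)))) ^ (x.2 : ℕ)) ∘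
        fun κ : Fin (r + 1) → Fin (d + 1) => (fun i : Fin r => κ i.castSucc, κ (Fin.last r))) := by
    funext κ
    rw [Fin.prod_univ_castSucc]
    simp only [Fin.snoc_castSucc, Fin.snoc_last, Function.comp]
    rw [hy]
  unfold BoxIndF
  rw [h10]
  exact h9

open Classical in
/-- The bad tuples in the box. -/
noncomputable def bad (F : Type) {Ω : Type} [Field F] [Field Ω] [Algebra F Ω] (ℓ : ℕ → Ω)
    (d : ℕ) {s r : ℕ} (t : Fin s → Ω) (y u : Fin r → Ω) (N : ℕ) : Finset (Fin r → ℕ) :=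
  (Fintype.piFinset (fun _ => Finset.Icc 1 N)).filter
    (fun a => ¬ BoxIndF F d (Fin.append t (fun i => y i + u i * ℓ (a i))))

theorem bad_bound (h1 : StCube) (h2 : StDensity) (s d : ℕ) :
    ∀ (r : ℕ) (ε : ℝ), 0 < ε → ∃ N₀ : ℕ, ∀ N, N₀ ≤ N →
      ∀ (p : ℕ) (F Ω : Type) [Field F] [IsAlgClosed F] [CharZero F] [Field Ω] [Algebra F Ω]
        (ℓ : ℕ → Ω), Good F p ℓ → ∀ (t : Fin s → Ω), BoxIndF F d t → ∀ (y u : Fin r → Ω),
        (∀ i, u i ≠ 0) → ((bad F ℓ d t y u N).card : ℝ) ≤ ε * (N : ℝ) ^ r := by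
  classical
  intro r
  induction r with
  | zero =>
    intro ε hε
    refine ⟨0, fun N _ p F Ω _ _ _ _ _ ℓ hℓ t ht y u hu => ?_⟩
    have h : bad F ℓ d t y u N = ∅ := by
      unfold bad
      rw [Finset.filter_eq_empty_iff]
      intro a _
      rw [not_not]
      have h3 : Fin.append t (fun i => y i + u i * ℓ (a i)) = t := by
        funext i
        have h4 := Fin.append_left t (fun i => y i + u i * ℓ (a i)) i
        exact h4
      rw [h3]
      exact ht
    rw [h]
    simp [hε.le]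
  | succ r ih =>
    intro ε hε
    obtain ⟨N₁, hN₁⟩ := ih (ε / 2) (by positivity)
    obtain ⟨N₂, hN₂⟩ := h2 0 (dimK d (s + r) + 1) (ε / 2) (by positivity)
    refine ⟨max N₁ N₂, fun N hN p F Ω _ _ _ _ _ ℓ hℓ t ht y u hu => ?_⟩
    have hA := hN₁ N (le_trans (le_max_left _ _) hN) p F Ω ℓ hℓ t ht (fun i => y i.castSucc)
      (fun i => u i.castSucc) (fun i => hu _)
    have hB := hN₂ N (le_trans (le_max_right _ _) hN)
    set box := Fintype.piFinset (fun _ : Fin r => Finset.Icc 1 N) with hbox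
    have hmaps : ∀ a ∈ bad F ℓ d t y u N, (fun i : Fin r => a i.castSucc) ∈ box := by
      intro a ha
      unfold bad at ha
      rw [Finset.mem_filter, Fintype.mem_piFinset] at ha
      rw [hbox, Fintype.mem_piFinset]
      exact fun i => ha.1 _
    have hcard := Finset.card_eq_sum_card_fiberwise (s := bad F ℓ d t y u N) (t := box)
      (f := fun a : Fin (r + 1) → ℕ => fun i : Fin r => a i.castSucc)
      (fun a ha => hmaps a ha)
    -- the tuple of the first `r` components
    let T : (Fin r → ℕ) → (Fin (s + r) → Ω) := fun a =>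
      Fin.append t (fun i => y i.castSucc + u i.castSucc * ℓ (a i))
    have hfib : ∀ a' : Fin r → ℕ,
        ((bad F ℓ d t y u N).filter
          (fun a : Fin (r + 1) → ℕ => (fun i : Fin r => a i.castSucc) = a')).card ≤
        ((Finset.Icc 1 N).filter (fun b => b ∈ {b : ℕ | ¬ BoxIndF F d
          (Fin.snoc (T a') (y (Fin.last r) + u (Fin.last r) * ℓ b) :
            Fin (s + r + 1) → Ω)})).card := by
      intro a'
      apply Finset.card_le_card_of_injOn (fun a => a (Fin.last r))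
      · intro a ha
        rw [Finset.mem_coe, Finset.mem_filter] at ha
        obtain ⟨ha1, ha2⟩ := ha
        unfold bad at ha1
        rw [Finset.mem_filter, Fintype.mem_piFinset] at ha1
        rw [Finset.mem_coe, Finset.mem_filter]
        refine ⟨ha1.1 _, ?_⟩
        have h5 : (Fin.snoc (T a') (y (Fin.last r) + u (Fin.last r) * ℓ (a (Fin.last r))) :
            Fin (s + r + 1) → Ω) =
            Fin.append t (fun i => y i + u i * ℓ (a i)) := by
          simp only [T]
          rw [← Fin.append_snoc]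
          congr 1
          funext i
          refine Fin.lastCases ?_ (fun j => ?_) i
          · rw [Fin.snoc_last]
          · rw [Fin.snoc_castSucc, ← ha2]
        rw [Set.mem_ofPred_eq, h5]
        exact ha1.2
      · intro a ha b hb hab
        rw [Finset.mem_coe, Finset.mem_filter] at ha hb
        funext i
        refine Fin.lastCases hab (fun j => ?_) i
        have h6 := ha.2.trans hb.2.symm
        exact congrFun h6 j
    have hfib1 : ∀ a' : Fin r → ℕ,
        (((bad F ℓ d t y u N).filter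
          (fun a : Fin (r + 1) → ℕ => (fun i : Fin r => a i.castSucc) = a')).card : ℝ) ≤ N := by
      intro a'
      have h7 := (hfib a').trans (Finset.card_filter_le _ _)
      rw [Nat.card_Icc, Nat.add_sub_cancel] at h7
      exact_mod_cast h7
    have hfib2 : ∀ a' ∈ box.filter (fun a => ¬ ¬ BoxIndF F d (T a)),
        (((bad F ℓ d t y u N).filter
          (fun a : Fin (r + 1) → ℕ => (fun i : Fin r => a i.castSucc) = a')).card : ℝ) ≤
            ε / 2 * N := by
      intro a' ha'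
      rw [Finset.mem_filter, not_not] at ha'
      refine le_trans (Nat.cast_le.2 (hfib a')) ?_
      have h8 := hB _ (cubeFree_zero (cubeFree_gen h1 d (s + r) p hℓ (T a') ha'.2
        (y (Fin.last r)) (u (Fin.last r)) (hu _)))
      refine le_trans (le_of_eq ?_) h8
      congr 2
      ext b
      simp only [Finset.mem_filter]
    rw [hcard]
    push_cast
    rw [← Finset.sum_filter_add_sum_filter_not box (fun a => ¬ BoxIndF F d (T a))]
    have hs1 : ∑ a' ∈ box.filter (fun a => ¬ BoxIndF F d (T a)),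
        (((bad F ℓ d t y u N).filter
          (fun a : Fin (r + 1) → ℕ => (fun i : Fin r => a i.castSucc) = a')).card : ℝ) ≤
          (bad F ℓ d t (fun i => y i.castSucc) (fun i => u i.castSucc) N).card * N := by
      refine (Finset.sum_le_card_nsmul _ _ (N : ℝ) (fun a' _ => hfib1 a')).trans ?_
      rw [nsmul_eq_mul]
      apply le_of_eq
      congr 2
    have hs2 : ∑ a' ∈ box.filter (fun a => ¬ ¬ BoxIndF F d (T a)),
        (((bad F ℓ d t y u N).filter
          (fun a : Fin (r + 1) → ℕ => (fun i : Fin r => a i.castSucc) = a')).card : ℝ) ≤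
          (N : ℝ) ^ r * (ε / 2 * N) := by
      refine (Finset.sum_le_card_nsmul _ _ (ε / 2 * N : ℝ) hfib2).trans ?_
      rw [nsmul_eq_mul]
      apply mul_le_mul_of_nonneg_right _ (by positivity)
      have h9 : (box.filter (fun a => ¬ ¬ BoxIndF F d (T a))).card ≤ N ^ r := by
        refine (Finset.card_filter_le _ _).trans ?_
        rw [hbox, G3.card_box]
      exact_mod_cast h9
    have hN0 : (0 : ℝ) ≤ N := Nat.cast_nonneg N
    calc _ ≤ (bad F ℓ d t (fun i => y i.castSucc) (fun i => u i.castSucc) N).card * (N : ℝ) +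
          (N : ℝ) ^ r * (ε / 2 * N) := add_le_add hs1 hs2
      _ ≤ (ε / 2 * (N : ℝ) ^ r) * N + (N : ℝ) ^ r * (ε / 2 * N) := by
        gcongr
      _ = ε * (N : ℝ) ^ (r + 1) := by ring

end abstract

/-! ### The p-adic logarithm -/

theorem good_log (h2 : StBaker) (h3 : StPrimeLogs) {p : ℕ} [Fact p.Prime]
    {L : PadicAlgCl p → PadicAlgCl p} (hL : IsIwasawaLog p L) :
    Good (algebraicClosure ℚ (PadicAlgCl p)) p (fun a : ℕ => L (a : PadicAlgCl p)) := by
  refine ⟨fun a b ha hb => ?_, fun k q q' hq hinj => G2.indep_diff h2 h3 hL k q q' hq hinj⟩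
  show L ((a * b : ℕ) : PadicAlgCl p) = _
  rw [Nat.cast_mul]
  exact hL.1 _ _ (Nat.cast_ne_zero.2 (by omega)) (Nat.cast_ne_zero.2 (by omega))

theorem boxInd_of_poly {p : ℕ} [Fact p.Prime] {d r : ℕ} (t : Fin r → PadicAlgCl p)
    (h : ∀ P : MvPolynomial (Fin r) (PadicAlgCl p), P ≠ 0 → (∀ i, P.degreeOf i ≤ d) →
      (∀ m, IsAlgebraic ℚ (P.coeff m)) → MvPolynomial.eval t P ≠ 0) :
    BoxIndF (algebraicClosure ℚ (PadicAlgCl p)) d t := by
  classical
  unfold BoxIndF
  rw [Fintype.linearIndependent_iff]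
  intro g hg
  by_contra hne
  push Not at hne
  obtain ⟨κ₀, hκ₀⟩ := hne
  let em : (Fin r → Fin (d + 1)) → (Fin r →₀ ℕ) :=
    fun κ => Finsupp.equivFunOnFinite.symm (fun i => (κ i : ℕ))
  have hemi : ∀ κ i, em κ i = (κ i : ℕ) := fun κ i => rfl
  have hem : Function.Injective em := by
    intro κ κ' h
    funext i
    apply Fin.ext
    rw [← hemi κ i, ← hemi κ' i, h]
  let P : MvPolynomial (Fin r) (PadicAlgCl p) :=
    ∑ κ, MvPolynomial.monomial (em κ) (g κ : PadicAlgCl p)
  have hcoeff : ∀ m, P.coeff m = ∑ κ, if em κ = m then (g κ : PadicAlgCl p) else 0 := by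
    intro m
    simp only [P]
    rw [MvPolynomial.coeff_sum]
    apply Finset.sum_congr rfl
    intro κ _
    rw [MvPolynomial.coeff_monomial]
  have hcoeffem : ∀ κ, P.coeff (em κ) = (g κ : PadicAlgCl p) := by
    intro κ
    rw [hcoeff, Finset.sum_eq_single κ]
    · simp
    · intro κ' _ hκ'
      rw [if_neg (fun h => hκ' (hem h))]
    · intro h
      exact absurd (Finset.mem_univ _) h
  have hP : P ≠ 0 := by
    intro h0
    apply hκ₀
    have h1 := hcoeffem κ₀
    rw [h0, MvPolynomial.coeff_zero] at h1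
    exact Subtype.ext h1.symm
  have hdeg : ∀ i, P.degreeOf i ≤ d := by
    intro i
    rw [MvPolynomial.degreeOf_le_iff]
    intro m hm
    rw [MvPolynomial.mem_support_iff, hcoeff] at hm
    obtain ⟨κ, _, hκ⟩ := Finset.exists_ne_zero_of_sum_ne_zero hm
    have h2 : em κ = m := by
      by_contra h3
      exact hκ (if_neg h3)
    rw [← h2, hemi]
    exact Nat.lt_succ_iff.mp (κ i).isLt
  have halg : ∀ m, IsAlgebraic ℚ (P.coeff m) := by
    intro m
    rw [hcoeff]
    have h4 : (∑ κ, if em κ = m then (g κ : PadicAlgCl p) else 0) ∈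
        algebraicClosure ℚ (PadicAlgCl p) := by
      apply sum_mem
      intro κ _
      split_ifs
      · exact (g κ).2
      · exact zero_mem _
    exact mem_algebraicClosure_iff.1 h4
  apply h P hP hdeg halg
  simp only [P]
  rw [map_sum, ← hg]
  apply Finset.sum_congr rfl
  intro κ _
  rw [MvPolynomial.eval_monomial, Algebra.smul_def]
  congr 1
  rw [Finsupp.prod_fintype _ _ (fun i => pow_zero _)]
  rfl

/-- The uniform theorem. -/
def StUniform : Prop :=
  ∀ (s r d : ℕ) (ε : ℝ), 0 < ε → ∃ N₀ : ℕ, ∀ N, N₀ ≤ N →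
    ∀ (p : ℕ) [Fact p.Prime] (L : PadicAlgCl p → PadicAlgCl p), IsIwasawaLog p L →
    ∀ t : Fin s → PadicAlgCl p,
      (∀ P : MvPolynomial (Fin s) (PadicAlgCl p), P ≠ 0 → (∀ i, P.degreeOf i ≤ d) →
        (∀ m, IsAlgebraic ℚ (P.coeff m)) → MvPolynomial.eval t P ≠ 0) →
    ∀ y u : Fin r → PadicAlgCl p, (∀ i, u i ≠ 0) →
      (({a : Fin r → ℕ | (∀ i, 1 ≤ a i ∧ a i ≤ N) ∧
        ∃ P : MvPolynomial (Fin (s + r)) (PadicAlgCl p), P ≠ 0 ∧ (∀ i, P.degreeOf i ≤ d) ∧
          (∀ m, IsAlgebraic ℚ (P.coeff m)) ∧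
          MvPolynomial.eval (Fin.append t (fun i => y i + u i * L (a i : PadicAlgCl p))) P = 0
        }.ncard : ℕ) : ℝ) ≤ ε * (N : ℝ) ^ r

theorem stUniform (h1 : StCube) (h2 : StDensity) (h3 : StBaker) (h4 : StPrimeLogs) :
    StUniform := by
  classical
  intro s r d ε hε
  obtain ⟨N₀, hN₀⟩ := bad_bound h1 h2 s d r ε hε
  refine ⟨N₀, fun N hN p _ L hL t ht y u hu => ?_⟩
  have := G2.isAlgClosed_AN p
  have hb := hN₀ N hN p (algebraicClosure ℚ (PadicAlgCl p)) (PadicAlgCl p)
    (fun a : ℕ => L (a : PadicAlgCl p)) (good_log h3 h4 hL) t (boxInd_of_poly t ht) y u hu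
  have hsub : {a : Fin r → ℕ | (∀ i, 1 ≤ a i ∧ a i ≤ N) ∧
        ∃ P : MvPolynomial (Fin (s + r)) (PadicAlgCl p), P ≠ 0 ∧ (∀ i, P.degreeOf i ≤ d) ∧
          (∀ m, IsAlgebraic ℚ (P.coeff m)) ∧
          MvPolynomial.eval (Fin.append t (fun i => y i + u i * L (a i : PadicAlgCl p))) P = 0} ⊆
      (bad (algebraicClosure ℚ (PadicAlgCl p)) (fun a : ℕ => L (a : PadicAlgCl p)) d t y u N :
        Set (Fin r → ℕ)) := by
    rintro a ⟨ha, P, hP, hd, halg, h0⟩
    rw [Finset.mem_coe]
    unfold bad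
    rw [Finset.mem_filter, Fintype.mem_piFinset]
    exact ⟨fun i => Finset.mem_Icc.2 (ha i), G3.not_boxInd_of_poly _ P hP hd halg h0⟩
  have hcard := Set.ncard_le_ncard hsub (Finset.finite_toSet _)
  rw [Set.ncard_coe_finset] at hcard
  exact le_trans (by exact_mod_cast hcard) hb

end Pool.Agent.Lib.MP_c50dba_nt.Gen.U
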